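import Pool.Agent.H960R2.VB.Defs

/-!
# Čech cohomology of the twists of the structure sheaf of `P^n`, in elementary terms (helper64)

`locI I W` is the localization of the submodule `W` of a module at the product of the variables
`X l`, `l ∈ I`.  The first and second Čech cohomology of the polynomial ring vanish for `n ≥ 2` and
`n ≥ 3`.
-/

set_option autoImplicit false
set_option linter.all false

open MvPolynomial H960VB

namespace Pool.Agent.K6.H64.VB

/-- the polynomial ring -/
abbrev S (n : ℕ) := MvPolynomial (Fin (n + 1)) ℂ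

variable {n : ℕ}

/-- the product of the variables of `I` -/
noncomputable def xp (I : Finset (Fin (n + 1))) : S n := ∏ l ∈ I, X l

theorem xp_ne_zero (I : Finset (Fin (n + 1))) : xp I ≠ 0 :=
  Finset.prod_ne_zero_iff.2 fun l _ => X_ne_zero l

/-- the localization at the product of the variables of `I` -/
def locI {V : Type*} [AddCommGroup V] [Module (S n) V] (I : Finset (Fin (n + 1)))
    (W : Submodule (S n) V) : Submodule (S n) V where
  carrier := {v | ∃ N : ℕ, xp I ^ N • v ∈ W}
  zero_mem' := ⟨0, by rw [smul_zero]; exact W.zero_mem⟩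
  add_mem' := by
    rintro a b ⟨N, hN⟩ ⟨M, hM⟩
    refine ⟨N + M, ?_⟩
    rw [smul_add]
    refine W.add_mem ?_ ?_
    · rw [pow_add, mul_comm, mul_smul]
      exact W.smul_mem _ hN
    · rw [pow_add, mul_smul]
      exact W.smul_mem _ hM
  smul_mem' := by
    rintro c a ⟨N, hN⟩
    refine ⟨N, ?_⟩
    rw [smul_comm]
    exact W.smul_mem _ hN

theorem mem_locI {V : Type*} [AddCommGroup V] [Module (S n) V] {I : Finset (Fin (n + 1))}
    {W : Submodule (S n) V} {v : V} : v ∈ locI I W ↔ ∃ N : ℕ, xp I ^ N • v ∈ W := Iff.rfl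

theorem locI_up {V : Type*} [AddCommGroup V] [Module (S n) V] {I : Finset (Fin (n + 1))}
    {W : Submodule (S n) V} {v : V} {N : ℕ} (h : xp I ^ N • v ∈ W) {M : ℕ} (hM : N ≤ M) :
    xp I ^ M • v ∈ W := by
  obtain ⟨k, rfl⟩ := Nat.exists_eq_add_of_le hM
  rw [pow_add, mul_comm, mul_smul]
  exact W.smul_mem _ h

theorem xp_dvd {I J : Finset (Fin (n + 1))} (h : I ⊆ J) : xp (n := n) I ∣ xp J :=
  Finset.prod_dvd_prod_of_subset _ _ _ h

theorem locI_mono {V : Type*} [AddCommGroup V] [Module (S n) V] {I J : Finset (Fin (n + 1))}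
    (h : I ⊆ J) (W : Submodule (S n) V) : locI I W ≤ locI J W := by
  rintro v ⟨N, hN⟩
  obtain ⟨c, hc⟩ := xp_dvd h
  refine ⟨N, ?_⟩
  rw [hc, mul_pow, mul_comm, mul_smul]
  exact W.smul_mem _ hN

theorem le_locI {V : Type*} [AddCommGroup V] [Module (S n) V] (I : Finset (Fin (n + 1)))
    (W : Submodule (S n) V) : W ≤ locI I W := fun v hv => ⟨0, by rwa [pow_zero, one_smul]⟩

section K

variable (K : Type) [Field K] [Algebra (S n) K] [IsFractionRing (S n) K]

/-- the polynomials in the field of rational functions -/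
noncomputable def O : Submodule (S n) K := LinearMap.range (Algebra.linearMap (S n) K)

variable {K}

theorem mem_O {q : K} : q ∈ O (n := n) K ↔ ∃ p : S n, algebraMap (S n) K p = q := Iff.rfl

theorem am_inj {p q : S n} (h : algebraMap (S n) K p = algebraMap (S n) K q) : p = q :=
  IsFractionRing.injective (S n) K h

theorem am_ne {p : S n} (h : p ≠ 0) : algebraMap (S n) K p ≠ 0 := fun h0 =>
  h (am_inj (K := K) (by rw [h0, map_zero]))

/-- `q` is homogeneous of degree `k` -/
def Hm (n : ℕ) {K : Type} [Field K] [Algebra (S n) K] (k : ℤ) (q : K) : Prop :=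
  ∃ (e : ℕ) (s p : S n), s ≠ 0 ∧ s.IsHomogeneous e ∧ HomZ p (k + e) ∧
    algebraMap (S n) K s * q = algebraMap (S n) K p

end K

/-- the index `k` is the first one where the exponent of `m` is at least `N` -/
def Sel (N : ℕ) (m : Fin (n + 1) →₀ ℕ) (k : Fin (n + 1)) : Prop := N ≤ m k ∧ ∀ l < k, m l < N

open Classical in
/-- the part of the polynomial whose monomials select `k` -/
noncomputable def part (N : ℕ) (k : Fin (n + 1)) (F : S n) : S n :=
  ∑ m ∈ F.support, if Sel N m k then monomial m (coeff m F) else 0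

open Classical in
theorem coeff_part (N : ℕ) (k : Fin (n + 1)) (F : S n) (m : Fin (n + 1) →₀ ℕ) :
    coeff m (part N k F) = if Sel N m k then coeff m F else 0 := by
  unfold part
  rw [coeff_sum]
  by_cases hm : m ∈ F.support
  · rw [Finset.sum_eq_single m]
    · split_ifs
      · rw [coeff_monomial, if_pos rfl]
      · rw [coeff_zero]
    · intro m' _ hne
      split_ifs
      · rw [coeff_monomial, if_neg hne]
      · rw [coeff_zero]
    · intro h; exact absurd hm h
  · rw [Finset.sum_eq_zero]
    · rw [notMem_support_iff.1 hm, ite_self]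
    · intro m' hm'
      split_ifs
      · rw [coeff_monomial, if_neg]
        rintro rfl
        exact hm hm'
      · rw [coeff_zero]

theorem part_sub (N : ℕ) (k : Fin (n + 1)) (F G : S n) :
    part N k (F - G) = part N k F - part N k G := by
  classical
  ext m
  rw [coeff_sub, coeff_part, coeff_part, coeff_part, coeff_sub]
  split_ifs <;> simp

theorem part_add (N : ℕ) (k : Fin (n + 1)) (F G : S n) :
    part N k (F + G) = part N k F + part N k G := by
  classical
  ext m
  rw [coeff_add, coeff_part, coeff_part, coeff_part, coeff_add]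
  split_ifs <;> simp

theorem sum_part (N : ℕ) (F : S n) (h : ∀ m ∈ F.support, ∃ k, N ≤ m k) :
    ∑ k, part N k F = F := by
  classical
  ext m
  rw [coeff_sum]
  by_cases hm : m ∈ F.support
  · obtain ⟨k0, hk0⟩ := h m hm
    obtain ⟨k, hk, hmin⟩ : ∃ k, N ≤ m k ∧ ∀ l < k, m l < N := by
      have hne : (Finset.univ.filter fun k => N ≤ m k).Nonempty := ⟨k0, by simp [hk0]⟩
      refine ⟨(Finset.univ.filter fun k => N ≤ m k).min' hne, ?_, fun l hl => ?_⟩
      · have := Finset.min'_mem _ hne
        rw [Finset.mem_filter] at this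
        exact this.2
      · by_contra hcon
        rw [not_lt] at hcon
        have := Finset.min'_le (Finset.univ.filter fun k => N ≤ m k) l (by simp [hcon])
        exact absurd hl (not_lt.2 this)
    rw [Finset.sum_eq_single k]
    · rw [coeff_part, if_pos ⟨hk, hmin⟩]
    · intro k' _ hne
      rw [coeff_part, if_neg]
      rintro ⟨h1, h2⟩
      rcases lt_or_gt_of_ne hne with hlt | hlt
      · exact absurd (hmin k' hlt) (not_lt.2 h1)
      · exact absurd (h2 k hlt) (not_lt.2 hk)
    · intro h; exact absurd (Finset.mem_univ _) h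
  · rw [notMem_support_iff.1 hm]
    refine Finset.sum_eq_zero fun k _ => ?_
    rw [coeff_part, notMem_support_iff.1 hm, ite_self]

theorem mem_support_part {N : ℕ} {k : Fin (n + 1)} {F : S n} {m : Fin (n + 1) →₀ ℕ}
    (h : m ∈ (part N k F).support) : m ∈ F.support ∧ N ≤ m k := by
  classical
  rw [mem_support_iff, coeff_part] at h
  by_cases hs : Sel N m k
  · rw [if_pos hs] at h
    exact ⟨mem_support_iff.2 h, hs.1⟩
  · rw [if_neg hs] at h
    exact absurd rfl h

theorem homZ_part {N : ℕ} {k : Fin (n + 1)} {F : S n} {d : ℤ} (h : HomZ F d) :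
    HomZ (part N k F) d := by
  classical
  rcases h with rfl | ⟨e, he, hF⟩
  · left
    ext m
    rw [coeff_part]
    simp
  · refine Or.inr ⟨e, he, fun m hm => ?_⟩
    rw [coeff_part] at hm
    split_ifs at hm with hs
    · exact hF hm
    · exact absurd rfl hm

/-- divisibility by a power of the product of some variables -/
theorem dvd_of_support {N : ℕ} {J : Finset (Fin (n + 1))} {F : S n}
    (h : ∀ m ∈ F.support, ∀ l ∈ J, N ≤ m l) : xp J ^ N ∣ F := by
  classical
  let s : Fin (n + 1) →₀ ℕ := Finsupp.equivFunOnFinite.symm fun l => if l ∈ J then N else 0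
  have hs : ∀ l, s l = if l ∈ J then N else 0 := fun l => rfl
  have h1 : xp J ^ N = monomial s (1 : ℂ) := by
    rw [monomial_eq, map_one, one_mul, Finsupp.prod_fintype _ _ (fun i => pow_zero _)]
    unfold xp
    rw [← Finset.prod_pow, ← Finset.prod_subset (Finset.subset_univ J)]
    · refine Finset.prod_congr rfl fun l hl => ?_
      rw [hs, if_pos hl]
    · intro l _ hl
      rw [hs, if_neg hl, pow_zero]
  have h2 : F.modMonomial s = 0 := by
    ext m
    rw [coeff_zero]
    by_cases hle : s ≤ m
    · exact coeff_modMonomial_of_le _ hle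
    · rw [coeff_modMonomial_of_not_le _ hle]
      by_contra hne
      apply hle
      intro l
      rw [hs]
      split_ifs with hl
      · exact h m (mem_support_iff.2 hne) l hl
      · exact Nat.zero_le _
  rw [h1]
  refine ⟨F.divMonomial s, ?_⟩
  have h3 := divMonomial_add_modMonomial F s
  rw [h2, add_zero] at h3
  exact h3.symm

theorem support_mul_xp {N : ℕ} {J : Finset (Fin (n + 1))} {F : S n}
    {m : Fin (n + 1) →₀ ℕ} (hm : m ∈ (F * xp J ^ N).support) {l : Fin (n + 1)} (hl : l ∈ J) :
    N ≤ m l := by
  classical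
  let s : Fin (n + 1) →₀ ℕ := Finsupp.equivFunOnFinite.symm fun l => if l ∈ J then N else 0
  have hs : ∀ l, s l = if l ∈ J then N else 0 := fun l => rfl
  have h1 : xp J ^ N = monomial s (1 : ℂ) := by
    rw [monomial_eq, map_one, one_mul, Finsupp.prod_fintype _ _ (fun i => pow_zero _)]
    unfold xp
    rw [← Finset.prod_pow, ← Finset.prod_subset (Finset.subset_univ J)]
    · refine Finset.prod_congr rfl fun l hl => ?_
      rw [hs, if_pos hl]
    · intro l _ hl
      rw [hs, if_neg hl, pow_zero]
  rw [h1, mem_support_iff, coeff_mul_monomial'] at hm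
  split_ifs at hm with hle
  · have := hle l
    rw [hs, if_pos hl] at this
    exact this
  · exact absurd rfl hm

theorem xp_homogeneous (I : Finset (Fin (n + 1))) : (xp (n := n) I).IsHomogeneous I.card := by
  have := IsHomogeneous.prod I (fun l => (X l : S n)) (fun _ => 1) (fun l _ => isHomogeneous_X ℂ l)
  simpa [xp] using this


section H

variable {K : Type} [Field K] [Algebra (S n) K] [IsFractionRing (S n) K]

/-- representation of the elements of the localizations by polynomials -/
theorem repr_of_mem {I : Finset (Fin (n + 1))} {t : K} (h : t ∈ locI I (O (n := n) K)) :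
    ∃ N₀ : ℕ, ∀ N, N₀ ≤ N → ∃ F : S n, algebraMap (S n) K (xp Finset.univ ^ N) * t =
      algebraMap (S n) K F ∧ ∀ m ∈ F.support, ∀ l ∉ I, N ≤ m l := by
  classical
  obtain ⟨N₀, hN₀⟩ := h
  refine ⟨N₀, fun N hN => ?_⟩
  obtain ⟨p, hp⟩ := mem_O.1 (locI_up hN₀ hN)
  have h1 : xp (n := n) Finset.univ = xp I * xp Iᶜ := by
    unfold xp
    rw [Finset.prod_mul_prod_compl]
  refine ⟨p * xp Iᶜ ^ N, ?_, fun m hm l hl => support_mul_xp hm (Finset.mem_compl.2 hl)⟩
  rw [Algebra.smul_def] at hp
  rw [h1, mul_pow, map_mul, map_mul, hp]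
  ring

theorem mem_of_repr {I : Finset (Fin (n + 1))} {t : K} {N : ℕ} {F : S n}
    (h : algebraMap (S n) K (xp Finset.univ ^ N) * t = algebraMap (S n) K F)
    (hF : ∀ m ∈ F.support, ∀ l ∉ I, N ≤ m l) : t ∈ locI I (O (n := n) K) := by
  classical
  have h1 : xp (n := n) Finset.univ = xp I * xp Iᶜ := by
    unfold xp
    rw [Finset.prod_mul_prod_compl]
  obtain ⟨G, rfl⟩ := dvd_of_support (J := Iᶜ) (N := N) (F := F) fun m hm l hl =>
    hF m hm l (Finset.mem_compl.1 hl)
  refine ⟨N, G, ?_⟩
  rw [h1, mul_pow, map_mul, map_mul] at h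
  have h2 : algebraMap (S n) K (xp Iᶜ ^ N) ≠ 0 := am_ne (pow_ne_zero _ (xp_ne_zero _))
  change algebraMap (S n) K G = _
  rw [Algebra.smul_def]
  apply mul_left_cancel₀ h2
  rw [← h]
  ring

theorem Hm.of_mul {k : ℤ} {q : K} {e : ℕ} {s p : S n} (hs0 : s ≠ 0) (hs : s.IsHomogeneous e)
    (hp : HomZ p (k + e)) (h : algebraMap (S n) K s * q = algebraMap (S n) K p) : Hm n k q :=
  ⟨e, s, p, hs0, hs, hp, h⟩

end H

theorem homZ_add {p q : S n} {d : ℤ} (hp : HomZ p d) (hq : HomZ q d) : HomZ (p + q) d := by
  rcases hp with rfl | ⟨k, hk, hp⟩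
  · rwa [zero_add]
  · rcases hq with rfl | ⟨k', hk', hq⟩
    · rw [add_zero]; exact Or.inr ⟨k, hk, hp⟩
    · obtain rfl : k = k' := by omega
      exact Or.inr ⟨k, hk, hp.add hq⟩

theorem homZ_mul {p q : S n} {d e : ℤ} (hp : HomZ p d) (hq : HomZ q e) : HomZ (p * q) (d + e) := by
  rcases hp with rfl | ⟨k, hk, hp⟩
  · left; rw [zero_mul]
  · rcases hq with rfl | ⟨k', hk', hq⟩
    · left; rw [mul_zero]
    · exact Or.inr ⟨k + k', by push_cast; omega, hp.mul hq⟩

theorem homZ_sum {ι : Type*} (s : Finset ι) {f : ι → S n} {d : ℤ} (h : ∀ i, HomZ (f i) d) :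
    HomZ (∑ i ∈ s, f i) d := by
  classical
  induction s using Finset.induction_on with
  | empty => left; rw [Finset.sum_empty]
  | insert a s ha ih => rw [Finset.sum_insert ha]; exact homZ_add (h a) ih

/-- factors of homogeneous polynomials -/
theorem homZ_of_mul {p s : S n} {e : ℕ} {d : ℤ} (hs0 : s ≠ 0) (hs : s.IsHomogeneous e)
    (h : HomZ (p * s) (d + e)) : HomZ p d := by
  classical
  by_cases hp0 : p = 0
  · exact Or.inl hp0
  right
  rcases h with h | ⟨k, hk, hps⟩
  · rcases mul_eq_zero.1 h with h | h
    · exact absurd h hp0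
    · exact absurd h hs0
  -- all homogeneous components of `p` of another degree vanish
  have h1 : ∀ i, i + e ≠ k → homogeneousComponent i p = 0 := by
    intro i hi
    have h2 : homogeneousComponent (i + e) (p * s) = homogeneousComponent i p * s := by
      have h3 : p = ∑ j ∈ Finset.range (p.totalDegree + 1), homogeneousComponent j p :=
        (sum_homogeneousComponent p).symm
      have h4 : homogeneousComponent (i + e) (p * s) =
          ∑ j ∈ Finset.range (p.totalDegree + 1),
            homogeneousComponent (i + e) (homogeneousComponent j p * s) := by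
        conv_lhs => rw [h3, Finset.sum_mul, map_sum]
      rw [h4]
      by_cases hir : i ∈ Finset.range (p.totalDegree + 1)
      · rw [Finset.sum_eq_single i]
        · exact homogeneousComponent_of_mem (by
            rw [mem_homogeneousSubmodule]
            exact (homogeneousComponent_isHomogeneous i p).mul hs) |>.trans (if_pos rfl)
        · intro j _ hj
          rw [homogeneousComponent_of_mem (n := j + e)
            ((mem_homogeneousSubmodule _ _).2 ((homogeneousComponent_isHomogeneous j p).mul hs))]
          rw [if_neg (by omega)]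
        · intro h; exact absurd hir h
      · have h5 : homogeneousComponent i p = 0 :=
          homogeneousComponent_eq_zero _ _ (by
            rw [Finset.mem_range] at hir
            omega)
        rw [h5, zero_mul]
        refine Finset.sum_eq_zero fun j hj => ?_
        rw [homogeneousComponent_of_mem (n := j + e)
            ((mem_homogeneousSubmodule _ _).2 ((homogeneousComponent_isHomogeneous j p).mul hs))]
        rw [if_neg]
        rintro h
        have : j = i := by omega
        exact hir (this ▸ hj)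
    have h6 : homogeneousComponent (i + e) (p * s) = 0 := by
      rw [homogeneousComponent_of_mem ((mem_homogeneousSubmodule _ _).2 hps), if_neg hi]
    rw [h2] at h6
    exact (mul_eq_zero.1 h6).resolve_right hs0
  have h7 : ∃ i, i + e = k := by
    by_contra hcon
    push Not at hcon
    apply hp0
    rw [← sum_homogeneousComponent p]
    exact Finset.sum_eq_zero fun i _ => h1 i (hcon i)
  obtain ⟨i, hi⟩ := h7
  refine ⟨i, by omega, ?_⟩
  have h8 : p = homogeneousComponent i p := by
    conv_lhs => rw [← sum_homogeneousComponent p]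
    by_cases hir : i ∈ Finset.range (p.totalDegree + 1)
    · exact Finset.sum_eq_single i (fun j _ hj => h1 j (by omega)) (fun h => absurd hir h)
    · have h5 : homogeneousComponent i p = 0 :=
        homogeneousComponent_eq_zero _ _ (by
          rw [Finset.mem_range] at hir
          omega)
      rw [h5]
      exact Finset.sum_eq_zero fun j hj => h1 j (by
        rintro h
        have : j = i := by omega
        exact hir (this ▸ hj))
  rw [h8]
  exact homogeneousComponent_isHomogeneous i p

section H2

variable {K : Type} [Field K] [Algebra (S n) K] [IsFractionRing (S n) K]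

theorem homZ_of_hm {q : K} {p s : S n} {e : ℕ} {k : ℤ} (hq : Hm n k q) (hs0 : s ≠ 0)
    (hs : s.IsHomogeneous e) (h : algebraMap (S n) K s * q = algebraMap (S n) K p) :
    HomZ p (k + e) := by
  obtain ⟨e', s', p', hs0', hs', hp', h'⟩ := hq
  have h1 : p * s' = p' * s := by
    apply am_inj (K := K)
    rw [map_mul, map_mul, ← h, ← h']
    ring
  refine homZ_of_mul hs0' hs' ?_
  rw [h1]
  rcases hp' with rfl | ⟨i, hi, hp'⟩
  · left; rw [zero_mul]
  · exact Or.inr ⟨i + e, by push_cast; omega, hp'.mul hs⟩

/-- the first Čech cohomology of the structure sheaf vanishes -/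
theorem h1S (hn : 2 ≤ n) {t : Fin (n + 1) → Fin (n + 1) → K}
    (ht : ∀ i j, t i j ∈ locI {i, j} (O (n := n) K)) (hc : ∀ i j k, t i j + t j k = t i k) :
    ∃ s : Fin (n + 1) → K, (∀ i, s i ∈ locI {i} (O (n := n) K)) ∧
      (∀ i j, t i j = s j - s i) ∧ ∀ k : ℤ, (∀ i j, Hm n k (t i j)) → ∀ i, Hm n k (s i) := by
  classical
  choose N₀ hN₀ using fun i j => repr_of_mem (ht i j)
  let N := Finset.univ.sup fun p : Fin (n + 1) × Fin (n + 1) => N₀ p.1 p.2
  have hN : ∀ i j, N₀ i j ≤ N := fun i j =>
    Finset.le_sup (f := fun p : Fin (n + 1) × Fin (n + 1) => N₀ p.1 p.2) (Finset.mem_univ (i, j))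
  choose F hF hFs using fun i j => hN₀ i j N (hN i j)
  have hx : algebraMap (S n) K (xp Finset.univ ^ N) ≠ 0 := am_ne (pow_ne_zero _ (xp_ne_zero _))
  have hFc : ∀ i j k, F i j + F j k = F i k := by
    intro i j k
    apply am_inj (K := K)
    rw [map_add, ← hF, ← hF, ← hF, ← hc i j k, mul_add]
  let G : Fin (n + 1) → S n := fun i => ∑ k, part N k (F k i)
  have hG : ∀ i j, F i j = G j - G i := by
    intro i j
    show F i j = ∑ k, part N k (F k j) - ∑ k, part N k (F k i)
    rw [← Finset.sum_sub_distrib]
    conv_lhs => rw [← sum_part N (F i j) (fun m hm => by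
      obtain ⟨l, hl⟩ : ∃ l, l ∉ ({i, j} : Finset (Fin (n + 1))) := by
        by_contra hcon
        push Not at hcon
        have h1 : (Finset.univ : Finset (Fin (n + 1))) ⊆ {i, j} := fun l _ => hcon l
        have h2 := Finset.card_le_card h1
        have h3 := Finset.card_le_two (a := i) (b := j)
        rw [Finset.card_univ, Fintype.card_fin] at h2
        omega
      exact ⟨l, hFs i j m hm l hl⟩)]
    refine Finset.sum_congr rfl fun k _ => ?_
    rw [← part_sub]
    congr 1
    rw [← hFc k i j]
    ring
  refine ⟨fun i => algebraMap (S n) K (G i) / algebraMap (S n) K (xp Finset.univ ^ N),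
    fun i => ?_, fun i j => ?_, fun k hk i => ?_⟩
  · refine mem_of_repr (N := N) (F := G i) (by field_simp) fun m hm l hl => ?_
    have h1 : m ∈ (Finset.univ.biUnion fun k => (part N k (F k i)).support) :=
      MvPolynomial.support_sum hm
    rw [Finset.mem_biUnion] at h1
    obtain ⟨k, _, hk⟩ := h1
    obtain ⟨h2, h3⟩ := mem_support_part hk
    by_cases hlk : l = k
    · rw [hlk]; exact h3
    · refine hFs k i m h2 l ?_
      rw [Finset.mem_insert, Finset.mem_singleton]
      rw [Finset.mem_singleton] at hl
      push Not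
      exact ⟨hlk, hl⟩
  · rw [← sub_div, ← map_sub, ← hG, ← hF]
    field_simp
  · have hxh : (xp (n := n) Finset.univ ^ N).IsHomogeneous ((Finset.univ : Finset (Fin (n + 1))).card * N) :=
      (xp_homogeneous Finset.univ).pow N
    refine Hm.of_mul (s := xp Finset.univ ^ N) (pow_ne_zero _ (xp_ne_zero _)) hxh (p := G i) ?_
      (by field_simp)
    have h1 : ∀ k', HomZ (part N k' (F k' i)) (k + ((Finset.univ : Finset (Fin (n + 1))).card * N : ℕ)) :=
      fun k' => homZ_part (homZ_of_hm (hk k' i) (pow_ne_zero _ (xp_ne_zero _)) hxh (hF k' i))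
    exact homZ_sum _ h1

end H2

end Pool.Agent.K6.H64.VB
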