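import Pool.Agent.K6.H64.VB.Cech

/-! Čech cohomology of the structure sheaf, second part (helper64). -/

set_option autoImplicit false
set_option linter.all false

open MvPolynomial H960VB

namespace Pool.Agent.K6.H64.VB

variable {n : ℕ} {K : Type} [Field K] [Algebra (S n) K] [IsFractionRing (S n) K]

/-- the second Čech cohomology of the structure sheaf vanishes -/
theorem h2S (hn : 3 ≤ n) {c : Fin (n + 1) → Fin (n + 1) → Fin (n + 1) → K}
    (ht : ∀ i j k, c i j k ∈ locI {i, j, k} (O (n := n) K))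
    (hc : ∀ i j k l, c j k l - c i k l + c i j l - c i j k = 0) :
    ∃ b : Fin (n + 1) → Fin (n + 1) → K, (∀ i j, b i j ∈ locI {i, j} (O (n := n) K)) ∧
      (∀ i j k, c i j k = b j k - b i k + b i j) ∧
      ∀ m : ℤ, (∀ i j k, Hm n m (c i j k)) → ∀ i j, Hm n m (b i j) := by
  classical
  choose N₀ hN₀ using fun i j k => repr_of_mem (ht i j k)
  let N := Finset.univ.sup fun p : Fin (n + 1) × Fin (n + 1) × Fin (n + 1) => N₀ p.1 p.2.1 p.2.2
  have hN : ∀ i j k, N₀ i j k ≤ N := fun i j k =>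
    Finset.le_sup (f := fun p : Fin (n + 1) × Fin (n + 1) × Fin (n + 1) => N₀ p.1 p.2.1 p.2.2)
      (Finset.mem_univ (i, j, k))
  choose F hF hFs using fun i j k => hN₀ i j k N (hN i j k)
  have hx : algebraMap (S n) K (xp Finset.univ ^ N) ≠ 0 := am_ne (pow_ne_zero _ (xp_ne_zero _))
  have hFc : ∀ i j k l, F j k l - F i k l + F i j l - F i j k = 0 := by
    intro i j k l
    apply am_inj (K := K)
    rw [map_sub, map_add, map_sub, map_zero, ← hF, ← hF, ← hF, ← hF, ← mul_sub, ← mul_add,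
      ← mul_sub, hc i j k l, mul_zero]
  let G : Fin (n + 1) → Fin (n + 1) → S n := fun i j => ∑ k, part N k (F k i j)
  have hG : ∀ i j l, F i j l = G j l - G i l + G i j := by
    intro i j l
    show F i j l = ∑ k, part N k (F k j l) - ∑ k, part N k (F k i l) + ∑ k, part N k (F k i j)
    rw [← Finset.sum_sub_distrib, ← Finset.sum_add_distrib]
    conv_lhs => rw [← sum_part N (F i j l) (fun m hm => by
      obtain ⟨l', hl⟩ : ∃ l', l' ∉ ({i, j, l} : Finset (Fin (n + 1))) := by
        by_contra hcon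
        push Not at hcon
        have h1 : (Finset.univ : Finset (Fin (n + 1))) ⊆ {i, j, l} := fun l' _ => hcon l'
        have h2 := Finset.card_le_card h1
        have h3 := Finset.card_le_three (a := i) (b := j) (c := l)
        rw [Finset.card_univ, Fintype.card_fin] at h2
        omega
      exact ⟨l', hFs i j l m hm l' hl⟩)]
    refine Finset.sum_congr rfl fun k _ => ?_
    rw [← part_sub, ← part_add]
    congr 1
    have := hFc k i j l
    linear_combination this
  refine ⟨fun i j => algebraMap (S n) K (G i j) / algebraMap (S n) K (xp Finset.univ ^ N),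
    fun i j => ?_, fun i j l => ?_, fun m hm i j => ?_⟩
  · refine mem_of_repr (N := N) (F := G i j) (by field_simp) fun m hm l hl => ?_
    have h1 : m ∈ (Finset.univ.biUnion fun k => (part N k (F k i j)).support) :=
      MvPolynomial.support_sum hm
    rw [Finset.mem_biUnion] at h1
    obtain ⟨k, _, hk⟩ := h1
    obtain ⟨h2, h3⟩ := mem_support_part hk
    by_cases hlk : l = k
    · rw [hlk]; exact h3
    · refine hFs k i j m h2 l ?_
      rw [Finset.mem_insert]
      push Not
      exact ⟨hlk, hl⟩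
  · rw [← sub_div, ← add_div, ← map_sub, ← map_add, ← hG, ← hF]
    field_simp
  · have hxh : (xp (n := n) Finset.univ ^ N).IsHomogeneous ((Finset.univ : Finset (Fin (n + 1))).card * N) :=
      (xp_homogeneous Finset.univ).pow N
    refine Hm.of_mul (s := xp Finset.univ ^ N) (pow_ne_zero _ (xp_ne_zero _)) hxh (p := G i j) ?_
      (by field_simp)
    exact homZ_sum _ fun k => homZ_part
      (homZ_of_hm (hm k i j) (pow_ne_zero _ (xp_ne_zero _)) hxh (hF k i j))

/-- homogeneous rational functions -/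
theorem Hm.zero (k : ℤ) : Hm n k (0 : K) :=
  ⟨0, 1, 0, one_ne_zero, isHomogeneous_one _ _, Or.inl rfl, by rw [mul_zero, map_zero]⟩

theorem Hm.add {k : ℤ} {q q' : K} (h : Hm n k q) (h' : Hm n k q') : Hm n k (q + q') := by
  obtain ⟨e, s, p, hs0, hs, hp, he⟩ := h
  obtain ⟨e', s', p', hs0', hs', hp', he'⟩ := h'
  refine ⟨e + e', s * s', p * s' + p' * s, mul_ne_zero hs0 hs0', hs.mul hs', ?_, ?_⟩
  · refine homZ_add ?_ ?_
    · have := homZ_mul hp (Or.inr ⟨e', rfl, hs'⟩ : HomZ s' (e' : ℤ))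
      push_cast
      rwa [← add_assoc]
    · have := homZ_mul hp' (Or.inr ⟨e, rfl, hs⟩ : HomZ s (e : ℤ))
      push_cast
      rwa [show k + ((e : ℤ) + e') = k + e' + e by ring]
  · rw [map_mul, map_add, map_mul, map_mul, ← he, ← he']
    ring

theorem Hm.mul {k k' : ℤ} {q q' : K} (h : Hm n k q) (h' : Hm n k' q') :
    Hm n (k + k') (q * q') := by
  obtain ⟨e, s, p, hs0, hs, hp, he⟩ := h
  obtain ⟨e', s', p', hs0', hs', hp', he'⟩ := h'
  refine ⟨e + e', s * s', p * p', mul_ne_zero hs0 hs0', hs.mul hs', ?_, ?_⟩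
  · have := homZ_mul hp hp'
    push_cast
    rwa [show k + k' + ((e : ℤ) + e') = k + e + (k' + e') by ring]
  · rw [map_mul, map_mul, ← he, ← he']
    ring

theorem Hm.of_homZ {k : ℤ} {p : S n} (h : HomZ p k) : Hm n k (algebraMap (S n) K p) :=
  ⟨0, 1, p, one_ne_zero, isHomogeneous_one _ _, by simpa using h, by rw [map_one, one_mul]⟩

theorem Hm.to_homZ {k : ℤ} {p : S n} (h : Hm n k (algebraMap (S n) K p)) : HomZ p k := by
  have := homZ_of_hm (p := p) (s := 1) (e := 0) h one_ne_zero (isHomogeneous_one _ _)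
    (by rw [map_one, one_mul])
  simpa using this

theorem Hm.inv {k : ℤ} {q : K} (h : Hm n k q) : Hm n (-k) q⁻¹ := by
  by_cases hq : q = 0
  · rw [hq, inv_zero]; exact Hm.zero _
  obtain ⟨e, s, p, hs0, hs, hp, he⟩ := h
  have hp0 : p ≠ 0 := by
    rintro rfl
    rw [map_zero] at he
    rcases mul_eq_zero.1 he with h | h
    · exact am_ne hs0 h
    · exact hq h
  obtain ⟨k', hk', hp⟩ := hp.resolve_left hp0
  refine ⟨k', p, s, hp0, hp, Or.inr ⟨e, by omega, hs⟩, ?_⟩
  rw [← he]
  field_simp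

theorem Hm.neg {k : ℤ} {q : K} (h : Hm n k q) : Hm n k (-q) := by
  have h1 : Hm n 0 (algebraMap (S n) K (-1)) :=
    Hm.of_homZ (Or.inr ⟨0, rfl, (isHomogeneous_one _ _).neg⟩)
  have := h1.mul h
  rw [zero_add, map_neg, map_one, neg_one_mul] at this
  exact this

theorem Hm.sub {k : ℤ} {q q' : K} (h : Hm n k q) (h' : Hm n k q') : Hm n k (q - q') := by
  rw [sub_eq_add_neg]; exact h.add h'.neg

theorem Hm.sum {k : ℤ} {ι : Type*} (s : Finset ι) {f : ι → K} (h : ∀ i ∈ s, Hm n k (f i)) :
    Hm n k (∑ i ∈ s, f i) := by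
  classical
  induction s using Finset.induction_on with
  | empty => rw [Finset.sum_empty]; exact Hm.zero k
  | insert a s ha ih =>
    rw [Finset.sum_insert ha]
    exact (h a (Finset.mem_insert_self _ _)).add (ih fun i hi => h i (Finset.mem_insert_of_mem hi))

/-- uniqueness of the homogeneous decomposition -/
theorem Hm.unique {s : Finset ℤ} {f : ℤ → K} (h : ∀ k ∈ s, Hm n k (f k)) (h0 : ∑ k ∈ s, f k = 0) :
    ∀ k ∈ s, f k = 0 := by
  classical
  -- common homogeneous denominator
  have hden : ∃ (e : ℕ) (d : S n), d ≠ 0 ∧ d.IsHomogeneous e ∧ ∀ k ∈ s, ∃ p : S n,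
      algebraMap (S n) K d * f k = algebraMap (S n) K p := by
    clear h0
    induction s using Finset.induction_on with
    | empty => exact ⟨0, 1, one_ne_zero, isHomogeneous_one _ _, fun k hk => absurd hk (by simp)⟩
    | insert a s ha ih =>
      obtain ⟨e, d, hd0, hd, hk⟩ := ih fun k hk => h k (Finset.mem_insert_of_mem hk)
      obtain ⟨e', s', p', hs0', hs', hp', he'⟩ := h a (Finset.mem_insert_self _ _)
      refine ⟨e + e', d * s', mul_ne_zero hd0 hs0', hd.mul hs', fun k hk' => ?_⟩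
      rcases Finset.mem_insert.1 hk' with rfl | hk'
      · exact ⟨d * p', by rw [map_mul, map_mul, ← he']; ring⟩
      · obtain ⟨p, hp⟩ := hk k hk'
        exact ⟨p * s', by rw [map_mul, map_mul, ← hp]; ring⟩
  obtain ⟨e, d, hd0, hd, hp⟩ := hden
  choose! p hp using hp
  have hph : ∀ k ∈ s, HomZ (p k) (k + e) := fun k hk => homZ_of_hm (h k hk) hd0 hd (hp k hk)
  have hsum : ∑ k ∈ s, p k = 0 := by
    apply am_inj (K := K)
    rw [map_sum, map_zero, ← Finset.sum_congr rfl hp, ← Finset.mul_sum, h0, mul_zero]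
  intro k hk
  have h1 : p k = 0 := by
    rcases hph k hk with h | ⟨i, hi, hpi⟩
    · exact h
    have h2 : homogeneousComponent i (∑ k ∈ s, p k) = p k := by
      rw [map_sum, Finset.sum_eq_single k]
      · rw [homogeneousComponent_of_mem ((mem_homogeneousSubmodule _ _).2 hpi), if_pos rfl]
      · intro k' hk' hne
        rcases hph k' hk' with h | ⟨i', hi', hpi'⟩
        · rw [h, map_zero]
        · rw [homogeneousComponent_of_mem ((mem_homogeneousSubmodule _ _).2 hpi'), if_neg]
          omega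
      · intro h; exact absurd hk h
    rw [hsum, map_zero] at h2
    exact h2.symm
  have h3 := hp k hk
  rw [h1, map_zero] at h3
  exact (mul_eq_zero.1 h3).resolve_left (am_ne hd0)

/-- functions regular outside the origin are polynomials -/
theorem mem_O_of_locI (hn : 1 ≤ n) {q : K} (h : ∀ i, q ∈ locI {i} (O (n := n) K)) :
    q ∈ O (n := n) K := by
  classical
  obtain ⟨N, p, hp⟩ := h 0
  obtain ⟨M, p', hp'⟩ := h (Fin.last n)
  have hx : ∀ i : Fin (n + 1), xp (n := n) {i} = X i := fun i => by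
    unfold xp; rw [Finset.prod_singleton]
  rw [hx] at hp hp'
  change algebraMap (S n) K p = _ at hp
  change algebraMap (S n) K p' = _ at hp'
  rw [Algebra.smul_def] at hp hp'
  have h1 : p * X (Fin.last n) ^ M = p' * X 0 ^ N := by
    apply am_inj (K := K)
    rw [map_mul, map_mul, hp, hp']
    ring
  have h0l : (0 : Fin (n + 1)) ≠ Fin.last n := by
    intro h
    have := congrArg Fin.val h
    rw [Fin.val_zero, Fin.val_last] at this
    omega
  have hcop : IsRelPrime (X (0 : Fin (n + 1)) : S n) (X (Fin.last n)) := by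
    intro d hd1 hd2
    have hirr : Irreducible (X (0 : Fin (n + 1)) : S n) := (X_prime (i := (0 : Fin (n + 1)))).irreducible
    rcases hirr.dvd_iff.1 hd1 with h | h
    · exact h
    · exfalso
      have h2 : (X (0 : Fin (n + 1)) : S n) ∣ X (Fin.last n) := h.dvd.trans hd2
      rw [X_dvd_X] at h2
      rcases h2 with h2
      exact h0l h2
  have h2 : (X (0 : Fin (n + 1)) : S n) ^ N ∣ p := by
    have h3 : (X (0 : Fin (n + 1)) : S n) ^ N ∣ p * X (Fin.last n) ^ M := by
      rw [h1]; exact dvd_mul_left _ _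
    exact (hcop.pow).dvd_of_dvd_mul_right h3
  obtain ⟨r, rfl⟩ := h2
  refine ⟨r, ?_⟩
  have h4 : algebraMap (S n) K (X 0 ^ N) ≠ 0 := am_ne (pow_ne_zero _ (X_ne_zero _))
  apply mul_left_cancel₀ h4
  rw [← hp, map_mul]
  rfl

/-- the Nullstellensatz for ideals without zeros outside the origin -/
theorem pow_mem_of_ideal {𝔞 : Ideal (S n)} (h : ∀ x : Fin (n + 1) → ℂ, x ≠ 0 →
    ∃ g ∈ 𝔞, eval x g ≠ 0) {f : S n} (hf : eval 0 f = 0) : ∃ N : ℕ, f ^ N ∈ 𝔞 := by
  have h1 : f ∈ 𝔞.radical := by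
    rw [← vanishingIdeal_zeroLocus_eq_radical (K := ℂ), mem_vanishingIdeal_iff]
    intro x hx
    have hx0 : x = 0 := by
      by_contra hne
      obtain ⟨g, hg, hgx⟩ := h x hne
      exact hgx (by simpa using hx g hg)
    rw [hx0]
    simpa using hf
  exact h1

theorem xp_pow_mem {𝔞 : Ideal (S n)} (h : ∀ x : Fin (n + 1) → ℂ, x ≠ 0 →
    ∃ g ∈ 𝔞, eval x g ≠ 0) {I : Finset (Fin (n + 1))} (hI : I.Nonempty) :
    ∃ N : ℕ, xp I ^ N ∈ 𝔞 := by
  refine pow_mem_of_ideal h ?_
  obtain ⟨i, hi⟩ := hI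
  unfold xp
  rw [map_prod]
  exact Finset.prod_eq_zero hi (by rw [eval_X]; rfl)

end Pool.Agent.K6.H64.VB
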