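import Pool.Agent.K6.H64.VB.Core3

/-! Dimension count for the cohomology of the trace free endomorphisms (helper64). -/

set_option autoImplicit false
set_option linter.all false

open MvPolynomial H960VB Matrix

namespace Pool.Agent.K6.H64.VB

theorem codim_le {U : Type} [AddCommGroup U] [Module ℂ U] [FiniteDimensional ℂ U]
    {W W' : Submodule ℂ U} {c : ℕ} (h : ∀ f : Fin (c + 1) → U, (∀ a, f a ∈ W) →
      ∃ l : Fin (c + 1) → ℂ, l ≠ 0 ∧ ∑ a, l a • f a ∈ W') :
    Module.finrank ℂ W ≤ Module.finrank ℂ W' + c := by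
  let q : W →ₗ[ℂ] U ⧸ W' := W'.mkQ.comp W.subtype
  have h1 := LinearMap.finrank_range_add_finrank_ker q
  have h2 : Module.finrank ℂ (LinearMap.ker q) ≤ Module.finrank ℂ W' := by
    let g : LinearMap.ker q →ₗ[ℂ] W' := LinearMap.codRestrict W'
      (W.subtype.comp (LinearMap.ker q).subtype) (fun x => by
        have := x.2
        rw [LinearMap.mem_ker] at this
        exact (Submodule.Quotient.mk_eq_zero W').1 this)
    refine LinearMap.finrank_le_finrank_of_injective (f := g) ?_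
    intro x y hxy
    apply Subtype.ext
    apply Subtype.ext
    exact congrArg (fun z : W' => (z : U)) hxy
  have h3 : Module.finrank ℂ (LinearMap.range q) ≤ c := by
    by_contra hcon
    push Not at hcon
    obtain ⟨f, hf⟩ := exists_linearIndependent_of_le_finrank (R := ℂ)
      (M := LinearMap.range q) (n := c + 1) hcon
    choose w hw using fun a => LinearMap.mem_range.1 (f a).2
    obtain ⟨l, hl0, hl⟩ := h (fun a => (w a : U)) fun a => (w a).2
    apply hl0
    funext a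
    refine Fintype.linearIndependent_iff.1 hf l ?_ a
    apply Subtype.ext
    rw [Submodule.coe_sum]
    simp only [Submodule.coe_smul, Submodule.coe_zero]
    have e1 : ∀ a, l a • (f a : U ⧸ W') = W'.mkQ (l a • (w a : U)) := fun a => by
      rw [← hw a, map_smul]; rfl
    rw [Finset.sum_congr rfl fun a _ => e1 a, ← map_sum]
    exact (Submodule.Quotient.mk_eq_zero W').2 hl
  omega

variable {n : ℕ} {K : Type} [Field K] [Algebra (S n) K] [IsFractionRing (S n) K]

/-- compatible families -/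
def IsCF (M : Submodule (S n) (Fin 2 → K)) (φ : M2 K) (k : ℤ) (t : Fin (n + 1) → K) : Prop :=
  (∀ i, t i ∈ locI {i} (O (n := n) K)) ∧ (∀ i, Hm n k (t i)) ∧
    ∀ i j, t j - t i ∈ locI {i, j} (JK M φ)

/-- the family is the restriction of a form -/
def IsExt (M : Submodule (S n) (Fin 2 → K)) (φ : M2 K) (k : ℤ) (t : Fin (n + 1) → K) : Prop :=
  ∃ F : S n, HomZ F k ∧ ∀ i, t i - algebraMap (S n) K F ∈ locI {i} (JK M φ)

/-- the first cohomology of the twist of the ideal sheaf is spanned by `c` classes -/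
def H1K (M : Submodule (S n) (Fin 2 → K)) (φ : M2 K) (k : ℤ) (c : ℕ) : Prop :=
  ∃ s' : Fin c → Fin (n + 1) → K, ∀ t, IsCF M φ k t → ∃ μ : Fin c → ℂ,
    IsExt M φ k (fun i => t i - ∑ a, algebraMap (S n) K (C (μ a)) * s' a i)

theorem H1K.rel {M : Submodule (S n) (Fin 2 → K)} {φ : M2 K} {k : ℤ} {c : ℕ} (h : H1K M φ k c)
    (t : Fin (c + 1) → Fin (n + 1) → K) (ht : ∀ a, IsCF M φ k (t a)) :
    ∃ l : Fin (c + 1) → ℂ, l ≠ 0 ∧
      IsExt M φ k (fun i => ∑ a, algebraMap (S n) K (C (l a)) * t a i) := by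
  obtain ⟨s', hs⟩ := h
  choose μ F hF hFt using fun a => hs (t a) (ht a)
  let L : (Fin (c + 1) → ℂ) →ₗ[ℂ] (Fin c → ℂ) := Matrix.vecMulLinear (Matrix.of μ)
  have hker : LinearMap.ker L ≠ ⊥ := LinearMap.ker_ne_bot_of_finrank_lt (by simp)
  obtain ⟨l, hl, hl0⟩ := (Submodule.ne_bot_iff _).1 hker
  refine ⟨l, hl0, ∑ a, C (l a) * F a, homZ_sum _ fun a => ?_, fun i => ?_⟩
  · have := homZ_mul (Or.inr ⟨0, rfl, isHomogeneous_C _ (l a)⟩ : HomZ (C (l a) : S n) ((0 : ℕ) : ℤ))
      (hF a)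
    simpa using this
  · have h1 : ∀ b, ∑ a, l a * μ a b = 0 := fun b => congrFun (LinearMap.mem_ker.1 hl) b
    have h2 : ∑ a, algebraMap (S n) K (C (l a)) * t a i - algebraMap (S n) K (∑ a, C (l a) * F a) =
        ∑ a, (C (l a) : S n) • (t a i - ∑ b, algebraMap (S n) K (C (μ a b)) * s' b i -
          algebraMap (S n) K (F a)) := by
      have h3 : ∑ a, algebraMap (S n) K (C (l a)) *
          ∑ b, algebraMap (S n) K (C (μ a b)) * s' b i = 0 := by
        simp only [Finset.mul_sum]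
        rw [Finset.sum_comm]
        refine Finset.sum_eq_zero fun b _ => ?_
        have h4 : ∑ a, algebraMap (S n) K (C (l a)) * (algebraMap (S n) K (C (μ a b)) * s' b i) =
            algebraMap (S n) K (C (∑ a, l a * μ a b)) * s' b i := by
          rw [map_sum, map_sum, Finset.sum_mul]
          refine Finset.sum_congr rfl fun a _ => ?_
          rw [MvPolynomial.C_mul, map_mul]; ring
        rw [h4, h1 b, map_zero, map_zero, zero_mul]
      simp only [Algebra.smul_def, mul_sub, Finset.sum_sub_distrib, map_sum, map_mul]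
      rw [h3, sub_zero]
    rw [h2]
    exact Submodule.sum_mem _ fun a _ => Submodule.smul_mem _ _ (hFt a i)

theorem bn_add (φ : M2 K) (m : ℕ) : ∀ A B : M2 K,
    (br φ)^[m] (A + B) = (br φ)^[m] A + (br φ)^[m] B := by
  induction m with
  | zero => intro A B; rfl
  | succ m ih => intro A B; rw [Function.iterate_succ_apply, Function.iterate_succ_apply,
      Function.iterate_succ_apply, br_add, ih]

theorem bn_smul (φ : M2 K) (m : ℕ) (g : S n) : ∀ A : M2 K,
    (br φ)^[m] (g • A) = g • (br φ)^[m] A := by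
  induction m with
  | zero => intro A; rfl
  | succ m ih => intro A; rw [Function.iterate_succ_apply, Function.iterate_succ_apply,
      br_smul, ih]

theorem bn_sub (φ : M2 K) (m : ℕ) : ∀ A B : M2 K,
    (br φ)^[m] (A - B) = (br φ)^[m] A - (br φ)^[m] B := by
  induction m with
  | zero => intro A B; rfl
  | succ m ih => intro A B; rw [Function.iterate_succ_apply, Function.iterate_succ_apply,
      Function.iterate_succ_apply, br_sub, ih]

theorem bn_zero (φ : M2 K) (m : ℕ) : (br φ)^[m] (0 : M2 K) = 0 := by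
  have := bn_sub φ m 0 0
  rwa [sub_self, sub_self] at this

theorem bn_sum (φ : M2 K) (m : ℕ) {ι : Type} (s : Finset ι) (f : ι → M2 K) :
    (br φ)^[m] (∑ a ∈ s, f a) = ∑ a ∈ s, (br φ)^[m] (f a) := by
  classical
  induction s using Finset.induction_on with
  | empty => rw [Finset.sum_empty, Finset.sum_empty, bn_zero]
  | insert a s ha ih => rw [Finset.sum_insert ha, Finset.sum_insert ha, bn_add, ih]

theorem Tw.bn_mem {M : Submodule (S n) (Fin 2 → K)} {φ : M2 K} {d : ℤ} (h : Tw M φ d)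
    {I : Finset (Fin (n + 1))} (m : ℕ) : ∀ {X : M2 K}, X ∈ locI I (A0 M) →
    (br φ)^[m] X ∈ locI I (A0 M) := by
  induction m with
  | zero => intro X hX; exact hX
  | succ m ih => intro X hX; rw [Function.iterate_succ_apply]; exact ih (h.br_mem hX)

theorem Cob.bn {M : Submodule (S n) (Fin 2 → K)} {φ : M2 K} {d : ℤ} (h : Tw M φ d) (m : ℕ)
    {w : Fin (n + 1) → Fin (n + 1) → M2 K} (hw : Cob (A0 M) w) :
    Cob (A0 M) (fun i j => (br φ)^[m] (w i j)) := by
  obtain ⟨s, hs, hs'⟩ := hw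
  exact ⟨fun i => (br φ)^[m] (s i), fun i => h.bn_mem m (hs i), fun i j => by
    show (br φ)^[m] (w i j) = (br φ)^[m] (s j) - (br φ)^[m] (s i)
    rw [hs', bn_sub]⟩

theorem Cob.sum {M : Submodule (S n) (Fin 2 → K)} {ι : Type} (s : Finset ι)
    {w : ι → Fin (n + 1) → Fin (n + 1) → M2 K} (hw : ∀ a, Cob (A0 M) (w a)) :
    Cob (A0 M) (fun i j => ∑ a ∈ s, w a i j) := by
  choose t ht ht' using hw
  exact ⟨fun i => ∑ a ∈ s, t a i, fun i => Submodule.sum_mem _ fun a _ => ht a i, fun i j => by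
    show ∑ a ∈ s, w a i j = ∑ a ∈ s, t a j - ∑ a ∈ s, t a i
    rw [← Finset.sum_sub_distrib]
    exact Finset.sum_congr rfl fun a _ => ht' a i j⟩

theorem Coc.sum {M : Submodule (S n) (Fin 2 → K)} {ι : Type} (s : Finset ι)
    {w : ι → Fin (n + 1) → Fin (n + 1) → M2 K} (hw : ∀ a, Coc (A0 M) (w a)) (g : ι → S n) :
    Coc (A0 M) (fun i j => ∑ a ∈ s, g a • w a i j) :=
  ⟨fun i j => Submodule.sum_mem _ fun a _ => Submodule.smul_mem _ _ ((hw a).1 i j),
    fun i j k => by
    show ∑ a ∈ s, g a • w a i j + ∑ a ∈ s, g a • w a j k = ∑ a ∈ s, g a • w a i k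
    rw [← Finset.sum_add_distrib]
    refine Finset.sum_congr rfl fun a _ => ?_
    rw [← smul_add, (hw a).2]⟩

theorem Tw.br_coc {M : Submodule (S n) (Fin 2 → K)} {φ : M2 K} {d : ℤ} (h : Tw M φ d)
    {Z : Fin (n + 1) → Fin (n + 1) → M2 K} (hZ : Coc (A0 M) Z) :
    Coc (A0 M) (fun i j => br φ (Z i j)) :=
  ⟨fun i j => h.br_mem (hZ.1 i j), fun i j k => by
    show br φ (Z i j) + br φ (Z j k) = br φ (Z i k)
    rw [← br_add, hZ.2]⟩

theorem Tw.brbr (hn : 2 ≤ n) {M : Submodule (S n) (Fin 2 → K)} {φ : M2 K} {d : ℤ} (h : Tw M φ d)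
    {δ : S n} (hδ : algebraMap (S n) K δ = 2 * (φ * φ).trace)
    {Z : Fin (n + 1) → Fin (n + 1) → M2 K} (hZ : Coc (A0 M) Z) :
    Cob (A0 M) (fun i j => br φ (br φ (Z i j)) - δ • Z i j) := by
  obtain ⟨s, hs, hs', -⟩ := h1S (K := K) hn (t := fun i j => (φ * Z i j).trace)
    (fun i j => locI_le (h.JK_le (by omega)) (h.tr_loc (hZ.1 i j)))
    (fun i j k => by rw [← trace_add, ← Matrix.mul_add, hZ.2])
  refine ⟨fun i => -((2 * s i) • φ), fun i => ?_, fun i j => ?_⟩
  · refine Submodule.neg_mem _ (smul_mem_locI ?_ h.mem)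
    rw [two_mul]
    exact Submodule.add_mem _ (hs i) (hs i)
  · have e4 := br_br h.tr (trace_zero_of_loc (hZ.1 i j))
    have e6 : δ • Z i j = (2 * (φ * φ).trace) • Z i j := by
      rw [← hδ, algebraMap_smul]
    have e8 : (2 * (φ * Z i j).trace) • φ = (2 * s j) • φ - (2 * s i) • φ := by
      rw [← sub_smul]; congr 1
      have : (φ * Z i j).trace = s j - s i := hs' i j
      rw [this]; ring
    show br φ (br φ (Z i j)) - δ • Z i j = -((2 * s j) • φ) - -((2 * s i) • φ)
    rw [e4, e8, e6]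
    abel

theorem Tw.bn2 (hn : 2 ≤ n) {M : Submodule (S n) (Fin 2 → K)} {φ : M2 K} {d : ℤ} (h : Tw M φ d)
    {δ : S n} (hδ : algebraMap (S n) K δ = 2 * (φ * φ).trace) (m : ℕ) :
    ∀ {Z : Fin (n + 1) → Fin (n + 1) → M2 K}, Coc (A0 M) Z →
    Cob (A0 M) (fun i j => (br φ)^[2 * m] (Z i j) - δ ^ m • Z i j) := by
  induction m with
  | zero =>
    intro Z hZ
    exact ⟨0, fun i => Submodule.zero_mem _, fun i j => by simp⟩
  | succ m ih =>
    intro Z hZ
    have h1 := ih (h.br_coc (h.br_coc hZ))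
    have h2 := (h.brbr hn hδ hZ).smul (δ ^ m)
    refine (h1.add h2).congr fun i j => ?_
    rw [show 2 * (m + 1) = 2 * m + 1 + 1 by ring, Function.iterate_succ_apply,
      Function.iterate_succ_apply, smul_sub, smul_smul, pow_succ]
    abel

/-- multiplication by a high power of the discriminant kills the cohomology -/
theorem Tw.nilp (hn : 2 ≤ n) {M : Submodule (S n) (Fin 2 → K)} {φ : M2 K} {d : ℤ} (h : Tw M φ d) :
    ∃ m : ℕ, ∀ Z : Fin (n + 1) → Fin (n + 1) → M2 K, Coc (A0 M) Z →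
      Cob (A0 M) (fun i j => (br φ)^[2 * m] (Z i j)) := by
  obtain ⟨δ', hδ'⟩ := mem_O.1 (h.JK_le (by omega) ⟨φ, h.mem, rfl⟩)
  let δ : S n := 2 * δ'
  have hδ : algebraMap (S n) K δ = 2 * (φ * φ).trace := by
    show algebraMap (S n) K (2 * δ') = _
    rw [map_mul, hδ', map_ofNat]
  have hann : ∃ m : ℕ, δ ^ m ∈ annI M := by
    refine pow_mem_of_ideal (fun x hx => ?_) ?_
    · obtain ⟨P, g, hP⟩ := h.geo.chart x hx
      exact ⟨g * g, mem_annI_of_chart (by omega) hP, by
        rw [map_mul]; exact mul_ne_zero hP.2.1 hP.2.1⟩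
    · have h1 : HomZ δ' (d + d) := by
        refine Hm.to_homZ (K := K) ?_
        rw [hδ']
        exact hm_tr h.hm h.hm
      have h2 : eval 0 δ' = 0 := by
        rcases h1 with h1 | ⟨k, hk, hp⟩
        · rw [h1]; simp
        · have h2 : constantCoeff δ' = 0 := by
            rw [constantCoeff_eq]
            have := h.pos
            exact hp.coeff_eq_zero (by simp; omega)
          rw [← h2, MvPolynomial.eval_zero]
      show eval 0 (2 * δ') = 0
      rw [map_mul, h2, mul_zero]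
  obtain ⟨m, hm⟩ := hann
  refine ⟨m, fun Z hZ => ((h.bn2 hn hδ m hZ).add (hm Z hZ)).congr fun i j => ?_⟩
  abel

theorem C_smul_hm {k : ℤ} (a : ℂ) {X : M2 K} (hX : HmM n k X) : HmM n k ((C a : S n) • X) := by
  rw [smul_eq_am (K := K)]
  have := hgrM.smul _ _ _ _ (Hm.of_homZ (K := K)
    (Or.inr ⟨0, rfl, isHomogeneous_C _ a⟩ : HomZ (C a : S n) ((0 : ℕ) : ℤ))) hX
  simpa using this

theorem HmM.sum {k : ℤ} {ι : Type} (s : Finset ι) {f : ι → M2 K} (h : ∀ a, HmM n k (f a)) :
    HmM n k (∑ a ∈ s, f a) := by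
  classical
  induction s using Finset.induction_on with
  | empty => rw [Finset.sum_empty]; exact hgrM.zero k
  | insert a s ha ih => rw [Finset.sum_insert ha]; exact hgrM.add (h a) ih

section chain

variable {M : Submodule (S n) (Fin 2 → K)} {φ : M2 K} {d k : ℤ}
  {U : Type} [AddCommGroup U] [Module ℂ U] [FiniteDimensional ℂ U]
  (Y : U → Fin (n + 1) → Fin (n + 1) → M2 K)

/-- a linear family of cocycles of degree `k` -/
structure Fam (M : Submodule (S n) (Fin 2 → K)) (k : ℤ)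
    (Y : U → Fin (n + 1) → Fin (n + 1) → M2 K) : Prop where
  add : ∀ u u' i j, Y (u + u') i j = Y u i j + Y u' i j
  smul : ∀ (a : ℂ) u i j, Y (a • u) i j = (C a : S n) • Y u i j
  coc : ∀ u, Coc (A0 M) (Y u)
  hm : ∀ u i j, HmM n k (Y u i j)

theorem Fam.zero {Y : U → Fin (n + 1) → Fin (n + 1) → M2 K} (hY : Fam M k Y) (i j : Fin (n + 1)) :
    Y 0 i j = 0 := by
  have := hY.smul 0 0 i j
  rwa [zero_smul, map_zero, zero_smul] at this

theorem Fam.sum {Y : U → Fin (n + 1) → Fin (n + 1) → M2 K} (hY : Fam M k Y) {ι : Type}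
    (s : Finset ι) (l : ι → ℂ) (f : ι → U) (i j : Fin (n + 1)) :
    Y (∑ a ∈ s, l a • f a) i j = ∑ a ∈ s, (C (l a) : S n) • Y (f a) i j := by
  classical
  induction s using Finset.induction_on with
  | empty => rw [Finset.sum_empty, Finset.sum_empty, hY.zero]
  | insert a s ha ih => rw [Finset.sum_insert ha, Finset.sum_insert ha, hY.add, hY.smul, ih]

/-- the filtration -/
def Wf (φ : M2 K) (d : ℤ) {Y : U → Fin (n + 1) → Fin (n + 1) → M2 K} (hY : Fam M k Y) (m : ℕ) :
    Submodule ℂ U where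
  carrier := {u | ∃ Z : Fin (n + 1) → Fin (n + 1) → M2 K, Coc (A0 M) Z ∧
    (∀ i j, HmM n (k - m * d) (Z i j)) ∧ Cob (A0 M) (fun i j => Y u i j - (br φ)^[m] (Z i j))}
  zero_mem' := ⟨0, ⟨fun i j => Submodule.zero_mem _, fun i j k => by simp⟩,
    fun i j => hgrM.zero _, 0, fun i => Submodule.zero_mem _, fun i j => by
      show Y 0 i j - (br φ)^[m] 0 = _
      rw [hY.zero, bn_zero]; simp⟩
  add_mem' := by
    rintro u u' ⟨Z, h1, h2, h3⟩ ⟨Z', h1', h2', h3'⟩
    refine ⟨fun i j => Z i j + Z' i j, ⟨fun i j => Submodule.add_mem _ (h1.1 i j) (h1'.1 i j),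
      fun i j k => ?_⟩, fun i j => hgrM.add (h2 i j) (h2' i j), (h3.add h3').congr fun i j => ?_⟩
    · show Z i j + Z' i j + (Z j k + Z' j k) = Z i k + Z' i k
      rw [← h1.2 i j k, ← h1'.2 i j k]; abel
    · rw [hY.add, bn_add]; abel
  smul_mem' := by
    rintro a u ⟨Z, h1, h2, h3⟩
    refine ⟨fun i j => (C a : S n) • Z i j, ⟨fun i j => Submodule.smul_mem _ _ (h1.1 i j),
      fun i j k => ?_⟩, fun i j => C_smul_hm a (h2 i j), (h3.smul (C a)).congr fun i j => ?_⟩
    · show (C a : S n) • Z i j + (C a : S n) • Z j k = (C a : S n) • Z i k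
      rw [← smul_add, h1.2]
    · rw [hY.smul, bn_smul, smul_sub]

theorem Tw.step (hn : 3 ≤ n) (h : Tw M φ d) {Y : U → Fin (n + 1) → Fin (n + 1) → M2 K}
    (hY : Fam M k Y) (m : ℕ) {c : ℕ} (hc : H1K M φ (k + d - m * d) c) :
    Module.finrank ℂ (Wf φ d hY m) ≤ Module.finrank ℂ (Wf φ d hY (m + 1)) + c := by
  refine codim_le fun f hf => ?_
  choose Z hZ hZh hZc using hf
  choose t h1 h2 h3 h4 using fun a => h.ob (by omega : 2 ≤ n) (hZ a) (hZh a)
  have ek : k - (m : ℤ) * d + d = k + d - m * d := by ring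
  obtain ⟨l, hl0, F, hF, hFt⟩ := hc.rel t fun a => ⟨h1 a, by rw [← ek]; exact h2 a, h3 a⟩
  refine ⟨l, hl0, ?_⟩
  let Z' : Fin (n + 1) → Fin (n + 1) → M2 K := fun i j => ∑ a, (C (l a) : S n) • Z a i j
  have hZ' : Coc (A0 M) Z' := Coc.sum Finset.univ hZ fun a => C (l a)
  have hZh' : ∀ i j, HmM n (k - m * d) (Z' i j) := fun i j =>
    HmM.sum _ fun a => C_smul_hm (l a) (hZh a i j)
  obtain ⟨X, hX, hXh, hXc⟩ := h.Tcore hn hZ' hZh'
    (t := fun i => ∑ a, algebraMap (S n) K (C (l a)) * t a i) (fun i => by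
      refine Hm.sum _ fun a _ => ?_
      have := (Hm.of_homZ (K := K)
        (Or.inr ⟨0, rfl, isHomogeneous_C _ (l a)⟩ : HomZ (C (l a) : S n) ((0 : ℕ) : ℤ))).mul (h2 a i)
      simpa using this) (fun i j => by
      show (φ * ∑ a, (C (l a) : S n) • Z a i j).trace = _
      rw [Matrix.mul_sum, trace_sum, ← Finset.sum_sub_distrib]
      refine Finset.sum_congr rfl fun a _ => ?_
      rw [Matrix.mul_smul, trace_smul, h4, Algebra.smul_def]; ring)
    (F := F) (by rw [ek]; exact hF) hFt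
  refine ⟨X, hX, fun i j => ?_, ?_⟩
  · have := hXh i j
    rwa [show k - (m : ℤ) * d - d = k - ((m + 1 : ℕ) : ℤ) * d by push_cast; ring] at this
  · have e1 : Cob (A0 M) (fun i j => ∑ a, (C (l a) : S n) • (Y (f a) i j - (br φ)^[m] (Z a i j))) :=
      Cob.sum Finset.univ fun a => (hZc a).smul (C (l a))
    refine (e1.add (hXc.bn h m)).congr fun i j => ?_
    rw [hY.sum, bn_sub, ← Function.iterate_succ_apply]
    show ∑ a, (C (l a) : S n) • (Y (f a) i j - (br φ)^[m] (Z a i j)) +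
      ((br φ)^[m] (∑ a, (C (l a) : S n) • Z a i j) - _) = _
    rw [bn_sum]
    simp only [smul_sub, Finset.sum_sub_distrib, bn_smul]
    abel

/-- the dimension count -/
theorem Tw.chain (hn : 3 ≤ n) (h : Tw M φ d) {Y : U → Fin (n + 1) → Fin (n + 1) → M2 K}
    (hY : Fam M k Y) (c : ℕ → ℕ) (hc : ∀ j : ℕ, H1K M φ (k + d - j * d) (c j)) :
    ∃ (m : ℕ) (W : Submodule ℂ U), Module.finrank ℂ U ≤ Module.finrank ℂ W +
      ∑ j ∈ Finset.range m, c j ∧ ∀ u ∈ W, Cob (A0 M) (Y u) := by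
  obtain ⟨m, hm⟩ := h.nilp (by omega)
  refine ⟨2 * m, Wf φ d hY (2 * m), ?_, ?_⟩
  · have key : ∀ p : ℕ, Module.finrank ℂ U ≤ Module.finrank ℂ (Wf φ d hY p) +
        ∑ j ∈ Finset.range p, c j := by
      intro p
      induction p with
      | zero =>
        have : Wf φ d hY 0 = ⊤ := by
          refine eq_top_iff.2 fun u _ => ⟨Y u, hY.coc u, fun i j => by simpa using hY.hm u i j,
            0, fun i => Submodule.zero_mem _, fun i j => by simp⟩
        rw [this, finrank_top]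
        omega
      | succ p ih =>
        have := h.step hn hY p (hc p)
        rw [Finset.sum_range_succ]
        omega
    exact key _
  · rintro u ⟨Z, hZ, -, hc⟩
    refine (hc.add (hm Z hZ)).congr fun i j => ?_
    abel

end chain

end Pool.Agent.K6.H64.VB
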