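import Pool.Agent.K6.H64.VB.Cech2

/-!
# Twisted endomorphisms and the first cohomology of the endomorphism bundle (helper64)

`M` is the module of sections of a bundle of rank two on `P^n`, as a submodule of `K ^ 2`.
-/

set_option autoImplicit false
set_option linter.all false

open MvPolynomial H960VB Matrix

namespace Pool.Agent.K6.H64.VB

variable {n : ℕ} {K : Type} [Field K] [Algebra (S n) K] [IsFractionRing (S n) K]

/-- two by two matrices over `K` -/
abbrev M2 (K : Type) := Matrix (Fin 2) (Fin 2) K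

/-- vectors of polynomials in `K ^ 2` -/
noncomputable def pv (K : Type) [Field K] [Algebra (S n) K] (p : Fin 2 → S n) : Fin 2 → K :=
  fun i => algebraMap (S n) K (p i)

/-- matrices of polynomials -/
noncomputable def pm (K : Type) [Field K] [Algebra (S n) K] (X : Matrix (Fin 2) (Fin 2) (S n)) :
    M2 K := X.map (algebraMap (S n) K)

/-- the trace free endomorphisms of `M` -/
noncomputable def A0 (M : Submodule (S n) (Fin 2 → K)) : Submodule (S n) (M2 K) where
  carrier := {X | X.trace = 0 ∧ ∀ v ∈ M, X.mulVec v ∈ M}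
  zero_mem' := ⟨by simp, fun v _ => by rw [zero_mulVec]; exact M.zero_mem⟩
  add_mem' := by
    rintro a b ⟨ha, ha'⟩ ⟨hb, hb'⟩
    exact ⟨by rw [trace_add, ha, hb, add_zero], fun v hv => by
      rw [add_mulVec]; exact M.add_mem (ha' v hv) (hb' v hv)⟩
  smul_mem' := by
    rintro c a ⟨ha, ha'⟩
    exact ⟨by rw [trace_smul, ha, smul_zero], fun v hv => by
      rw [smul_mulVec]; exact M.smul_mem _ (ha' v hv)⟩

theorem mem_A0 {M : Submodule (S n) (Fin 2 → K)} {X : M2 K} :
    X ∈ A0 M ↔ X.trace = 0 ∧ ∀ v ∈ M, X.mulVec v ∈ M := Iff.rfl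

/-- a local basis of `M` at the point `x` -/
def IsChart (M : Submodule (S n) (Fin 2 → K)) (x : Fin (n + 1) → ℂ) (P : M2 K) (g : S n) : Prop :=
  P.det ≠ 0 ∧ eval x g ≠ 0 ∧ (∀ p : Fin 2 → S n, P.mulVec (pv K p) ∈ M) ∧
    ∀ v ∈ M, ∃ p : Fin 2 → S n, g • v = P.mulVec (pv K p)

theorem smul_eq_am (g : S n) {V : Type*} [AddCommGroup V] [Module K V] [Module (S n) V]
    [IsScalarTower (S n) K V] (v : V) : g • v = algebraMap (S n) K g • v := by
  rw [algebraMap_smul]

theorem chart_end {M : Submodule (S n) (Fin 2 → K)} {x : Fin (n + 1) → ℂ} {P : M2 K} {g : S n}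
    (hP : IsChart M x P g) {X : M2 K} (hX : ∀ v ∈ M, X.mulVec v ∈ M) :
    ∃ X' : Matrix (Fin 2) (Fin 2) (S n), g • (X * P) = P * pm K X' := by
  obtain ⟨h1, h2, h3, h4⟩ := hP
  have h5 : ∀ j : Fin 2, ∃ p : Fin 2 → S n, g • (X.mulVec fun i => P i j) = P.mulVec (pv K p) := by
    intro j
    refine h4 _ (hX _ ?_)
    have := h3 (Pi.single j 1)
    have e : P.mulVec (pv K (Pi.single j (1 : S n))) = fun i => P i j := by
      have e2 : pv K (Pi.single j (1 : S n)) = Pi.single j (1 : K) := by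
        funext i
        unfold pv
        by_cases hij : i = j
        · subst hij; rw [Pi.single_eq_same, Pi.single_eq_same, map_one]
        · rw [Pi.single_eq_of_ne hij, Pi.single_eq_of_ne hij, map_zero]
      rw [e2, mulVec_single_one]
      rfl
    rwa [e] at this
  choose p hp using h5
  refine ⟨fun i j => p j i, ?_⟩
  ext i j
  have := congrFun (hp j) i
  change g • (∑ k, X i k * P k j) = ∑ k, P i k * algebraMap (S n) K (p j k) at this
  change g • (∑ k, X i k * P k j) = ∑ k, P i k * algebraMap (S n) K (p j k)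
  exact this

theorem end_chart {M : Submodule (S n) (Fin 2 → K)} {x : Fin (n + 1) → ℂ} {P : M2 K} {g : S n}
    (hP : IsChart M x P g) (X' : Matrix (Fin 2) (Fin 2) (S n)) :
    ∀ v ∈ M, (g • (P * pm K X' * P⁻¹)).mulVec v ∈ M := by
  obtain ⟨h1, h2, h3, h4⟩ := hP
  intro v hv
  obtain ⟨p, hp⟩ := h4 v hv
  have hu : IsUnit P.det := isUnit_iff_ne_zero.2 h1
  have : (g • (P * pm K X' * P⁻¹)).mulVec v = P.mulVec (pv K (X'.mulVec p)) := by
    rw [smul_mulVec, ← mulVec_smul, hp, mulVec_mulVec, Matrix.mul_assoc, Matrix.mul_assoc,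
      nonsing_inv_mul _ hu, Matrix.mul_one, ← mulVec_mulVec]
    congr 1
    funext i
    simp [pm, pv, mulVec, dotProduct]
  rw [this]
  exact h3 _

theorem tr_conj {P X : M2 K} (hP : P.det ≠ 0) : (P * X * P⁻¹).trace = X.trace := by
  rw [Matrix.trace_mul_comm, ← Matrix.mul_assoc, nonsing_inv_mul _ (isUnit_iff_ne_zero.2 hP),
    Matrix.one_mul]

theorem pm_trace (X' : Matrix (Fin 2) (Fin 2) (S n)) :
    (pm K X').trace = algebraMap (S n) K X'.trace := by
  simp [pm, Matrix.trace, Fin.sum_univ_two]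

theorem chart_mem {M : Submodule (S n) (Fin 2 → K)} {x : Fin (n + 1) → ℂ} {P : M2 K} {g : S n}
    (hP : IsChart M x P g) {X' : Matrix (Fin 2) (Fin 2) (S n)} (hX : X'.trace = 0) :
    g • (P * pm K X' * P⁻¹) ∈ A0 M := by
  refine ⟨?_, end_chart hP X'⟩
  rw [trace_smul, tr_conj hP.1, pm_trace, hX, map_zero, smul_zero]

/-- the matrix in the chart -/
theorem chart_eq {M : Submodule (S n) (Fin 2 → K)} {x : Fin (n + 1) → ℂ} {P : M2 K} {g : S n}
    (hP : IsChart M x P g) {X : M2 K} {X' : Matrix (Fin 2) (Fin 2) (S n)}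
    (h : g • (X * P) = P * pm K X') : g • X = P * pm K X' * P⁻¹ := by
  rw [← h, smul_mul, Matrix.mul_assoc, mul_nonsing_inv _ (isUnit_iff_ne_zero.2 hP.1),
    Matrix.mul_one]

theorem am_eval_ne {x : Fin (n + 1) → ℂ} {g : S n} (h : eval x g ≠ 0) : g ≠ 0 := by
  rintro rfl
  exact h (map_zero _)

theorem chart_trace {M : Submodule (S n) (Fin 2 → K)} {x : Fin (n + 1) → ℂ} {P : M2 K} {g : S n}
    (hP : IsChart M x P g) {X : M2 K} {X' : Matrix (Fin 2) (Fin 2) (S n)}
    (h : g • (X * P) = P * pm K X') (hX : X.trace = 0) : X'.trace = 0 := by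
  have h1 := congrArg Matrix.trace (chart_eq hP h)
  rw [trace_smul, hX, smul_zero, tr_conj hP.1, pm_trace] at h1
  apply am_inj (K := K)
  rw [← h1, map_zero]

/-- cocycles with values in `W` -/
def Coc {V : Type*} [AddCommGroup V] [Module (S n) V] (W : Submodule (S n) V)
    (w : Fin (n + 1) → Fin (n + 1) → V) : Prop :=
  (∀ i j, w i j ∈ locI {i, j} W) ∧ ∀ i j k, w i j + w j k = w i k

/-- coboundaries with values in `W` -/
def Cob {V : Type*} [AddCommGroup V] [Module (S n) V] (W : Submodule (S n) V)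
    (w : Fin (n + 1) → Fin (n + 1) → V) : Prop :=
  ∃ s : Fin (n + 1) → V, (∀ i, s i ∈ locI {i} W) ∧ ∀ i j, w i j = s j - s i

section coc

variable {V : Type*} [AddCommGroup V] [Module (S n) V] {W : Submodule (S n) V}

theorem Cob.add {w w' : Fin (n + 1) → Fin (n + 1) → V} (h : Cob W w) (h' : Cob W w') :
    Cob W (fun i j => w i j + w' i j) := by
  obtain ⟨s, hs, hs'⟩ := h
  obtain ⟨t, ht, ht'⟩ := h'
  exact ⟨fun i => s i + t i, fun i => Submodule.add_mem _ (hs i) (ht i), fun i j => by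
    show w i j + w' i j = (s j + t j) - (s i + t i)
    rw [hs', ht']; abel⟩

theorem Cob.smul {w : Fin (n + 1) → Fin (n + 1) → V} (h : Cob W w) (g : S n) :
    Cob W (fun i j => g • w i j) := by
  obtain ⟨s, hs, hs'⟩ := h
  exact ⟨fun i => g • s i, fun i => Submodule.smul_mem _ _ (hs i), fun i j => by
    show g • w i j = g • s j - g • s i
    rw [hs', smul_sub]⟩

theorem Cob.congr {w w' : Fin (n + 1) → Fin (n + 1) → V} (h : Cob W w)
    (he : ∀ i j, w i j = w' i j) : Cob W w' := by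
  have : w = w' := by funext i j; exact he i j
  rwa [← this]

theorem Coc.sub {w w' : Fin (n + 1) → Fin (n + 1) → V} (h : Coc W w) (h' : Coc W w') :
    Coc W (fun i j => w i j - w' i j) :=
  ⟨fun i j => Submodule.sub_mem _ (h.1 i j) (h'.1 i j), fun i j k => by
    show w i j - w' i j + (w j k - w' j k) = w i k - w' i k
    rw [← h.2 i j k, ← h'.2 i j k]; abel⟩

end coc

/-- the first cohomology of `A0 M` is annihilated by an ideal -/
def annI (M : Submodule (S n) (Fin 2 → K)) : Ideal (S n) where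
  carrier := {h | ∀ w, Coc (A0 M) w → Cob (A0 M) (fun i j => h • w i j)}
  zero_mem' := fun w hw => ⟨0, fun i => Submodule.zero_mem _, fun i j => by simp⟩
  add_mem' := fun {a b} ha hb w hw => ((ha w hw).add (hb w hw)).congr fun i j => by
    rw [add_smul]
  smul_mem' := fun c a ha w hw => ((ha w hw).smul c).congr fun i j => by
    rw [smul_eq_mul, mul_smul]

theorem mem_annI_of_chart (hn : 2 ≤ n) {M : Submodule (S n) (Fin 2 → K)} {x : Fin (n + 1) → ℂ}
    {P : M2 K} {g : S n} (hP : IsChart M x P g) : g * g ∈ annI M := by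
  intro w hw
  have hu : IsUnit P.det := isUnit_iff_ne_zero.2 hP.1
  -- the cocycle in the chart
  let u : Fin (n + 1) → Fin (n + 1) → M2 K := fun i j => g • (P⁻¹ * w i j * P)
  have hu1 : ∀ i j, ∃ N : ℕ, ∃ W' : Matrix (Fin 2) (Fin 2) (S n), W'.trace = 0 ∧
      xp {i, j} ^ N • u i j = pm K W' := by
    intro i j
    obtain ⟨N, hN⟩ := hw.1 i j
    obtain ⟨W', hW'⟩ := chart_end hP hN.2
    refine ⟨N, W', chart_trace hP hW' hN.1, ?_⟩
    have h1 : P⁻¹ * (g • ((xp {i, j} ^ N • w i j) * P)) = pm K W' := by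
      rw [hW', ← Matrix.mul_assoc, nonsing_inv_mul _ hu, Matrix.one_mul]
    rw [← h1]
    show xp {i, j} ^ N • (g • (P⁻¹ * w i j * P)) = _
    rw [smul_mul, Matrix.mul_smul, Matrix.mul_smul, smul_comm, Matrix.mul_assoc]
  have hu2 : ∀ i j a b, u i j a b ∈ locI {i, j} (O (n := n) K) := by
    intro i j a b
    obtain ⟨N, W', _, h⟩ := hu1 i j
    refine ⟨N, W' a b, ?_⟩
    have := congrFun (congrFun h a) b
    exact this.symm
  have hu3 : ∀ i j, u i j 1 1 = - u i j 0 0 := by
    intro i j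
    have h1 : (w i j).trace = 0 := by
      obtain ⟨N, hN⟩ := hw.1 i j
      have h2 := hN.1
      rw [trace_smul, smul_eq_am (K := K), smul_eq_mul] at h2
      exact (mul_eq_zero.1 h2).resolve_left (am_ne (pow_ne_zero _ (xp_ne_zero _)))
    have h2 : (u i j).trace = 0 := by
      show (g • (P⁻¹ * w i j * P)).trace = 0
      rw [trace_smul, Matrix.trace_mul_comm, ← Matrix.mul_assoc, mul_nonsing_inv _ hu,
        Matrix.one_mul, h1, smul_zero]
    rw [Matrix.trace, Fin.sum_univ_two] at h2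
    exact eq_neg_of_add_eq_zero_right h2
  have hu4 : ∀ i j k, u i j + u j k = u i k := by
    intro i j k
    show g • (P⁻¹ * w i j * P) + g • (P⁻¹ * w j k * P) = g • (P⁻¹ * w i k * P)
    rw [← hw.2 i j k, Matrix.mul_add, Matrix.add_mul, smul_add]
  have hu5 : ∀ a b i j k, u i j a b + u j k a b = u i k a b := fun a b i j k => by
    rw [← hu4 i j k]; rfl
  obtain ⟨α, hα, hα', -⟩ := h1S (K := K) hn (fun i j => hu2 i j 0 0) (hu5 0 0)
  obtain ⟨β, hβ, hβ', -⟩ := h1S (K := K) hn (fun i j => hu2 i j 0 1) (hu5 0 1)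
  obtain ⟨γ, hγ, hγ', -⟩ := h1S (K := K) hn (fun i j => hu2 i j 1 0) (hu5 1 0)
  let s : Fin (n + 1) → M2 K := fun i => !![α i, β i; γ i, - α i]
  have hs : ∀ i j, u i j = s j - s i := by
    intro i j
    ext a b
    fin_cases a <;> fin_cases b
    · simpa [s] using hα' i j
    · simpa [s] using hβ' i j
    · simpa [s] using hγ' i j
    · have := hu3 i j
      rw [hα'] at this
      simp only [s, Fin.mk_one, Matrix.sub_apply]
      rw [this]
      simp
      ring
  refine ⟨fun i => g • (P * s i * P⁻¹), fun i => ?_, fun i j => ?_⟩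
  · obtain ⟨N1, h1⟩ := hα i
    obtain ⟨N2, h2⟩ := hβ i
    obtain ⟨N3, h3⟩ := hγ i
    obtain ⟨p1, hp1⟩ := mem_O.1 (locI_up h1 (Nat.le_add_right N1 (N2 + N3)))
    obtain ⟨p2, hp2⟩ := mem_O.1 (locI_up h2 (show N2 ≤ N1 + (N2 + N3) by omega))
    obtain ⟨p3, hp3⟩ := mem_O.1 (locI_up h3 (show N3 ≤ N1 + (N2 + N3) by omega))
    refine ⟨N1 + (N2 + N3), ?_⟩
    have h5 : xp {i} ^ (N1 + (N2 + N3)) • s i = pm K !![p1, p2; p3, -p1] := by
      ext a b
      fin_cases a <;> fin_cases b
      · simpa [s, pm] using hp1.symm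
      · simpa [s, pm] using hp2.symm
      · simpa [s, pm] using hp3.symm
      · simp [s, pm, hp1]
    have h4 : xp {i} ^ (N1 + (N2 + N3)) • (g • (P * s i * P⁻¹)) =
        g • (P * pm K !![p1, p2; p3, -p1] * P⁻¹) := by
      rw [smul_comm, ← h5, Matrix.mul_smul, smul_mul]
    rw [h4]
    exact chart_mem hP (by simp [Matrix.trace, Fin.sum_univ_two])
  · show (g * g) • w i j = g • (P * s j * P⁻¹) - g • (P * s i * P⁻¹)
    rw [← smul_sub, ← Matrix.sub_mul, ← Matrix.mul_sub, ← hs, mul_smul]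
    congr 1
    show g • w i j = P * (g • (P⁻¹ * w i j * P)) * P⁻¹
    rw [Matrix.mul_smul, smul_mul, Matrix.mul_assoc, Matrix.mul_assoc, Matrix.mul_assoc,
      mul_nonsing_inv _ hu, Matrix.mul_one, ← Matrix.mul_assoc, mul_nonsing_inv _ hu, Matrix.one_mul]

end Pool.Agent.K6.H64.VB
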