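import Pool.Agent.K6.H64.VB.Geo2

/-! The Koszul complex of a twisted endomorphism, globally (helper64). -/

set_option autoImplicit false
set_option linter.all false

open MvPolynomial H960VB Matrix

namespace Pool.Agent.K6.H64.VB

variable {n : ℕ} {K : Type} [Field K] [Algebra (S n) K] [IsFractionRing (S n) K]

/-- the values `tr (φ Y)` -/
noncomputable def JK (M : Submodule (S n) (Fin 2 → K)) (φ : M2 K) : Submodule (S n) K where
  carrier := {q | ∃ Y ∈ A0 M, (φ * Y).trace = q}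
  zero_mem' := ⟨0, Submodule.zero_mem _, by simp⟩
  add_mem' := by
    rintro a b ⟨Y, hY, rfl⟩ ⟨Z, hZ, rfl⟩
    exact ⟨Y + Z, Submodule.add_mem _ hY hZ, by rw [Matrix.mul_add, trace_add]⟩
  smul_mem' := by
    rintro c a ⟨Y, hY, rfl⟩
    exact ⟨c • Y, Submodule.smul_mem _ _ hY, by rw [Matrix.mul_smul, trace_smul]⟩

theorem mem_JK {M : Submodule (S n) (Fin 2 → K)} {φ : M2 K} {q : K} :
    q ∈ JK M φ ↔ ∃ Y ∈ A0 M, (φ * Y).trace = q := Iff.rfl

/-- the data of a twisted endomorphism -/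
structure Tw (M : Submodule (S n) (Fin 2 → K)) (φ : M2 K) (d : ℤ) : Prop where
  geo : Geo M
  tr : φ.trace = 0
  pres : ∀ v ∈ M, φ.mulVec v ∈ M
  ne : φ ≠ 0
  hm : HmM n d φ
  pos : 0 < d
  chart : ∀ x : Fin (n + 1) → ℂ, x ≠ 0 → ∃ (P : M2 K) (g a b c : S n), IsChart M x P g ∧
    g • (φ * P) = P * pm K !![a, c; b, -a] ∧ Reg3 x a b c

theorem mem_locI_of_smul {V : Type*} [AddCommGroup V] [Module K V] [Module (S n) V]
    [IsScalarTower (S n) K V] {W : Submodule (S n) V} {I : Finset (Fin (n + 1))} {v : V}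
    (hv : v ∈ W) (N : ℕ) : (algebraMap (S n) K (xp I ^ N))⁻¹ • v ∈ locI I W := by
  refine ⟨N, ?_⟩
  rw [smul_eq_am (K := K), smul_inv_smul₀ (am_ne (pow_ne_zero _ (xp_ne_zero _)))]
  exact hv

theorem Tw.mem {M : Submodule (S n) (Fin 2 → K)} {φ : M2 K} {d : ℤ} (h : Tw M φ d) : φ ∈ A0 M :=
  ⟨h.tr, h.pres⟩

theorem smul_mem_locI {V : Type*} [AddCommGroup V] [Module K V] [Module (S n) V]
    [IsScalarTower (S n) K V] {W : Submodule (S n) V} {I : Finset (Fin (n + 1))} {c : K} {v : V}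
    (hc : c ∈ locI I (O (n := n) K)) (hv : v ∈ W) : c • v ∈ locI I W := by
  obtain ⟨N, p, hp⟩ := hc
  refine ⟨N, ?_⟩
  change algebraMap (S n) K p = _ at hp
  rw [← smul_assoc, ← hp, algebraMap_smul]
  exact W.smul_mem _ hv

theorem pm_mul (A B : Matrix (Fin 2) (Fin 2) (S n)) : pm K (A * B) = pm K A * pm K B := by
  unfold pm
  rw [Matrix.map_mul]

theorem pm_sub (A B : Matrix (Fin 2) (Fin 2) (S n)) : pm K (A - B) = pm K A - pm K B := by
  refine Matrix.ext fun i j => ?_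
  simp [pm]

theorem pm_smul (k : S n) (A : Matrix (Fin 2) (Fin 2) (S n)) : pm K (k • A) = k • pm K A := by
  refine Matrix.ext fun i j => ?_
  show algebraMap (S n) K (k * A i j) = k • algebraMap (S n) K (A i j)
  rw [map_mul, Algebra.smul_def]

theorem pm_br (A B : Matrix (Fin 2) (Fin 2) (S n)) : pm K (br A B) = br (pm K A) (pm K B) := by
  unfold br
  rw [pm_sub, pm_mul, pm_mul]

theorem pm_inj {A B : Matrix (Fin 2) (Fin 2) (S n)} (h : pm K A = pm K B) : A = B := by
  refine Matrix.ext fun i j => ?_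
  exact am_inj (K := K) (congrFun (congrFun h i) j)

theorem mem_locI_iff_of_le {V : Type*} [AddCommGroup V] [Module K V] [Module (S n) V]
    [IsScalarTower (S n) K V] {W : Submodule (S n) V} {I : Finset (Fin (n + 1))} {v : V} (N : ℕ)
    (h : xp I ^ N • v ∈ locI I W) : v ∈ locI I W := by
  obtain ⟨M, hM⟩ := h
  refine ⟨M + N, ?_⟩
  rwa [pow_add, mul_smul]

/-- exactness of the Koszul complex at `A0` -/
theorem Tw.K2 {M : Submodule (S n) (Fin 2 → K)} {φ : M2 K} {d : ℤ} (h : Tw M φ d)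
    {I : Finset (Fin (n + 1))} (hI : I.Nonempty) {Y : M2 K} (hY : Y ∈ locI I (A0 M))
    (h0 : (φ * Y).trace = 0) : ∃ X ∈ locI I (A0 M), br φ X = Y := by
  obtain ⟨N, hN⟩ := hY
  let Y' : M2 K := xp I ^ N • Y
  have hY' : Y' ∈ A0 M := hN
  have h0' : (φ * Y').trace = 0 := by
    show (φ * (xp I ^ N • Y)).trace = 0
    rw [Matrix.mul_smul, trace_smul, h0, smul_zero]
  let 𝔞 : Ideal (S n) := {
    carrier := {f | ∃ X ∈ A0 M, br φ X = f • Y'}
    zero_mem' := ⟨0, Submodule.zero_mem _, by simp [br]⟩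
    add_mem' := by
      rintro a b ⟨X, hX, e⟩ ⟨X', hX', e'⟩
      exact ⟨X + X', Submodule.add_mem _ hX hX', by rw [br_add, e, e', add_smul]⟩
    smul_mem' := by
      rintro c a ⟨X, hX, e⟩
      exact ⟨c • X, Submodule.smul_mem _ _ hX, by rw [br_smul, e, smul_eq_mul, mul_smul]⟩ }
  have ha : ∀ x : Fin (n + 1) → ℂ, x ≠ 0 → ∃ g ∈ 𝔞, eval x g ≠ 0 := by
    intro x hx
    obtain ⟨P, g, a, b, c, hP, hφ, hr⟩ := h.chart x hx
    obtain ⟨Y1, hY1⟩ := chart_end hP hY'.2
    have hu : IsUnit P.det := isUnit_iff_ne_zero.2 hP.1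
    have e1 := chart_eq hP hφ
    have e2 := chart_eq hP hY1
    have t1 := chart_trace hP hY1 hY'.1
    have t2 : a * (2 * Y1 0 0) + b * Y1 0 1 + c * Y1 1 0 = 0 := by
      have e3 : g • (g • (φ * Y')) = P * pm K (!![a, c; b, -a] * Y1) * P⁻¹ := by
        have e3' : ∀ Z : M2 K, g • (g • (φ * Z)) = (g • φ) * (g • Z) := fun Z => by
          rw [smul_mul, Matrix.mul_smul]
        rw [e3', e1, e2, pm_mul]
        have : P * pm K !![a, c; b, -a] * P⁻¹ * (P * pm K Y1 * P⁻¹) =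
          P * pm K !![a, c; b, -a] * (P⁻¹ * P) * pm K Y1 * P⁻¹ := by
          simp only [Matrix.mul_assoc]
        rw [this, nonsing_inv_mul _ hu, Matrix.mul_one, Matrix.mul_assoc P]
      have e4 := congrArg Matrix.trace e3
      rw [trace_smul, trace_smul, h0', smul_zero, smul_zero, tr_conj hP.1, pm_trace] at e4
      have e5 : (!![a, c; b, -a] * Y1).trace = 0 := by
        apply am_inj (K := K)
        rw [← e4, map_zero]
      have e6 : (!![a, c; b, -a] * Y1).trace = (!![a, c; b, -a] * Y1) 0 0 + (!![a, c; b, -a] * Y1) 1 1 := by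
        rw [Matrix.trace, Fin.sum_univ_two]; rfl
      rw [e6, Matrix.mul_apply, Matrix.mul_apply, Fin.sum_univ_two, Fin.sum_univ_two] at e5
      have e7 := entry_of_trace t1
      simp [e7] at e5
      linear_combination e5
    obtain ⟨k, X1, hk, tX, hX⟩ := koszul_matrix hr t1 t2
    refine ⟨k * g, ⟨g • (P * pm K X1 * P⁻¹), chart_mem hP tX, ?_⟩, ?_⟩
    · have e3 : br φ (g • (P * pm K X1 * P⁻¹)) =
          P * br (pm K !![a, c; b, -a]) (pm K X1) * P⁻¹ := by
        have e4 : br φ (g • (P * pm K X1 * P⁻¹)) =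
            (g • φ) * (P * pm K X1 * P⁻¹) - (P * pm K X1 * P⁻¹) * (g • φ) := by
          unfold br
          rw [Matrix.mul_smul, smul_mul, smul_mul, Matrix.mul_smul]
        rw [e4, e1]
        unfold br
        have e5 : ∀ A B : M2 K, P * A * P⁻¹ * (P * B * P⁻¹) = P * (A * B) * P⁻¹ := by
          intro A B
          have : P * A * P⁻¹ * (P * B * P⁻¹) = P * A * (P⁻¹ * P) * B * P⁻¹ := by
            simp only [Matrix.mul_assoc]
          rw [this, nonsing_inv_mul _ hu, Matrix.mul_one, Matrix.mul_assoc P]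
        rw [e5, e5, ← Matrix.sub_mul, ← Matrix.mul_sub]
      rw [e3, ← pm_br, hX, pm_smul, Matrix.mul_smul, smul_mul, ← e2, mul_smul]
    · rw [map_mul]; exact mul_ne_zero hk hP.2.1
  obtain ⟨N', X, hX, e⟩ := xp_pow_mem ha hI
  refine ⟨(algebraMap (S n) K (xp I ^ (N' + N)))⁻¹ • X, mem_locI_of_smul hX _, ?_⟩
  have e2 : br φ ((algebraMap (S n) K (xp I ^ (N' + N)))⁻¹ • X) =
      (algebraMap (S n) K (xp I ^ (N' + N)))⁻¹ • br φ X := by
    unfold br; rw [Matrix.mul_smul, smul_mul, smul_sub]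
  rw [e2, e]
  show _ • (xp I ^ N' • (xp I ^ N • Y)) = Y
  rw [← mul_smul, ← pow_add, smul_eq_am (K := K), inv_smul_smul₀]
  exact am_ne (pow_ne_zero _ (xp_ne_zero _))

theorem two_ne (n : ℕ) (K : Type) [Field K] [Algebra (S n) K] [IsFractionRing (S n) K] :
    (2 : K) ≠ 0 := by
  have h : algebraMap (S n) K 2 ≠ 0 := am_ne (by norm_num)
  rwa [map_ofNat] at h

/-- the centralizer of the twisted endomorphism -/
theorem Tw.K1 {M : Submodule (S n) (Fin 2 → K)} {φ : M2 K} {d : ℤ} (h : Tw M φ d)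
    {I : Finset (Fin (n + 1))} (hI : I.Nonempty) {X : M2 K} (hX : X ∈ locI I (A0 M))
    (h0 : br φ X = 0) : ∃ c ∈ locI I (O (n := n) K), X = c • φ := by
  have htr : X.trace = 0 := by
    obtain ⟨N, hN⟩ := hX
    have := hN.1
    rw [trace_smul, smul_eq_am (K := K), smul_eq_mul] at this
    exact (mul_eq_zero.1 this).resolve_left (am_ne (pow_ne_zero _ (xp_ne_zero _)))
  obtain ⟨c, hc⟩ := centralizer (two_ne n K) h.tr htr h.ne h0
  refine ⟨c, ?_, hc⟩
  obtain ⟨N, hN⟩ := hX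
  let X' : M2 K := xp I ^ N • X
  have hX' : X' ∈ A0 M := hN
  let c' : K := xp I ^ N • c
  have hc' : X' = c' • φ := by
    show xp I ^ N • X = (xp I ^ N • c) • φ
    rw [hc, smul_assoc]
  let 𝔟 : Ideal (S n) := {
    carrier := {f | f • c' ∈ O (n := n) K}
    zero_mem' := by
      show (0 : S n) • c' ∈ O (n := n) K
      rw [zero_smul]; exact Submodule.zero_mem _
    add_mem' := by
      intro a b ha hb
      show (a + b) • c' ∈ O (n := n) K
      rw [add_smul]; exact Submodule.add_mem _ ha hb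
    smul_mem' := by
      intro r a ha
      show (r • a) • c' ∈ O (n := n) K
      rw [smul_eq_mul, mul_smul]; exact Submodule.smul_mem _ _ ha }
  have hb : ∀ x : Fin (n + 1) → ℂ, x ≠ 0 → ∃ g ∈ 𝔟, eval x g ≠ 0 := by
    intro x hx
    obtain ⟨P, g, a, b, c1, hP, hφ, hr⟩ := h.chart x hx
    obtain ⟨X1, hX1⟩ := chart_end hP hX'.2
    have hu : IsUnit P.det := isUnit_iff_ne_zero.2 hP.1
    have e1 : pm K X1 = c' • pm K !![a, c1; b, -a] := by
      have e2 : P * pm K X1 = P * (c' • pm K !![a, c1; b, -a]) := by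
        rw [← hX1, hc', Matrix.mul_smul, ← hφ, smul_mul, smul_comm]
      have e3 := congrArg (fun Z => P⁻¹ * Z) e2
      simp only [← Matrix.mul_assoc, nonsing_inv_mul _ hu, Matrix.one_mul] at e3
      exact e3
    have p1 : algebraMap (S n) K (X1 0 0) = c' * algebraMap (S n) K a := by
      have := congrFun (congrFun e1 0) 0
      simpa [pm] using this
    have p2 : algebraMap (S n) K (X1 1 0) = c' * algebraMap (S n) K b := by
      have := congrFun (congrFun e1 1) 0
      simpa [pm] using this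
    have p3 : algebraMap (S n) K (X1 0 1) = c' * algebraMap (S n) K c1 := by
      have := congrFun (congrFun e1 0) 1
      simpa [pm] using this
    rcases hr with (ha | hb | hc) | ⟨ha, hb, -⟩
    · exact ⟨a, ⟨X1 0 0, by
        show algebraMap (S n) K (X1 0 0) = a • c'
        rw [p1, Algebra.smul_def, mul_comm]⟩, ha⟩
    · exact ⟨b, ⟨X1 1 0, by
        show algebraMap (S n) K (X1 1 0) = b • c'
        rw [p2, Algebra.smul_def, mul_comm]⟩, hb⟩
    · exact ⟨c1, ⟨X1 0 1, by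
        show algebraMap (S n) K (X1 0 1) = c1 • c'
        rw [p3, Algebra.smul_def, mul_comm]⟩, hc⟩
    · obtain ⟨f, hf, hf'⟩ := hb (X1 0 0) ⟨1, by simp, by
        rw [one_mul, Ideal.mem_span_singleton']
        refine ⟨X1 1 0, am_inj (K := K) ?_⟩
        rw [map_mul, map_mul, p1, p2]; ring⟩
      obtain ⟨r, hr⟩ := Ideal.mem_span_singleton'.1 hf'
      refine ⟨f, ⟨r, ?_⟩, hf⟩
      show algebraMap (S n) K r = f • c'
      have e4 : algebraMap (S n) K a ≠ 0 := am_ne ha
      apply mul_right_cancel₀ e4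
      have e5 := congrArg (algebraMap (S n) K) hr
      rw [map_mul, map_mul, p1] at e5
      rw [e5, Algebra.smul_def]; ring
  obtain ⟨N', hN'⟩ := xp_pow_mem hb hI
  refine ⟨N' + N, ?_⟩
  rw [pow_add, mul_smul]
  exact hN'

end Pool.Agent.K6.H64.VB
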