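import Pool.Agent.K6.H64.VB.Core2
import Pool.Agent.H960R2.VB.Glob

/-! The first cohomology of the trace free endomorphisms (helper64). -/

set_option autoImplicit false
set_option linter.all false

open MvPolynomial H960VB Matrix

namespace Pool.Agent.K6.H64.VB

variable {n : ℕ} {K : Type} [Field K] [Algebra (S n) K] [IsFractionRing (S n) K]

/-- every section of degree `k` of the structure sheaf of the zero scheme lifts to a form -/
def Cpl (M : Submodule (S n) (Fin 2 → K)) (φ : M2 K) (k : ℤ) : Prop :=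
  ∀ t : Fin (n + 1) → K, (∀ i, t i ∈ locI {i} (O (n := n) K)) → (∀ i, Hm n k (t i)) →
    (∀ i j, t j - t i ∈ locI {i, j} (JK M φ)) →
    ∃ F : S n, HomZ F k ∧ ∀ i, t i - algebraMap (S n) K F ∈ locI {i} (JK M φ)

theorem Tw.JK_le (hn : 1 ≤ n) {M : Submodule (S n) (Fin 2 → K)} {φ : M2 K} {d : ℤ}
    (h : Tw M φ d) : JK M φ ≤ O (n := n) K := by
  rintro q ⟨Y, hY, rfl⟩
  refine mem_O_of_locI hn fun i => ?_
  let 𝔟 : Ideal (S n) := {
    carrier := {f | f • (φ * Y).trace ∈ O (n := n) K}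
    zero_mem' := by
      show (0 : S n) • (φ * Y).trace ∈ O (n := n) K
      rw [zero_smul]; exact Submodule.zero_mem _
    add_mem' := by
      intro a b ha hb
      show (a + b) • (φ * Y).trace ∈ O (n := n) K
      rw [add_smul]; exact Submodule.add_mem _ ha hb
    smul_mem' := by
      intro r a ha
      show (r • a) • (φ * Y).trace ∈ O (n := n) K
      rw [smul_eq_mul, mul_smul]; exact Submodule.smul_mem _ _ ha }
  refine xp_pow_mem (𝔞 := 𝔟) ?_ (Finset.singleton_nonempty i)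
  intro x hx
  obtain ⟨P, g, hP⟩ := h.geo.chart x hx
  obtain ⟨X', hX'⟩ := chart_end hP (X := φ * Y) fun v hv => by
    rw [← mulVec_mulVec]; exact h.pres _ (hY.2 v hv)
  refine ⟨g, ?_, hP.2.1⟩
  have := congrArg Matrix.trace (chart_eq hP hX')
  rw [trace_smul, tr_conj hP.1, pm_trace] at this
  exact ⟨X'.trace, this.symm⟩

theorem locI_le {V : Type*} [AddCommGroup V] [Module (S n) V] {I : Finset (Fin (n + 1))}
    {W W' : Submodule (S n) V} (h : W ≤ W') : locI I W ≤ locI I W' := by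
  rintro v ⟨N, hN⟩
  exact ⟨N, h hN⟩

/-- the trace form -/
noncomputable def Lt (φ : M2 K) : M2 K →+ K where
  toFun := fun Y => (φ * Y).trace
  map_zero' := by simp
  map_add' := fun Y Z => by rw [Matrix.mul_add, trace_add]

/-- the bracket -/
noncomputable def Lb (φ : M2 K) : M2 K →+ M2 K where
  toFun := fun Y => br φ Y
  map_zero' := by simp [br]
  map_add' := fun Y Z => br_add _ _ _

theorem Tw.tr_loc {M : Submodule (S n) (Fin 2 → K)} {φ : M2 K} {d : ℤ} (h : Tw M φ d)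
    {I : Finset (Fin (n + 1))} {Y : M2 K} (hY : Y ∈ locI I (A0 M)) :
    (φ * Y).trace ∈ locI I (JK M φ) := by
  obtain ⟨N, hN⟩ := hY
  exact ⟨N, _, hN, by rw [Matrix.mul_smul, trace_smul]⟩

theorem hm_tr {φ : M2 K} {d k : ℤ} (hφ : HmM n d φ) {Y : M2 K} (hY : HmM n k Y) :
    Hm n (k + d) (φ * Y).trace := by
  rw [add_comm]
  exact hm_trace (hmM_mul hφ hY)

theorem hm_br {φ : M2 K} {d k : ℤ} (hφ : HmM n d φ) {Y : M2 K} (hY : HmM n k Y) :
    HmM n (k + d) (br φ Y) := by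
  unfold br
  have h1 := hmM_mul hφ hY
  have h2 := hmM_mul hY hφ
  rw [add_comm] at h1
  exact hgrM.sub _ _ _ h1 h2

/-- the obstruction of a cocycle -/
theorem Tw.ob (hn : 2 ≤ n) {M : Submodule (S n) (Fin 2 → K)} {φ : M2 K} {d : ℤ} (h : Tw M φ d)
    {k : ℤ} {Y : Fin (n + 1) → Fin (n + 1) → M2 K} (hY : Coc (A0 M) Y)
    (hYh : ∀ i j, HmM n k (Y i j)) : ∃ t : Fin (n + 1) → K, (∀ i, t i ∈ locI {i} (O (n := n) K)) ∧
      (∀ i, Hm n (k + d) (t i)) ∧ (∀ i j, t j - t i ∈ locI {i, j} (JK M φ)) ∧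
      ∀ i j, (φ * Y i j).trace = t j - t i := by
  obtain ⟨t, ht, ht', hth⟩ := h1S (K := K) hn (t := fun i j => (φ * Y i j).trace)
    (fun i j => locI_le (h.JK_le (by omega)) (h.tr_loc (hY.1 i j)))
    (fun i j k => by rw [← trace_add, ← Matrix.mul_add, hY.2])
  exact ⟨t, ht, hth (k + d) fun i j => hm_tr h.hm (hYh i j),
    fun i j => by rw [← ht']; exact h.tr_loc (hY.1 i j), ht'⟩

/-- the cohomology class of a cocycle comes from the bracket -/
theorem Tw.Tcore (hn : 3 ≤ n) {M : Submodule (S n) (Fin 2 → K)} {φ : M2 K} {d : ℤ} (h : Tw M φ d)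
    {k : ℤ} {Y : Fin (n + 1) → Fin (n + 1) → M2 K} (hY : Coc (A0 M) Y)
    (hYh : ∀ i j, HmM n k (Y i j)) {t : Fin (n + 1) → K}
    (hth' : ∀ i, Hm n (k + d) (t i)) (ht' : ∀ i j, (φ * Y i j).trace = t j - t i)
    {F : S n} (hF : HomZ F (k + d)) (hFt : ∀ i, t i - algebraMap (S n) K F ∈ locI {i} (JK M φ)) :
    ∃ X : Fin (n + 1) → Fin (n + 1) → M2 K, Coc (A0 M) X ∧
      (∀ i j, HmM n (k - d) (X i j)) ∧ Cob (A0 M) (fun i j => Y i j - br φ (X i j)) := by
  classical
  have hV : ∀ i, ∃ V ∈ locI {i} (A0 M), HmM n k V ∧ (φ * V).trace = t i - algebraMap (S n) K F := by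
    intro i
    obtain ⟨N, V0, hV0, e0⟩ := hFt i
    let V1 : M2 K := (algebraMap (S n) K (xp {i} ^ N))⁻¹ • V0
    have hV1 : V1 ∈ locI {i} (A0 M) := mem_locI_of_smul hV0 N
    have e1 : Lt φ V1 = t i - algebraMap (S n) K F := by
      show (φ * ((algebraMap (S n) K (xp {i} ^ N))⁻¹ • V0)).trace = _
      rw [Matrix.mul_smul, trace_smul, e0, smul_eq_am (K := K), inv_smul_smul₀]
      exact am_ne (pow_ne_zero _ (xp_ne_zero _))
    obtain ⟨V, hV, hVh, e2⟩ := (h.geo.grA.loc hgrM {i}).sel hgrM hgrK (L := Lt φ) (d := d)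
      (fun m v hv => hm_tr h.hm hv) hV1 (k := k) (by
        rw [e1]; exact (hth' i).sub (Hm.of_homZ hF))
    exact ⟨V, hV, hVh, by rw [← e1]; exact e2⟩
  choose V hV hVh hVt using hV
  have hY' : ∀ i j, Y i j - (V j - V i) ∈ locI {i, j} (A0 M) := fun i j =>
    Submodule.sub_mem _ (hY.1 i j) (Submodule.sub_mem _
      (locI_mono (by simp) _ (hV j)) (locI_mono (by simp) _ (hV i)))
  have hX : ∀ i j, ∃ X ∈ locI {i, j} (A0 M), HmM n (k - d) X ∧ br φ X = Y i j - (V j - V i) := by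
    intro i j
    obtain ⟨X0, hX0, e0⟩ := h.K2 (by simp) (hY' i j) (by
      rw [Matrix.mul_sub, Matrix.mul_sub, trace_sub, trace_sub, hVt, hVt, ht']; ring)
    obtain ⟨X, hX, hXh, e1⟩ := (h.geo.grA.loc hgrM {i, j}).sel hgrM hgrM (L := Lb φ) (d := d)
      (fun m v hv => hm_br h.hm hv) hX0 (k := k - d) (by
        show HmM n (k - d + d) (br φ X0)
        rw [e0, sub_add_cancel]
        exact hgrM.sub _ _ _ (hYh i j) (hgrM.sub _ _ _ (hVh j) (hVh i)))
    exact ⟨X, hX, hXh, by rw [← e0]; exact e1⟩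
  choose X1 hX1 hX1h hX1b using hX
  have hc : ∀ i j l, ∃ c ∈ locI {i, j, l} (O (n := n) K), X1 i j + X1 j l - X1 i l = c • φ := by
    intro i j l
    refine h.K1 (by simp) ?_ ?_
    · exact Submodule.sub_mem _ (Submodule.add_mem _ (locI_mono (by
        intro a ha; simp only [Finset.mem_insert, Finset.mem_singleton] at ha ⊢; tauto) _ (hX1 i j))
        (locI_mono (by
        intro a ha; simp only [Finset.mem_insert, Finset.mem_singleton] at ha ⊢; tauto) _ (hX1 j l)))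
        (locI_mono (by
        intro a ha; simp only [Finset.mem_insert, Finset.mem_singleton] at ha ⊢; tauto) _ (hX1 i l))
    · rw [br_sub, br_add, hX1b, hX1b, hX1b, ← hY.2 i j l]
      abel
  choose c hc hcφ using hc
  have hch : ∀ i j l, Hm n (k - d - d) (c i j l) := by
    intro i j l
    obtain ⟨a, b, hab⟩ : ∃ a b, φ a b ≠ 0 := by
      by_contra hcon
      push Not at hcon
      exact h.ne (Matrix.ext hcon)
    have e1 : c i j l = (X1 i j + X1 j l - X1 i l) a b * (φ a b)⁻¹ := by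
      rw [hcφ, Matrix.smul_apply, smul_eq_mul, mul_inv_cancel_right₀ hab]
    rw [e1]
    have := (hgrM.sub _ _ _ (hgrM.add (hX1h i j) (hX1h j l)) (hX1h i l) a b).mul (h.hm a b).inv
    rwa [← sub_eq_add_neg] at this
  obtain ⟨b, hb, hb', hbh⟩ := h2S (K := K) hn hc (fun i j l m => by
    have e1 : (c j l m - c i l m + c i j m - c i j l) • φ = 0 := by
      rw [sub_smul, add_smul, sub_smul, ← hcφ, ← hcφ, ← hcφ, ← hcφ]
      abel
    exact (smul_eq_zero.1 e1).resolve_right h.ne)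
  refine ⟨fun i j => X1 i j - b i j • φ, ⟨fun i j => ?_, fun i j l => ?_⟩, fun i j => ?_, ?_⟩
  · exact Submodule.sub_mem _ (hX1 i j) (smul_mem_locI (hb i j) h.mem)
  · show X1 i j - b i j • φ + (X1 j l - b j l • φ) = X1 i l - b i l • φ
    have e1 := hcφ i j l
    rw [hb', add_smul, sub_smul] at e1
    rw [← sub_eq_zero]
    have e2 := sub_eq_zero.2 e1
    rw [← e2]
    abel
  · have := hgrM.smul _ _ _ _ (hbh _ hch i j) h.hm
    rw [sub_add_cancel] at this
    exact hgrM.sub _ _ _ (hX1h i j) this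
  · refine ⟨V, hV, fun i j => ?_⟩
    show Y i j - br φ (X1 i j - b i j • φ) = V j - V i
    have e1 : br φ (b i j • φ) = 0 := by
      unfold br; rw [Matrix.mul_smul, smul_mul, sub_self]
    rw [br_sub, e1, sub_zero, hX1b]
    abel

/-- the cohomology class of a cocycle comes from the bracket -/
theorem Tw.T (hn : 3 ≤ n) {M : Submodule (S n) (Fin 2 → K)} {φ : M2 K} {d : ℤ} (h : Tw M φ d)
    {k : ℤ} (hC : Cpl M φ (k + d)) {Y : Fin (n + 1) → Fin (n + 1) → M2 K} (hY : Coc (A0 M) Y)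
    (hYh : ∀ i j, HmM n k (Y i j)) : ∃ X : Fin (n + 1) → Fin (n + 1) → M2 K, Coc (A0 M) X ∧
      (∀ i j, HmM n (k - d) (X i j)) ∧ Cob (A0 M) (fun i j => Y i j - br φ (X i j)) := by
  obtain ⟨t, h1, h2, h3, h4⟩ := h.ob (by omega) hY hYh
  obtain ⟨F, hF, hFt⟩ := hC t h1 h2 h3
  exact h.Tcore hn hY hYh h2 h4 hF hFt

theorem Tw.br_mem {M : Submodule (S n) (Fin 2 → K)} {φ : M2 K} {d : ℤ} (h : Tw M φ d)
    {I : Finset (Fin (n + 1))} {X : M2 K} (hX : X ∈ locI I (A0 M)) : br φ X ∈ locI I (A0 M) := by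
  obtain ⟨N, hN⟩ := hX
  refine ⟨N, ?_, fun v hv => ?_⟩
  · rw [trace_smul, tr_br, smul_zero]
  · rw [← br_smul]
    unfold br
    rw [sub_mulVec, ← mulVec_mulVec, ← mulVec_mulVec]
    exact M.sub_mem (h.pres _ (hN.2 v hv)) (hN.2 _ (h.pres v hv))

theorem trace_zero_of_loc {M : Submodule (S n) (Fin 2 → K)}
    {I : Finset (Fin (n + 1))} {X : M2 K} (hX : X ∈ locI I (A0 M)) : X.trace = 0 := by
  obtain ⟨N, hN⟩ := hX
  have := hN.1
  rw [trace_smul, smul_eq_am (K := K), smul_eq_mul] at this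
  exact (mul_eq_zero.1 this).resolve_left (am_ne (pow_ne_zero _ (xp_ne_zero _)))

/-- twice the previous statement: the class is divisible by the discriminant -/
theorem Tw.T2 (hn : 3 ≤ n) {M : Submodule (S n) (Fin 2 → K)} {φ : M2 K} {d : ℤ} (h : Tw M φ d)
    {δ : S n} (hδ : algebraMap (S n) K δ = 2 * (φ * φ).trace)
    {k : ℤ} (hC : Cpl M φ (k + d)) (hC' : Cpl M φ (k - d + d))
    {Y : Fin (n + 1) → Fin (n + 1) → M2 K} (hY : Coc (A0 M) Y)
    (hYh : ∀ i j, HmM n k (Y i j)) : ∃ Z : Fin (n + 1) → Fin (n + 1) → M2 K, Coc (A0 M) Z ∧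
      (∀ i j, HmM n (k - d - d) (Z i j)) ∧ Cob (A0 M) (fun i j => Y i j - δ • Z i j) := by
  obtain ⟨X, hX, hXh, V, hV, hV'⟩ := h.T hn hC hY hYh
  obtain ⟨Z, hZ, hZh, W, hW, hW'⟩ := h.T hn hC' hX hXh
  obtain ⟨s, hs, hs', -⟩ := h1S (K := K) (by omega : 2 ≤ n) (t := fun i j => (φ * Z i j).trace)
    (fun i j => locI_le (h.JK_le (by omega)) (h.tr_loc (hZ.1 i j)))
    (fun i j k => by rw [← trace_add, ← Matrix.mul_add, hZ.2])
  refine ⟨Z, hZ, hZh, fun i => V i + br φ (W i) - (2 * s i) • φ, fun i => ?_, fun i j => ?_⟩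
  · refine Submodule.sub_mem _ (Submodule.add_mem _ (hV i) (h.br_mem (hW i))) ?_
    refine smul_mem_locI ?_ h.mem
    rw [two_mul]
    exact Submodule.add_mem _ (hs i) (hs i)
  · have e1 := hV' i j
    have e2 := hW' i j
    have e3 : br φ (X i j) = br φ (br φ (Z i j)) + (br φ (W j) - br φ (W i)) := by
      rw [← br_sub, ← e2, br_sub]; abel
    have e4 := br_br h.tr (trace_zero_of_loc (hZ.1 i j))
    have e5 := hs' i j
    have e6 : δ • Z i j = (2 * (φ * φ).trace) • Z i j := by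
      rw [← hδ, algebraMap_smul]
    show Y i j - δ • Z i j = V j + br φ (W j) - (2 * s j) • φ - (V i + br φ (W i) - (2 * s i) • φ)
    have e7 : Y i j = V j - V i + br φ (X i j) := by rw [← e1]; exact (sub_add_cancel _ _).symm
    have e8 : (2 * (φ * Z i j).trace) • φ = (2 * s j) • φ - (2 * s i) • φ := by
      rw [← sub_smul]; congr 1
      have : (φ * Z i j).trace = s j - s i := e5
      rw [this]; ring
    rw [e7, e3, e4, e8, e6]
    abel

/-- the main vanishing theorem -/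
theorem Tw.vanish (hn : 3 ≤ n) {M : Submodule (S n) (Fin 2 → K)} {φ : M2 K} {d : ℤ}
    (h : Tw M φ d) (hC : ∀ j : ℕ, Cpl M φ (d - j * d))
    {Y : Fin (n + 1) → Fin (n + 1) → M2 K} (hY : Coc (A0 M) Y) (hYh : ∀ i j, HmM n 0 (Y i j)) :
    Cob (A0 M) Y := by
  obtain ⟨δ', hδ'⟩ := mem_O.1 (h.JK_le (by omega) ⟨φ, h.mem, rfl⟩)
  let δ : S n := 2 * δ'
  have hδ : algebraMap (S n) K δ = 2 * (φ * φ).trace := by
    show algebraMap (S n) K (2 * δ') = _
    rw [map_mul, hδ', map_ofNat]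
  have key : ∀ m : ℕ, ∃ Z : Fin (n + 1) → Fin (n + 1) → M2 K, Coc (A0 M) Z ∧
      (∀ i j, HmM n (0 - (2 * m : ℕ) * d) (Z i j)) ∧
      Cob (A0 M) (fun i j => Y i j - δ ^ m • Z i j) := by
    intro m
    induction m with
    | zero => exact ⟨Y, hY, fun i j => by simpa using hYh i j, 0, fun i => Submodule.zero_mem _,
        fun i j => by simp⟩
    | succ m ih =>
      obtain ⟨Z, hZ, hZh, hc⟩ := ih
      obtain ⟨Z', hZ', hZh', hc'⟩ := h.T2 hn hδ (k := 0 - (2 * m : ℕ) * d) (by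
        have := hC (2 * m)
        rwa [show (0 : ℤ) - (2 * m : ℕ) * d + d = d - (2 * m : ℕ) * d by ring]) (by
        have := hC (2 * m + 1)
        rwa [show (0 : ℤ) - (2 * m : ℕ) * d - d + d = d - (2 * m + 1 : ℕ) * d by
          push_cast; ring]) hZ hZh
      refine ⟨Z', hZ', fun i j => ?_, ?_⟩
      · have := hZh' i j
        rwa [show (0 : ℤ) - (2 * m : ℕ) * d - d - d = 0 - (2 * (m + 1) : ℕ) * d by
          push_cast; ring] at this
      · refine (hc.add (hc'.smul (δ ^ m))).congr fun i j => ?_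
        rw [smul_sub, smul_smul, pow_succ]
        abel
  have hann : ∃ m : ℕ, δ ^ m ∈ annI M := by
    refine pow_mem_of_ideal (fun x hx => ?_) ?_
    · obtain ⟨P, g, hP⟩ := h.geo.chart x hx
      exact ⟨g * g, mem_annI_of_chart (by omega) hP, by
        rw [map_mul]; exact mul_ne_zero hP.2.1 hP.2.1⟩
    · have h1 : HomZ δ' (d + d) := by
        refine Hm.to_homZ (K := K) ?_
        rw [hδ']
        exact hm_tr h.hm h.hm
      have h2 : eval 0 δ' = 0 := by
        rcases h1 with h1 | ⟨k, hk, hp⟩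
        · rw [h1]; simp
        · have h2 : constantCoeff δ' = 0 := by
            rw [constantCoeff_eq]
            have := h.pos
            exact hp.coeff_eq_zero (by simp; omega)
          rw [← h2, MvPolynomial.eval_zero]
      show eval 0 (2 * δ') = 0
      rw [map_mul, h2, mul_zero]
  obtain ⟨m, hm⟩ := hann
  obtain ⟨Z, hZ, -, hc⟩ := key m
  refine (hc.add (hm Z hZ)).congr fun i j => ?_
  abel

end Pool.Agent.K6.H64.VB
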