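import Pool.Agent.K6.H64.VB.Lift

/-! Extension of derivations to the field of rational functions (helper64). -/

set_option autoImplicit false
set_option linter.all false

open MvPolynomial H960VB

namespace Pool.Agent.K6.H64.VB

variable {n : ℕ} {K : Type} [Field K] [Algebra (S n) K] [IsFractionRing (S n) K]

/-- extension of a derivation to the field of rational functions -/
theorem exists_der (K : Type) [Field K] [Algebra (S n) K] [IsFractionRing (S n) K]
    (N : Derivation ℂ (S n) (S n)) : ∃ θ : K → K,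
    (∀ a b, θ (a + b) = θ a + θ b) ∧ (∀ a b, θ (a * b) = θ a * b + a * θ b) ∧
    ∀ p : S n, θ (algebraMap (S n) K p) = algebraMap (S n) K (N p) := by
  let am := algebraMap (S n) K
  let f : S n →+* TrivSqZeroExt K K := {
    toFun := fun s => TrivSqZeroExt.inl (am s) + TrivSqZeroExt.inr (am (N s))
    map_one' := by
      apply TrivSqZeroExt.ext <;> simp [am]
    map_zero' := by
      apply TrivSqZeroExt.ext <;> simp [am]
    map_add' := by
      intro a b
      apply TrivSqZeroExt.ext
      · simp only [TrivSqZeroExt.fst_add, TrivSqZeroExt.fst_inl, TrivSqZeroExt.fst_inr, map_add,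
          add_zero]
      · simp only [TrivSqZeroExt.snd_add, TrivSqZeroExt.snd_inl, TrivSqZeroExt.snd_inr, map_add,
          zero_add]
    map_mul' := by
      intro a b
      apply TrivSqZeroExt.ext
      · simp only [TrivSqZeroExt.fst_add, TrivSqZeroExt.fst_inl, TrivSqZeroExt.fst_inr, map_mul,
          add_zero, TrivSqZeroExt.fst_mul]
      · simp only [TrivSqZeroExt.snd_add, TrivSqZeroExt.snd_inl, TrivSqZeroExt.snd_inr,
          TrivSqZeroExt.fst_add, TrivSqZeroExt.fst_inl, TrivSqZeroExt.fst_inr,
          zero_add, add_zero, TrivSqZeroExt.snd_mul, Derivation.leibniz, map_add, smul_eq_mul,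
          map_mul, MulOpposite.smul_eq_mul_unop, MulOpposite.unop_op]
        ring }
  have hf : ∀ y : nonZeroDivisors (S n), IsUnit (f y) := by
    intro y
    rw [TrivSqZeroExt.isUnit_iff_isUnit_fst]
    have h1 : (f y).fst = am y := by
      show (TrivSqZeroExt.inl (am y) + TrivSqZeroExt.inr (am (N y))).fst = am y
      simp
    rw [h1]
    exact isUnit_iff_ne_zero.2 (am_ne (nonZeroDivisors.ne_zero y.2))
  let g : K →+* TrivSqZeroExt K K := IsLocalization.lift hf
  have hg : ∀ p : S n, g (am p) = f p := fun p => IsLocalization.lift_eq hf p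
  have hfst : ∀ q : K, (g q).fst = q := by
    intro q
    have h1 : ((TrivSqZeroExt.fstHom K K K : TrivSqZeroExt K K →+* K).comp g) = RingHom.id K := by
      refine IsLocalization.ringHom_ext (nonZeroDivisors (S n)) ?_
      refine RingHom.ext fun p => ?_
      show (g (am p)).fst = am p
      rw [hg]
      show (TrivSqZeroExt.inl (am p) + TrivSqZeroExt.inr (am (N p))).fst = am p
      simp
    exact RingHom.congr_fun h1 q
  refine ⟨fun q => (g q).snd, fun a b => ?_, fun a b => ?_, fun p => ?_⟩
  · show (g (a + b)).snd = _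
    rw [map_add]; rfl
  · show (g (a * b)).snd = (g a).snd * b + a * (g b).snd
    rw [map_mul, TrivSqZeroExt.snd_mul, hfst, hfst]
    simp
    ring
  · show (g (am p)).snd = am (N p)
    rw [hg]
    show (TrivSqZeroExt.inl (am p) + TrivSqZeroExt.inr (am (N p))).snd = am (N p)
    simp

/-- if the derivation has degree `r`, so does its extension -/
theorem der_hm {r : ℤ} (N : S n → S n) (hN : ∀ (p : S n) (k : ℤ), HomZ p k → HomZ (N p) (k + r))
    (θ : K → K) (h1 : ∀ a b, θ (a + b) = θ a + θ b) (h2 : ∀ a b, θ (a * b) = θ a * b + a * θ b)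
    (h3 : ∀ p : S n, θ (algebraMap (S n) K p) = algebraMap (S n) K (N p))
    (q : K) (k : ℤ) (hq : Hm n k q) : Hm n (k + r) (θ q) := by
  obtain ⟨e, s, p, hs0, hs, hp, he⟩ := hq
  have hs1 : algebraMap (S n) K s ≠ 0 := am_ne hs0
  have e1 := congrArg θ he
  rw [h2, h3, h3] at e1
  have e3 : θ q = algebraMap (S n) K (N p) * (algebraMap (S n) K s)⁻¹ -
      algebraMap (S n) K (N s) * (algebraMap (S n) K s)⁻¹ * q := by
    apply mul_left_cancel₀ hs1
    rw [mul_sub]
    have e4 : algebraMap (S n) K s * (algebraMap (S n) K (N p) * (algebraMap (S n) K s)⁻¹) =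
        algebraMap (S n) K (N p) := by field_simp
    have e5 : algebraMap (S n) K s * (algebraMap (S n) K (N s) * (algebraMap (S n) K s)⁻¹ * q) =
        algebraMap (S n) K (N s) * q := by field_simp
    rw [e4, e5, ← e1]; ring
  have hsi : Hm n (-(e : ℤ)) (algebraMap (S n) K s)⁻¹ :=
    (Hm.of_homZ (Or.inr ⟨e, rfl, hs⟩)).inv
  have hq' : Hm n k q := ⟨e, s, p, hs0, hs, hp, he⟩
  rw [e3]
  refine Hm.sub ?_ ?_
  · have := (Hm.of_homZ (K := K) (hN _ _ hp)).mul hsi
    rwa [show k + e + r + -(e : ℤ) = k + r by ring] at this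
  · have h4 := (Hm.of_homZ (K := K) (hN s e (Or.inr ⟨e, rfl, hs⟩))).mul hsi
    have := h4.mul hq'
    rwa [show (e : ℤ) + r + -(e : ℤ) + k = k + r by ring] at this

/-- extension of a derivation to the field of rational functions -/
theorem exists_ext (K : Type) [Field K] [Algebra (S n) K] [IsFractionRing (S n) K] {r : ℤ}
    (N : Derivation ℂ (S n) (S n)) (hN : ∀ (p : S n) (k : ℤ), HomZ p k → HomZ (N p) (k + r)) :
    ∃ θ : K → K, Ext r (fun p => N p) θ := by
  obtain ⟨θ, h1, h2, h3⟩ := exists_der K N
  exact ⟨θ, h1, h2, h3, der_hm (fun p => N p) hN θ h1 h2 h3⟩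

end Pool.Agent.K6.H64.VB
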