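import Pool.Agent.K6.H64.VB.Iface

/-! The module of sections in a basis of homogeneous sections (helper64). -/

set_option autoImplicit false
set_option linter.all false

open MvPolynomial H960VB Matrix

namespace Pool.Agent.K6.H64.VB

variable {n : ℕ}

/-- two independent homogeneous sections of the same degree -/
structure Frm (E : Bundle2 n) where
  m : ℤ
  G : Fin 2 → Vec E
  i : Fin E.a
  j : Fin E.a
  sec : ∀ s, E.IsSection m (G s)
  ne : wedge (G 0) (G 1) i j ≠ 0

variable {E : Bundle2 n} (F : Frm E) {K : Type} [Field K] [Algebra (S n) K]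
  [IsFractionRing (S n) K]

/-- the vector with coordinates `v` -/
noncomputable def Frm.T (F : Frm E) {K : Type} [Field K] [Algebra (S n) K] (v : Fin 2 → K) :
    Fin E.a → K := fun l =>
  v 0 * algebraMap (S n) K (F.G 0 l) + v 1 * algebraMap (S n) K (F.G 1 l)

/-- the coordinates of a section -/
noncomputable def Frm.ρ (F : Frm E) (K : Type) [Field K] [Algebra (S n) K] (G : Vec E) :
    Fin 2 → K :=
  ![algebraMap (S n) K (wedge G (F.G 1) F.i F.j) / algebraMap (S n) K (wedge (F.G 0) (F.G 1) F.i F.j),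
    algebraMap (S n) K (wedge (F.G 0) G F.i F.j) / algebraMap (S n) K (wedge (F.G 0) (F.G 1) F.i F.j)]

theorem Frm.am_ne : algebraMap (S n) K (wedge (F.G 0) (F.G 1) F.i F.j) ≠ 0 :=
  Pool.Agent.K6.H64.VB.am_ne F.ne

theorem Frm.mem (s : Fin 2) : F.G s ∈ Mp E := mem_Mp_of_section (F.sec s)

theorem Frm.T_ρ {G : Vec E} (hG : G ∈ Mp E) (l : Fin E.a) :
    F.T (F.ρ K G) l = algebraMap (S n) K (G l) := by
  have h := congrArg (algebraMap (S n) K) (cramer (F.mem 0) (F.mem 1) hG F.i F.j l)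
  rw [map_mul, map_add, map_mul, map_mul] at h
  have h0 := F.am_ne (K := K)
  unfold Frm.T Frm.ρ
  simp only [Matrix.cons_val_zero, Matrix.cons_val_one]
  field_simp
  linear_combination -h

theorem Frm.T_wedge (v w : Fin 2 → K) (k l : Fin E.a) :
    F.T v k * F.T w l - F.T v l * F.T w k =
      (v 0 * w 1 - v 1 * w 0) * algebraMap (S n) K (wedge (F.G 0) (F.G 1) k l) := by
  unfold Frm.T wedge
  rw [map_sub, map_mul, map_mul]
  ring

theorem Frm.T_inj {v w : Fin 2 → K} (h : ∀ l, F.T v l = F.T w l) : v = w := by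
  have h0 := F.am_ne (K := K)
  have h1 := h F.i
  have h2 := h F.j
  unfold Frm.T at h1 h2
  unfold wedge at h0
  rw [map_sub, map_mul, map_mul] at h0
  funext s
  fin_cases s
  · show v 0 = w 0
    apply mul_right_cancel₀ h0
    linear_combination algebraMap (S n) K (F.G 1 F.j) * h1 - algebraMap (S n) K (F.G 1 F.i) * h2
  · show v 1 = w 1
    apply mul_right_cancel₀ h0
    linear_combination algebraMap (S n) K (F.G 0 F.i) * h2 - algebraMap (S n) K (F.G 0 F.j) * h1

theorem Frm.T_add (v w : Fin 2 → K) (l : Fin E.a) : F.T (v + w) l = F.T v l + F.T w l := by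
  unfold Frm.T; simp only [Pi.add_apply]; ring

theorem Frm.T_smul (g : S n) (v : Fin 2 → K) (l : Fin E.a) :
    F.T (g • v) l = algebraMap (S n) K g * F.T v l := by
  unfold Frm.T; simp only [Pi.smul_apply, Algebra.smul_def]; ring

theorem Frm.ρ_add {G G' : Vec E} : F.ρ K (G + G') = F.ρ K G + F.ρ K G' := by
  unfold Frm.ρ wedge
  funext s
  fin_cases s
  · simp only [Fin.zero_eta, Matrix.cons_val_zero, Pi.add_apply]
    rw [← add_div, ← map_add]; congr 2; ring
  · simp only [Fin.mk_one, Matrix.cons_val_one, Pi.add_apply, Matrix.cons_val_fin_one]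
    rw [← add_div, ← map_add]; congr 2; ring

theorem Frm.ρ_smul (p : S n) {G : Vec E} : F.ρ K (p • G) = p • F.ρ K G := by
  unfold Frm.ρ wedge
  funext s
  fin_cases s
  · simp only [Fin.zero_eta, Matrix.cons_val_zero, Pi.smul_apply, smul_eq_mul, Algebra.smul_def]
    rw [← mul_div_assoc, ← map_mul]; congr 2; ring
  · simp only [Fin.mk_one, Matrix.cons_val_one, Pi.smul_apply, smul_eq_mul, Algebra.smul_def,
      Matrix.cons_val_fin_one]
    rw [← mul_div_assoc, ← map_mul]; congr 2; ring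

theorem Frm.ρ_zero : F.ρ K (0 : Vec E) = 0 := by
  have := F.ρ_smul (K := K) 0 (G := (0 : Vec E))
  rw [zero_smul, zero_smul] at this
  exact this

theorem Frm.ρ_sum {ι : Type} (s : Finset ι) (f : ι → Vec E) :
    F.ρ K (∑ k ∈ s, f k) = ∑ k ∈ s, F.ρ K (f k) := by
  classical
  induction s using Finset.induction_on with
  | empty => rw [Finset.sum_empty, Finset.sum_empty, F.ρ_zero]
  | insert a s ha ih => rw [Finset.sum_insert ha, Finset.sum_insert ha, F.ρ_add, ih]

theorem Frm.ρ_inj {G G' : Vec E} (hG : G ∈ Mp E) (hG' : G' ∈ Mp E) (h : F.ρ K G = F.ρ K G') :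
    G = G' := by
  funext l
  apply am_inj (K := K)
  rw [← F.T_ρ hG, ← F.T_ρ hG', h]

/-- the module of sections in coordinates -/
noncomputable def Frm.MM (F : Frm E) (K : Type) [Field K] [Algebra (S n) K]
    [IsFractionRing (S n) K] : Submodule (S n) (Fin 2 → K) where
  carrier := {v | ∃ G ∈ Mp E, F.ρ K G = v}
  zero_mem' := ⟨0, Submodule.zero_mem _, F.ρ_zero⟩
  add_mem' := by
    rintro _ _ ⟨G, hG, rfl⟩ ⟨G', hG', rfl⟩
    exact ⟨G + G', Submodule.add_mem _ hG hG', F.ρ_add⟩
  smul_mem' := by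
    rintro c _ ⟨G, hG, rfl⟩
    exact ⟨c • G, Submodule.smul_mem _ _ hG, F.ρ_smul c⟩

theorem Frm.mem_MM {v : Fin 2 → K} : v ∈ F.MM K ↔ ∃ G ∈ Mp E, F.ρ K G = v := Iff.rfl

theorem Frm.ρ_e (s : Fin 2) : F.ρ K (F.G s) = Pi.single s 1 := by
  have h0 := F.am_ne (K := K)
  refine F.T_inj fun l => ?_
  rw [F.T_ρ (F.mem s)]
  unfold Frm.T
  fin_cases s <;> simp

theorem hm_wedge {m m' : ℤ} {G G' : Vec E} (h : E.IsSection m G) (h' : E.IsSection m' G')
    (k l : Fin E.a) : HomZ (wedge G G' k l) (E.β k + E.β l + m + m') := by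
  have h1 := Hm.of_homZ (K := FractionRing (S n)) (homZ_mul (h.1 k) (h'.1 l))
  have h2 := Hm.of_homZ (K := FractionRing (S n)) (homZ_mul (h.1 l) (h'.1 k))
  rw [show E.β k + m + (E.β l + m') = E.β k + E.β l + m + m' by ring] at h1
  rw [show E.β l + m + (E.β k + m') = E.β k + E.β l + m + m' by ring] at h2
  have := h1.sub h2
  rw [← map_sub] at this
  exact this.to_homZ

theorem Frm.hm_ρ {m : ℤ} {G : Vec E} (h : E.IsSection m G) : HmV n (m - F.m) (F.ρ K G) := by
  have h1 : Hm n (E.β F.i + E.β F.j + F.m + F.m)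
      (algebraMap (S n) K (wedge (F.G 0) (F.G 1) F.i F.j)) :=
    Hm.of_homZ (hm_wedge (F.sec 0) (F.sec 1) _ _)
  intro s
  fin_cases s
  · show Hm n (m - F.m) (algebraMap (S n) K (wedge G (F.G 1) F.i F.j) /
      algebraMap (S n) K (wedge (F.G 0) (F.G 1) F.i F.j))
    rw [div_eq_mul_inv]
    have := (Hm.of_homZ (K := K) (hm_wedge h (F.sec 1) F.i F.j)).mul h1.inv
    rwa [show E.β F.i + E.β F.j + m + F.m + -(E.β F.i + E.β F.j + F.m + F.m) = m - F.m by ring]
      at this
  · show Hm n (m - F.m) (algebraMap (S n) K (wedge (F.G 0) G F.i F.j) /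
      algebraMap (S n) K (wedge (F.G 0) (F.G 1) F.i F.j))
    rw [div_eq_mul_inv]
    have := (Hm.of_homZ (K := K) (hm_wedge (F.sec 0) h F.i F.j)).mul h1.inv
    rwa [show E.β F.i + E.β F.j + F.m + m + -(E.β F.i + E.β F.j + F.m + F.m) = m - F.m by ring]
      at this

theorem Frm.sec_of_hm {k : ℤ} {G : Vec E} (hG : G ∈ Mp E) (h : HmV n k (F.ρ K G)) :
    E.IsSection (k + F.m) G := by
  refine section_of_mem_Mp hG fun l => ?_
  have h1 : Hm n (E.β l + (k + F.m)) (algebraMap (S n) K (G l)) := by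
    rw [← F.T_ρ hG]
    unfold Frm.T
    have e0 := (h 0).mul (Hm.of_homZ (K := K) ((F.sec 0).1 l))
    have e1 := (h 1).mul (Hm.of_homZ (K := K) ((F.sec 1).1 l))
    rw [show k + (E.β l + F.m) = E.β l + (k + F.m) by ring] at e0 e1
    exact e0.add e1
  exact h1.to_homZ

/-- the matrix with the coordinates of two sections as columns -/
noncomputable def Frm.mat (F : Frm E) (K : Type) [Field K] [Algebra (S n) K] (G G' : Vec E) :
    M2 K := Matrix.of fun i j => if j = 0 then F.ρ K G i else F.ρ K G' i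

theorem Frm.mat_mulVec (G G' : Vec E) (v : Fin 2 → K) :
    (F.mat K G G').mulVec v = v 0 • F.ρ K G + v 1 • F.ρ K G' := by
  funext i
  simp only [Frm.mat, Matrix.mulVec, dotProduct, Fin.sum_univ_two, Matrix.of_apply,
    Pi.add_apply, Pi.smul_apply, smul_eq_mul]
  simp
  ring

theorem Frm.mat_pv (G G' : Vec E) (p : Fin 2 → S n) :
    (F.mat K G G').mulVec (pv K p) = F.ρ K (p 0 • G + p 1 • G') := by
  rw [F.mat_mulVec, F.ρ_add, F.ρ_smul, F.ρ_smul]
  unfold pv
  rw [algebraMap_smul, algebraMap_smul]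

theorem Frm.chart_ρ {G G' : Vec E} (h : G ∈ Mp E) (h' : G' ∈ Mp E) (i j : Fin E.a) {G'' : Vec E}
    (h'' : G'' ∈ Mp E) : wedge G G' i j • F.ρ K G'' =
      (F.mat K G G').mulVec (pv K ![wedge G'' G' i j, wedge G G'' i j]) := by
  rw [F.mat_pv, ← F.ρ_smul]
  congr 1
  funext l
  exact cramer h h' h'' i j l

theorem Frm.isChart {G G' : Vec E} (h : G ∈ Mp E) (h' : G' ∈ Mp E) {i j : Fin E.a}
    {x : Fin (n + 1) → ℂ} (hx : eval x (wedge G G' i j) ≠ 0) :
    IsChart (F.MM K) x (F.mat K G G') (wedge G G' i j) := by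
  have hg : wedge G G' i j ≠ 0 := am_eval_ne hx
  refine ⟨?_, hx, fun p => ?_, ?_⟩
  · -- the determinant
    let Q : Matrix (Fin 2) (Fin 2) (S n) := Matrix.of fun a b =>
      (![wedge (F.G b) G' i j, wedge G (F.G b) i j] : Fin 2 → S n) a
    have h1 : F.mat K G G' * pm K Q = wedge G G' i j • (1 : M2 K) := by
      refine Matrix.ext fun a b => ?_
      have h2 := congrFun (F.chart_ρ (K := K) h h' i j (F.mem b)) a
      rw [F.ρ_e] at h2
      have h3 : (F.mat K G G' * pm K Q) a b =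
          (F.mat K G G').mulVec (pv K ![wedge (F.G b) G' i j, wedge G (F.G b) i j]) a := rfl
      rw [h3, ← h2]
      show wedge G G' i j • (Pi.single b (1 : K) : Fin 2 → K) a = wedge G G' i j • (1 : M2 K) a b
      rw [Pi.single_apply, Matrix.one_apply]
    have h4 := congrArg Matrix.det h1
    rw [Matrix.det_mul] at h4
    intro h5
    rw [h5, zero_mul, smul_eq_am (K := K), Matrix.det_smul, Matrix.det_one, mul_one] at h4
    exact pow_ne_zero _ (Pool.Agent.K6.H64.VB.am_ne (K := K) hg) h4.symm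
  · rw [F.mat_pv]
    exact ⟨_, Submodule.add_mem _ (Submodule.smul_mem _ _ h) (Submodule.smul_mem _ _ h'), rfl⟩
  · rintro v ⟨G'', hG'', rfl⟩
    exact ⟨_, F.chart_ρ h h' i j hG''⟩

theorem Frm.geo (hn : 1 ≤ n) (F : Frm E) : Geo (F.MM K) where
  e := fun s => ⟨F.G s, F.mem s, F.ρ_e s⟩
  dec := by
    classical
    rintro v ⟨G, hG, rfl⟩
    obtain ⟨s, f, hf, rfl⟩ := Mp_dec hG
    refine ⟨s.map (addRightEmbedding (-F.m)), fun k => F.ρ K (f (k + F.m)), fun k hk => ?_, ?_⟩
    · rw [Finset.mem_map] at hk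
      obtain ⟨l, hl, rfl⟩ := hk
      simp only [addRightEmbedding_apply]
      rw [neg_add_cancel_right, ← sub_eq_add_neg]
      exact ⟨⟨_, mem_Mp_of_section (hf l hl), rfl⟩, F.hm_ρ (hf l hl)⟩
    · rw [Finset.sum_map, F.ρ_sum]
      refine Finset.sum_congr rfl fun l _ => ?_
      rw [addRightEmbedding_apply, neg_add_cancel_right]
  chart := by
    intro x hx
    obtain ⟨m, m', G, G', i, j, h, h', hw⟩ := exists_local hn E x hx
    exact ⟨_, _, F.isChart (mem_Mp_of_section h) (mem_Mp_of_section h') hw⟩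
  sat := by
    intro v hv
    have h1 : ∀ l, F.T v l ∈ O (n := n) K := by
      intro l
      refine mem_O_of_locI hn fun i => ?_
      obtain ⟨N, G, hG, e⟩ := hv i
      refine ⟨N, G l, ?_⟩
      show algebraMap (S n) K (G l) = _
      rw [← F.T_ρ hG, e, F.T_smul, Algebra.smul_def]
    choose G hG using h1
    change ∀ l, algebraMap (S n) K (G l) = F.T v l at hG
    have hGM : G ∈ Mp E := by
      rw [mem_Mp]
      intro r
      obtain ⟨N, G', hG', e⟩ := hv 0
      have h2 : ∀ l, xp {0} ^ N * G l = G' l := by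
        intro l
        apply am_inj (K := K)
        rw [map_mul, hG, ← F.T_ρ hG', e, F.T_smul]
      have h3 := mem_Mp.1 hG' r
      have h4 : xp {0} ^ N * ∑ l, E.B r l * G l = 0 := by
        rw [← h3, Finset.mul_sum]
        refine Finset.sum_congr rfl fun l _ => ?_
        rw [← h2]; ring
      exact (mul_eq_zero.1 h4).resolve_left (pow_ne_zero _ (xp_ne_zero _))
    refine ⟨G, hGM, F.T_inj fun l => ?_⟩
    rw [F.T_ρ hGM, hG]

end Pool.Agent.K6.H64.VB
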