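import Pool.Agent.K6.H64.VB.Chain
import Pool.Agent.K6.H64.VB.Frame

/-! Twisted endomorphisms of a bundle of rank two (helper64). -/

set_option autoImplicit false
set_option linter.all false

open MvPolynomial H960VB Matrix

namespace Pool.Agent.K6.H64.VB

variable {n : ℕ}

/-- trace free twisted endomorphisms -/
structure TwE (E : Bundle2 n) (d : ℤ) (Φ : Vec E → Vec E) : Prop where
  sec : ∀ m G, E.IsSection m G → E.IsSection (m + d) (Φ G)
  add : ∀ m G G', E.IsSection m G → E.IsSection m G' → Φ (G + G') = Φ G + Φ G'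
  lin : ∀ m e (p : S n) G, E.IsSection m G → HomZ p e → Φ (p • G) = p • Φ G
  tr : ∀ m m' G G', E.IsSection m G → E.IsSection m' G' → ∀ i j,
    wedge (Φ G) G' i j + wedge G (Φ G') i j = 0

/-- the ideal of the zero scheme -/
noncomputable def zId (E : Bundle2 n) (Φ : Vec E → Vec E) : Ideal (S n) :=
  Ideal.span {f | ∃ (m m' : ℤ) (G G' : Vec E) (i j : Fin E.a), E.IsSection m G ∧
    E.IsSection m' G' ∧ f = wedge (Φ G) G' i j}

/-- the zero scheme has codimension three -/
def Cod3 (E : Bundle2 n) (Φ : Vec E → Vec E) : Prop :=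
  ∀ x : Fin (n + 1) → ℂ, x ≠ 0 → ∃ (m m' : ℤ) (G G' : Vec E) (i j : Fin E.a),
    E.IsSection m G ∧ E.IsSection m' G' ∧ eval x (wedge G G' i j) ≠ 0 ∧
    Reg3 x (wedge (Φ G) G' i j) (wedge G (Φ G) i j) (wedge (Φ G') G' i j)

variable {E : Bundle2 n} (F : Frm E) {K : Type} [Field K] [Algebra (S n) K]
  [IsFractionRing (S n) K] {d : ℤ} {Φ : Vec E → Vec E}

/-- the matrix of the endomorphism -/
noncomputable def Frm.φ (F : Frm E) (K : Type) [Field K] [Algebra (S n) K] (Φ : Vec E → Vec E) :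
    M2 K := F.mat K (Φ (F.G 0)) (Φ (F.G 1))

theorem TwE.φ_ρ (h : TwE E d Φ) {m : ℤ} {G : Vec E} (hG : E.IsSection m G) :
    (F.φ K Φ).mulVec (F.ρ K G) = F.ρ K (Φ G) := by
  have hGM := mem_Mp_of_section hG
  have h0 := F.am_ne (K := K)
  have e1 : wedge (F.G 0) (F.G 1) F.i F.j • G =
      wedge G (F.G 1) F.i F.j • F.G 0 + wedge (F.G 0) G F.i F.j • F.G 1 := by
    funext l
    exact cramer (F.mem 0) (F.mem 1) hGM F.i F.j l
  have s0 := smul_section (F.sec 0) (hm_wedge hG (F.sec 1) F.i F.j)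
  have s1 := smul_section (F.sec 1) (hm_wedge (F.sec 0) hG F.i F.j)
  rw [show F.m + (E.β F.i + E.β F.j + F.m + m) = F.m + (E.β F.i + E.β F.j + m + F.m) by ring] at s1
  have e2 : wedge (F.G 0) (F.G 1) F.i F.j • Φ G =
      wedge G (F.G 1) F.i F.j • Φ (F.G 0) + wedge (F.G 0) G F.i F.j • Φ (F.G 1) := by
    rw [← h.lin _ _ _ _ hG (hm_wedge (F.sec 0) (F.sec 1) F.i F.j), e1, h.add _ _ _ s0 s1,
      h.lin _ _ _ _ (F.sec 0) (hm_wedge hG (F.sec 1) F.i F.j),
      h.lin _ _ _ _ (F.sec 1) (hm_wedge (F.sec 0) hG F.i F.j)]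
  have e3 : algebraMap (S n) K (wedge (F.G 0) (F.G 1) F.i F.j) • (F.φ K Φ).mulVec (F.ρ K G) =
      algebraMap (S n) K (wedge (F.G 0) (F.G 1) F.i F.j) • F.ρ K (Φ G) := by
    rw [← mulVec_smul, algebraMap_smul, algebraMap_smul, ← F.ρ_smul, ← F.ρ_smul, e1, e2, F.ρ_add,
      F.ρ_smul, F.ρ_smul, F.ρ_e, F.ρ_e, F.ρ_add, F.ρ_smul, F.ρ_smul, mulVec_add, mulVec_smul,
      mulVec_smul]
    unfold Frm.φ
    rw [F.mat_mulVec, F.mat_mulVec]
    simp
  exact smul_right_injective _ h0 e3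

theorem TwE.mem (h : TwE E d Φ) {m : ℤ} {G : Vec E} (hG : E.IsSection m G) : Φ G ∈ Mp E :=
  mem_Mp_of_section (h.sec _ _ hG)

theorem TwE.pres (h : TwE E d Φ) : ∀ v ∈ F.MM K, (F.φ K Φ).mulVec v ∈ F.MM K := by
  rintro v ⟨G, hG, rfl⟩
  obtain ⟨s, f, hf, rfl⟩ := Mp_dec hG
  rw [F.ρ_sum, mulVec_sum]
  refine Submodule.sum_mem _ fun k hk => ?_
  rw [h.φ_ρ F (hf k hk)]
  exact ⟨_, h.mem (hf k hk), rfl⟩

theorem TwE.chart (h : TwE E d Φ) {m m' : ℤ} {G G' : Vec E} (hG : E.IsSection m G)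
    (hG' : E.IsSection m' G') (i j : Fin E.a) :
    wedge G G' i j • (F.φ K Φ * F.mat K G G') = F.mat K G G' *
      pm K !![wedge (Φ G) G' i j, wedge (Φ G') G' i j; wedge G (Φ G) i j, -wedge (Φ G) G' i j] := by
  have hm := mem_Mp_of_section hG
  have hm' := mem_Mp_of_section hG'
  have c0 := F.chart_ρ (K := K) hm hm' i j (h.mem hG)
  have c1 := F.chart_ρ (K := K) hm hm' i j (h.mem hG')
  rw [← h.φ_ρ F hG] at c0
  rw [← h.φ_ρ F hG'] at c1
  have ht : wedge G (Φ G') i j = -wedge (Φ G) G' i j := by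
    linear_combination h.tr _ _ _ _ hG hG' i j
  rw [ht] at c1
  refine Matrix.ext fun a b => ?_
  fin_cases b
  · exact congrFun c0 a
  · exact congrFun c1 a

theorem TwE.tw (hn : 1 ≤ n) (hd : 0 < d) (h : TwE E d Φ) (hc : Cod3 E Φ) :
    Tw (F.MM K) (F.φ K Φ) d where
  geo := F.geo hn
  tr := by
    have h0 := F.am_ne (K := K)
    rw [Matrix.trace, Fin.sum_univ_two]
    show F.ρ K (Φ (F.G 0)) 0 + F.ρ K (Φ (F.G 1)) 1 = 0
    show algebraMap (S n) K (wedge (Φ (F.G 0)) (F.G 1) F.i F.j) /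
        algebraMap (S n) K (wedge (F.G 0) (F.G 1) F.i F.j) +
      algebraMap (S n) K (wedge (F.G 0) (Φ (F.G 1)) F.i F.j) /
        algebraMap (S n) K (wedge (F.G 0) (F.G 1) F.i F.j) = 0
    rw [← add_div, ← map_add, h.tr _ _ _ _ (F.sec 0) (F.sec 1), map_zero, zero_div]
  pres := h.pres F
  ne := by
    intro h0
    obtain ⟨m, m', G, G', i, j, hG, hG', hw, hr⟩ := hc (fun _ => 1) (by
      intro h
      have := congrFun h 0
      simp at this)
    have h1 := h.chart F (K := K) hG hG' i j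
    rw [h0, Matrix.zero_mul, smul_zero] at h1
    have hP := F.isChart (K := K) (mem_Mp_of_section hG) (mem_Mp_of_section hG') hw
    have hu : IsUnit (F.mat K G G').det := isUnit_iff_ne_zero.2 hP.1
    have h2 : pm K !![wedge (Φ G) G' i j, wedge (Φ G') G' i j;
        wedge G (Φ G) i j, -wedge (Φ G) G' i j] = pm K (0 : Matrix (Fin 2) (Fin 2) (S n)) := by
      have h3 := congrArg (fun Z => (F.mat K G G')⁻¹ * Z) h1
      simp only [← Matrix.mul_assoc, nonsing_inv_mul _ hu, Matrix.one_mul, Matrix.mul_zero] at h3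
      rw [← h3]
      refine Matrix.ext fun a b => ?_
      simp [pm]
    have h4 := pm_inj h2
    have ha : wedge (Φ G) G' i j = 0 := by simpa using congrFun (congrFun h4 0) 0
    have hb : wedge G (Φ G) i j = 0 := by simpa using congrFun (congrFun h4 1) 0
    have hc : wedge (Φ G') G' i j = 0 := by simpa using congrFun (congrFun h4 0) 1
    rw [ha, hb, hc] at hr
    rcases hr with (hr | hr | hr) | ⟨hr, -⟩
    · exact hr (map_zero _)
    · exact hr (map_zero _)
    · exact hr (map_zero _)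
    · exact hr rfl
  hm := by
    intro i j
    have h1 : ∀ s, Hm n d (F.ρ K (Φ (F.G s)) i) := by
      intro s
      have := F.hm_ρ (K := K) (h.sec _ _ (F.sec s)) i
      rwa [add_sub_cancel_left] at this
    fin_cases j
    · exact h1 0
    · exact h1 1
  pos := hd
  chart := by
    intro x hx
    obtain ⟨m, m', G, G', i, j, hG, hG', hw, hr⟩ := hc x hx
    exact ⟨_, _, _, _, _, F.isChart (mem_Mp_of_section hG) (mem_Mp_of_section hG') hw,
      h.chart F hG hG' i j, hr⟩

/-- the ideal of the zero scheme, in `K` -/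
noncomputable def zK (E : Bundle2 n) (Φ : Vec E → Vec E) (K : Type) [Field K] [Algebra (S n) K] :
    Submodule (S n) K := Submodule.map (Algebra.linearMap (S n) K) (zId E Φ)

theorem mem_zK {q : K} : q ∈ zK E Φ K ↔ ∃ f ∈ zId E Φ, algebraMap (S n) K f = q := Iff.rfl

theorem am_mem_zK {f : S n} : algebraMap (S n) K f ∈ zK E Φ K ↔ f ∈ zId E Φ := by
  rw [mem_zK]
  constructor
  · rintro ⟨g, hg, e⟩
    rwa [← am_inj e]
  · intro h
    exact ⟨f, h, rfl⟩

/-- the values `tr (φ Y)` are locally in the ideal of the zero scheme -/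
theorem TwE.J1 (hn : 1 ≤ n) (h : TwE E d Φ) (hc : Cod3 E Φ) (l : Fin (n + 1)) :
    JK (F.MM K) (F.φ K Φ) ≤ locI {l} (zK E Φ K) := by
  rintro q ⟨Y, hY, rfl⟩
  let 𝔟 : Ideal (S n) := {
    carrier := {f | f • (F.φ K Φ * Y).trace ∈ zK E Φ K}
    zero_mem' := by
      show (0 : S n) • (F.φ K Φ * Y).trace ∈ zK E Φ K
      rw [zero_smul]; exact Submodule.zero_mem _
    add_mem' := by
      intro a b ha hb
      show (a + b) • (F.φ K Φ * Y).trace ∈ zK E Φ K
      rw [add_smul]; exact Submodule.add_mem _ ha hb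
    smul_mem' := by
      intro r a ha
      show (r • a) • (F.φ K Φ * Y).trace ∈ zK E Φ K
      rw [smul_eq_mul, mul_smul]; exact Submodule.smul_mem _ _ ha }
  refine xp_pow_mem (𝔞 := 𝔟) ?_ (Finset.singleton_nonempty l)
  intro x hx
  obtain ⟨m, m', G, G', i, j, hG, hG', hw, -⟩ := hc x hx
  have hP := F.isChart (K := K) (mem_Mp_of_section hG) (mem_Mp_of_section hG') hw
  have hφ := h.chart F (K := K) hG hG' i j
  obtain ⟨Y1, hY1⟩ := chart_end hP hY.2
  have hu : IsUnit (F.mat K G G').det := isUnit_iff_ne_zero.2 hP.1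
  have e1 := chart_eq hP hφ
  have e2 := chart_eq hP hY1
  refine ⟨wedge G G' i j * wedge G G' i j, ?_, by rw [map_mul]; exact mul_ne_zero hw hw⟩
  show (wedge G G' i j * wedge G G' i j) • (F.φ K Φ * Y).trace ∈ zK E Φ K
  have e3 : (wedge G G' i j * wedge G G' i j) • (F.φ K Φ * Y) =
      F.mat K G G' * pm K (!![wedge (Φ G) G' i j, wedge (Φ G') G' i j;
        wedge G (Φ G) i j, -wedge (Φ G) G' i j] * Y1) * (F.mat K G G')⁻¹ := by
    have e4 : (wedge G G' i j * wedge G G' i j) • (F.φ K Φ * Y) =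
        (wedge G G' i j • F.φ K Φ) * (wedge G G' i j • Y) := by
      rw [smul_mul, Matrix.mul_smul, mul_smul]
    rw [e4, e1, e2, pm_mul]
    have : ∀ P A B : M2 K, P.det ≠ 0 → P * A * P⁻¹ * (P * B * P⁻¹) = P * (A * B) * P⁻¹ := by
      intro P A B hP
      have : P * A * P⁻¹ * (P * B * P⁻¹) = P * A * (P⁻¹ * P) * B * P⁻¹ := by
        simp only [Matrix.mul_assoc]
      rw [this, nonsing_inv_mul _ (isUnit_iff_ne_zero.2 hP), Matrix.mul_one, Matrix.mul_assoc P]
    exact this _ _ _ hP.1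
  rw [← trace_smul, e3, tr_conj hP.1, pm_trace, am_mem_zK]
  have ha : wedge (Φ G) G' i j ∈ zId E Φ :=
    Ideal.subset_span ⟨m, m', G, G', i, j, hG, hG', rfl⟩
  have hb : wedge G (Φ G) i j ∈ zId E Φ := by
    have : wedge G (Φ G) i j = -wedge (Φ G) G i j := by unfold wedge; ring
    rw [this]
    exact neg_mem (Ideal.subset_span ⟨m, m, G, G, i, j, hG, hG, rfl⟩)
  have hc' : wedge (Φ G') G' i j ∈ zId E Φ :=
    Ideal.subset_span ⟨m', m', G', G', i, j, hG', hG', rfl⟩
  have e5 : (!![wedge (Φ G) G' i j, wedge (Φ G') G' i j;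
      wedge G (Φ G) i j, -wedge (Φ G) G' i j] * Y1).trace =
      (Y1 0 0 - Y1 1 1) * wedge (Φ G) G' i j + Y1 1 0 * wedge (Φ G') G' i j +
        Y1 0 1 * wedge G (Φ G) i j := by
    rw [Matrix.trace, Fin.sum_univ_two, Matrix.diag_apply, Matrix.diag_apply, Matrix.mul_apply,
      Matrix.mul_apply, Fin.sum_univ_two, Fin.sum_univ_two]
    simp
    ring
  rw [e5]
  exact add_mem (add_mem (Ideal.mul_mem_left _ _ ha) (Ideal.mul_mem_left _ _ hc'))
    (Ideal.mul_mem_left _ _ hb)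

/-- the ideal of the zero scheme consists of values `tr (φ Y)` -/
theorem TwE.J2 (h : TwE E d Φ) (htr : (F.φ K Φ).trace = 0) :
    zK E Φ K ≤ JK (F.MM K) (F.φ K Φ) := by
  have key : ∀ f ∈ zId E Φ, algebraMap (S n) K f ∈ JK (F.MM K) (F.φ K Φ) := by
    intro f hf
    refine Submodule.span_induction (p := fun f _ => algebraMap (S n) K f ∈ JK (F.MM K) (F.φ K Φ))
      ?_ ?_ ?_ ?_ hf
    · rintro f ⟨m, m', G, G', i, j, hG, hG', rfl⟩
      let u := F.ρ K G
      let w := F.ρ K G'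
      have hu : u ∈ F.MM K := ⟨G, mem_Mp_of_section hG, rfl⟩
      let W : K := algebraMap (S n) K (wedge (F.G 0) (F.G 1) i j)
      let Y0 : M2 K := Matrix.of fun a b => W * (u a * (![w 1, -(w 0)] : Fin 2 → K) b)
      have hG1 := mem_Mp_of_section hG
      have hG2 := mem_Mp_of_section hG'
      -- exterior products in coordinates
      have hW : ∀ {A B : Vec E}, A ∈ Mp E → B ∈ Mp E → (F.ρ K A 0 * F.ρ K B 1 - F.ρ K A 1 * F.ρ K B 0) * W
          = algebraMap (S n) K (wedge A B i j) := by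
        intro A B hA hB
        rw [← F.T_wedge, F.T_ρ hA, F.T_ρ hA, F.T_ρ hB, F.T_ρ hB]
        unfold wedge
        rw [map_sub, map_mul, map_mul]
      have hY0 : ∀ v ∈ F.MM K, Y0.mulVec v ∈ F.MM K := by
        rintro v ⟨B, hB, rfl⟩
        have e1 : Y0.mulVec (F.ρ K B) = (-wedge G' B i j) • u + (0 : Fin 2 → K) := by
          funext a
          have := hW hG2 hB
          show ∑ b, (W * (u a * (![w 1, -(w 0)] : Fin 2 → K) b)) * F.ρ K B b =
            (-wedge G' B i j) • u a + 0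
          rw [Fin.sum_univ_two, Algebra.smul_def, map_neg, ← this]
          show W * (u a * w 1) * F.ρ K B 0 + W * (u a * -(w 0)) * F.ρ K B 1 =
            -((w 0 * F.ρ K B 1 - w 1 * F.ρ K B 0) * W) * u a + 0
          ring
        rw [e1, add_zero]
        exact Submodule.smul_mem _ _ hu
      have htr0 : Y0.trace = algebraMap (S n) K (wedge G G' i j) := by
        rw [← hW hG1 hG2, Matrix.trace, Fin.sum_univ_two]
        show W * (u 0 * w 1) + W * (u 1 * -(w 0)) = (u 0 * w 1 - u 1 * w 0) * W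
        ring
      let hlf : S n := MvPolynomial.C (1 / 2)
      have hhalf : algebraMap (S n) K hlf * 2 = 1 := by
        rw [show (2 : K) = algebraMap (S n) K (MvPolynomial.C 2) by
          rw [show (MvPolynomial.C 2 : S n) = 2 from map_ofNat _ _, map_ofNat],
          ← map_mul, ← MvPolynomial.C_mul]
        norm_num
      refine ⟨Y0 - (hlf * wedge G G' i j) • (1 : M2 K), ⟨?_, fun v hv => ?_⟩, ?_⟩
      · rw [trace_sub, trace_smul, Matrix.trace_one, htr0, Algebra.smul_def, map_mul,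
          Fintype.card_fin]
        push_cast
        linear_combination (-algebraMap (S n) K (wedge G G' i j)) * hhalf
      · rw [sub_mulVec, smul_mulVec, one_mulVec]
        exact Submodule.sub_mem _ (hY0 v hv) (Submodule.smul_mem _ _ hv)
      · rw [Matrix.mul_sub, Matrix.mul_smul, Matrix.mul_one, trace_sub, trace_smul, htr, smul_zero,
          sub_zero]
        have e2 := h.φ_ρ F (K := K) hG
        have e3 := hW (h.mem hG) hG2
        rw [← e3, ← e2]
        rw [Matrix.trace, Fin.sum_univ_two, Matrix.diag_apply, Matrix.diag_apply, Matrix.mul_apply,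
          Matrix.mul_apply, Fin.sum_univ_two, Fin.sum_univ_two]
        simp only [Matrix.mulVec, dotProduct, Fin.sum_univ_two]
        show F.φ K Φ 0 0 * (W * (u 0 * w 1)) + F.φ K Φ 0 1 * (W * (u 1 * w 1)) +
          (F.φ K Φ 1 0 * (W * (u 0 * -(w 0))) + F.φ K Φ 1 1 * (W * (u 1 * -(w 0)))) =
          ((F.φ K Φ 0 0 * u 0 + F.φ K Φ 0 1 * u 1) * w 1 -
            (F.φ K Φ 1 0 * u 0 + F.φ K Φ 1 1 * u 1) * w 0) * W
        ring
    · rw [map_zero]; exact Submodule.zero_mem _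
    · intro a b _ _ ha hb
      rw [map_add]; exact Submodule.add_mem _ ha hb
    · intro r a _ ha
      have := Submodule.smul_mem (JK (F.MM K) (F.φ K Φ)) r ha
      rwa [Algebra.smul_def, ← map_mul] at this
  rintro q ⟨f, hf, rfl⟩
  exact key f hf

/-- a section of degree `k` of the structure sheaf of the zero scheme, given by the functions
`s i / (x i) ^ N` -/
def IsFam' (E : Bundle2 n) (Φ : Vec E → Vec E) (k : ℤ) (N : ℕ) (s : Fin (n + 1) → S n) : Prop :=
  (∀ i, HomZ (s i) (k + N)) ∧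
    ∀ i j, ∃ M : ℕ, (X i * X j) ^ M * (X i ^ N * s j - X j ^ N * s i) ∈ zId E Φ

/-- the first cohomology of the `k`-th twist of the ideal sheaf is spanned by `c` classes -/
def H1Le' (E : Bundle2 n) (Φ : Vec E → Vec E) (k : ℤ) (c : ℕ) : Prop :=
  ∃ (N' : ℕ) (s' : Fin c → Fin (n + 1) → S n), ∀ (N : ℕ) (s : Fin (n + 1) → S n),
    IsFam' E Φ k N s → ∃ (μ : Fin c → ℂ) (f : S n), HomZ f k ∧ ∀ i, ∃ M : ℕ,
      X i ^ M * (X i ^ N' * s i - X i ^ N * ∑ a, C (μ a) * s' a i - X i ^ (N + N') * f) ∈ zId E Φ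

theorem xp_one (i : Fin (n + 1)) : xp (n := n) {i} = X i := by
  unfold xp; rw [Finset.prod_singleton]

theorem xp_two {i j : Fin (n + 1)} (h : i ≠ j) : xp (n := n) {i, j} = X i * X j := by
  unfold xp; rw [Finset.prod_pair h]

theorem TwE.h1K (hn : 1 ≤ n) (h : TwE E d Φ) (htr : (F.φ K Φ).trace = 0) (hc : Cod3 E Φ) {k : ℤ}
    {c : ℕ} (h1 : H1Le' E Φ k c) : H1K (F.MM K) (F.φ K Φ) k c := by
  obtain ⟨N', s', hs'⟩ := h1
  refine ⟨fun a i => algebraMap (S n) K (s' a i) * (algebraMap (S n) K (X i ^ N'))⁻¹,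
    fun t ht => ?_⟩
  obtain ⟨ht1, ht2, ht3⟩ := ht
  choose N₀ hN₀ using ht1
  let N := Finset.univ.sup N₀
  have hN : ∀ i, xp {i} ^ N • t i ∈ O (n := n) K := fun i =>
    locI_up (hN₀ i) (Finset.le_sup (Finset.mem_univ i))
  choose s hs using fun i => mem_O.1 (hN i)
  have hs1 : ∀ i, algebraMap (S n) K (s i) = algebraMap (S n) K (X i ^ N) * t i := by
    intro i
    rw [hs i, xp_one, Algebra.smul_def]
  have hfam : IsFam' E Φ k N s := by
    refine ⟨fun i => ?_, fun i j => ?_⟩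
    · exact homZ_of_hm (ht2 i) (pow_ne_zero N (X_ne_zero i))
        (by simpa using (isHomogeneous_X ℂ i).pow N) (hs1 i).symm
    · by_cases hij : i = j
      · subst hij
        exact ⟨0, by rw [sub_self, mul_zero]; exact Submodule.zero_mem _⟩
      · obtain ⟨M1, hM1⟩ := ht3 i j
        obtain ⟨M2, f, hf, e⟩ := h.J1 F hn hc i hM1
        change algebraMap (S n) K f = _ at e
        refine ⟨M1 + M2, ?_⟩
        have e2 : (X i * X j) ^ (M1 + M2) * (X i ^ N * s j - X j ^ N * s i) =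
            (X j ^ M2 * (X i * X j) ^ N) * f := by
          apply am_inj (K := K)
          rw [map_mul (algebraMap (S n) K) _ f, e, xp_one, xp_two hij]
          simp only [Algebra.smul_def, map_mul, map_sub, map_pow]
          have h3 := hs1 i
          have h4 := hs1 j
          rw [map_pow] at h3 h4
          rw [h3, h4]
          ring
        rw [e2]
        exact Ideal.mul_mem_left _ _ hf
  obtain ⟨μ, f, hf, hfs⟩ := hs' N s hfam
  refine ⟨μ, f, hf, fun i => ?_⟩
  obtain ⟨M, hM⟩ := hfs i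
  refine ⟨M + N + N', ?_⟩
  have h5 := h.J2 F htr (am_mem_zK.2 hM)
  have h6 : algebraMap (S n) K (X i ^ N') ≠ 0 := am_ne (pow_ne_zero _ (X_ne_zero i))
  have h7 : algebraMap (S n) K (X i ^ M *
      (X i ^ N' * s i - X i ^ N * ∑ a, C (μ a) * s' a i - X i ^ (N + N') * f)) =
      xp {i} ^ (M + N + N') • (t i - ∑ a, algebraMap (S n) K (C (μ a)) *
        (algebraMap (S n) K (s' a i) * (algebraMap (S n) K (X i ^ N'))⁻¹) -
        algebraMap (S n) K f) := by
    have h8 : ∑ a, algebraMap (S n) K (C (μ a)) *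
        (algebraMap (S n) K (s' a i) * (algebraMap (S n) K (X i ^ N'))⁻¹) =
        algebraMap (S n) K (∑ a, C (μ a) * s' a i) * (algebraMap (S n) K (X i ^ N'))⁻¹ := by
      rw [map_sum, Finset.sum_mul]
      refine Finset.sum_congr rfl fun a _ => ?_
      rw [map_mul]; ring
    rw [h8, xp_one, Algebra.smul_def]
    have h9 := hs1 i
    rw [map_pow] at h9 h6
    simp only [map_mul, map_sub, map_pow, pow_add]
    rw [h9]
    field_simp
  rw [← h7]
  exact h5

end Pool.Agent.K6.H64.VB
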