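import Pool.Agent.K6.H64.VB.Chain
import Pool.Agent.K6.H64.VB.Der
import Pool.Agent.K6.H64.VB.Frame

/-! The Atiyah class of a bundle of rank two (helper64). -/

set_option autoImplicit false
set_option linter.all false

open MvPolynomial H960VB Matrix

namespace Pool.Agent.K6.H64.VB

variable {n : ℕ} {K : Type} [Field K] [Algebra (S n) K] [IsFractionRing (S n) K]

theorem Ext.comb {ι : Type} [Fintype ι] {r : ℤ} {N : ι → S n → S n} {θ : ι → K → K}
    (h : ∀ a, Ext r (N a) (θ a)) (u : ι → ℂ) :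
    Ext r (fun p => ∑ a, (C (u a) : S n) * N a p)
      (fun q => ∑ a, algebraMap (S n) K (C (u a)) * θ a q) where
  add := fun p q => by
    simp only [(h _).add, mul_add, Finset.sum_add_distrib]
  mul := fun p q => by
    simp only [(h _).mul, mul_add, Finset.sum_add_distrib, Finset.sum_mul, Finset.mul_sum]
    congr 1
    · exact Finset.sum_congr rfl fun a _ => by ring
    · exact Finset.sum_congr rfl fun a _ => by ring
  am := fun p => by
    rw [map_sum]
    refine Finset.sum_congr rfl fun a _ => ?_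
    rw [(h a).am, map_mul]
  hm := fun q k hq => by
    refine Hm.sum _ fun a _ => ?_
    have := (Hm.of_homZ (K := K)
      (Or.inr ⟨0, rfl, isHomogeneous_C _ (u a)⟩ : HomZ (C (u a) : S n) ((0 : ℕ) : ℤ))).mul
      ((h a).hm q k hq)
    simpa using this

/-- the Atiyah class, for a family of derivations -/
theorem Ext.fam {ι : Type} [Fintype ι] {r : ℤ} {N : ι → S n → S n} {θ : ι → K → K}
    (h : ∀ a, Ext r (N a) (θ a)) (hn : 2 ≤ n) {M : Submodule (S n) (Fin 2 → K)} (hG : Geo M) :
    ∃ Y : (ι → ℂ) → Fin (n + 1) → Fin (n + 1) → M2 K, Fam M r Y ∧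
      ∀ u, Cob (A0 M) (Y u) → ∃ (θ' : K → K) (D : M2 K),
        Ext r (fun p => ∑ a, (MvPolynomial.C (u a) : S n) * N a p) θ' ∧ HmM n r D ∧
        ∀ v ∈ M, θv θ' v + D.mulVec v ∈ M := by
  choose B hBh hBd hBl using fun a => (h a).data hn hG
  refine ⟨fun u i j => ∑ a, (MvPolynomial.C (u a) : S n) • (B a j - B a i),
    ⟨fun u u' i j => ?_, fun c u i j => ?_, fun u => ⟨fun i j => ?_, fun i j k => ?_⟩,
      fun u i j => ?_⟩, fun u hu => ?_⟩
  · show ∑ a, (MvPolynomial.C (u a + u' a) : S n) • (B a j - B a i) = _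
    rw [← Finset.sum_add_distrib]
    exact Finset.sum_congr rfl fun a _ => by rw [MvPolynomial.C_add, add_smul]
  · show ∑ a, (MvPolynomial.C (c * u a) : S n) • (B a j - B a i) = _
    rw [Finset.smul_sum]
    exact Finset.sum_congr rfl fun a _ => by rw [MvPolynomial.C_mul, mul_smul]
  · exact Submodule.sum_mem _ fun a _ => Submodule.smul_mem _ _ (hBd a i j)
  · show ∑ a, (MvPolynomial.C (u a) : S n) • (B a j - B a i) +
      ∑ a, (MvPolynomial.C (u a) : S n) • (B a k - B a j) =
      ∑ a, (MvPolynomial.C (u a) : S n) • (B a k - B a i)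
    rw [← Finset.sum_add_distrib]
    refine Finset.sum_congr rfl fun a _ => ?_
    rw [← smul_add]
    congr 1
    abel
  · exact HmM.sum _ fun a => C_smul_hm (u a) (hgrM.sub _ _ _ (hBh a j) (hBh a i))
  · obtain ⟨D, hD, hDM⟩ := (Ext.comb h u).glue hG
      (C := fun i => ∑ a, (MvPolynomial.C (u a) : S n) • B a i) (fun i v hv => by
        have e1 : θv (fun q => ∑ a, algebraMap (S n) K (MvPolynomial.C (u a)) * θ a q) v +
            (∑ a, (MvPolynomial.C (u a) : S n) • B a i).mulVec v =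
            ∑ a, (MvPolynomial.C (u a) : S n) • (θv (θ a) v + (B a i).mulVec v) := by
          simp only [smul_add, Finset.sum_add_distrib, ← smul_mulVec]
          rw [Matrix.sum_mulVec]
          congr 1
          funext s
          rw [Finset.sum_apply]
          exact Finset.sum_congr rfl fun a _ => (Algebra.smul_def _ _).symm
        rw [e1]
        exact Submodule.sum_mem _ fun a _ => Submodule.smul_mem _ _ (hBl a i v hv))
      (hu.congr fun i j => by
        rw [← Finset.sum_sub_distrib]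
        exact Finset.sum_congr rfl fun a _ => smul_sub _ _ _)
    exact ⟨_, D, Ext.comb h u, hD, hDM⟩

/-- lifts to operators on the sections -/
theorem Ext.sections {E : Bundle2 n} (F : Frm E) {r : ℤ} {N : S n → S n} {θ : K → K}
    (h : Ext r N θ) {D : M2 K} (hD : HmM n r D) (hDM : ∀ v ∈ F.MM K, θv θ v + D.mulVec v ∈ F.MM K) :
    ∃ T : Vec E → Vec E, (∀ m G, E.IsSection m G → E.IsSection (m + r) (T G)) ∧
      (∀ G G', G ∈ Mp E → G' ∈ Mp E → T (G + G') = T G + T G') ∧
      ∀ (p : S n) G, G ∈ Mp E → T (p • G) = N p • G + p • T G := by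
  classical
  have h1 : ∀ G : Vec E, ∃ H : Vec E, G ∈ Mp E → H ∈ Mp E ∧
      F.ρ K H = θv θ (F.ρ K G) + D.mulVec (F.ρ K G) := by
    intro G
    by_cases hG : G ∈ Mp E
    · obtain ⟨H, hH, e⟩ := hDM _ ⟨G, hG, rfl⟩
      exact ⟨H, fun _ => ⟨hH, e⟩⟩
    · exact ⟨0, fun h => absurd h hG⟩
  choose T hT using h1
  refine ⟨T, fun m G hG => ?_, fun G G' hG hG' => ?_, fun p G hG => ?_⟩
  · have hGM := mem_Mp_of_section hG
    obtain ⟨h2, h3⟩ := hT G hGM
    have h4 : HmV n (m - F.m + r) (F.ρ K (T G)) := by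
      rw [h3]
      have h5 := F.hm_ρ (K := K) hG
      refine hgrV.add (fun i => h.hm _ _ (h5 i)) ?_
      have := hmV_mulVec hD h5
      rwa [add_comm] at this
    have := F.sec_of_hm h2 h4
    rwa [show m - F.m + r + F.m = m + r by ring] at this
  · have hS := (Mp E).add_mem hG hG'
    refine F.ρ_inj (K := K) (hT _ hS).1 ((Mp E).add_mem (hT _ hG).1 (hT _ hG').1) ?_
    rw [(hT _ hS).2, F.ρ_add, F.ρ_add, (hT _ hG).2, (hT _ hG').2, h.vadd, mulVec_add]
    abel
  · have hS := (Mp E).smul_mem p hG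
    refine F.ρ_inj (K := K) (hT _ hS).1
      ((Mp E).add_mem ((Mp E).smul_mem _ hG) ((Mp E).smul_mem _ (hT _ hG).1)) ?_
    rw [(hT _ hS).2, F.ρ_smul, F.ρ_add, F.ρ_smul, F.ρ_smul, (hT _ hG).2, h.smul, mulVec_smul,
      smul_add]
    abel

end Pool.Agent.K6.H64.VB
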