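import Pool.Agent.K6.H64.VB.Koszul

/-! Graded modules of sections (helper64). -/

set_option autoImplicit false
set_option linter.all false

open MvPolynomial H960VB Matrix

namespace Pool.Agent.K6.H64.VB

variable {n : ℕ} {K : Type} [Field K] [Algebra (S n) K] [IsFractionRing (S n) K]

/-- homogeneous vectors -/
def HmV (n : ℕ) {K : Type} [Field K] [Algebra (S n) K] {ι : Type} (k : ℤ) (v : ι → K) : Prop :=
  ∀ i, Hm n k (v i)

/-- homogeneous matrices -/
def HmM (n : ℕ) {K : Type} [Field K] [Algebra (S n) K] (k : ℤ) (X : M2 K) : Prop :=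
  ∀ i j, Hm n k (X i j)

/-- the module of all sections of a bundle of rank two, in a basis of homogeneous sections -/
structure Geo (M : Submodule (S n) (Fin 2 → K)) : Prop where
  e : ∀ i : Fin 2, (Pi.single i 1 : Fin 2 → K) ∈ M
  dec : ∀ v ∈ M, ∃ (s : Finset ℤ) (f : ℤ → Fin 2 → K),
    (∀ k ∈ s, f k ∈ M ∧ HmV n k (f k)) ∧ v = ∑ k ∈ s, f k
  chart : ∀ x : Fin (n + 1) → ℂ, x ≠ 0 → ∃ P g, IsChart M x P g
  sat : ∀ v, (∀ i, v ∈ locI {i} M) → v ∈ M

end Pool.Agent.K6.H64.VB
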