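import Pool.Agent.K6.H64.VB.Geo

/-! Graded submodules (helper64). -/

set_option autoImplicit false
set_option linter.all false

open MvPolynomial H960VB Matrix

namespace Pool.Agent.K6.H64.VB

variable {n : ℕ} {K : Type} [Field K] [Algebra (S n) K] [IsFractionRing (S n) K]

/-- a notion of homogeneous elements of a vector space over `K` -/
structure Hgr (n : ℕ) {K : Type} [Field K] [Algebra (S n) K] {V : Type} [AddCommGroup V]
    [Module K V] (H : ℤ → V → Prop) : Prop where
  zero : ∀ k, H k 0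
  sub : ∀ k v w, H k v → H k w → H k (v - w)
  uniq : ∀ (s : Finset ℤ) (f : ℤ → V), (∀ k ∈ s, H k (f k)) → ∑ k ∈ s, f k = 0 → ∀ k ∈ s, f k = 0
  smul : ∀ k l (q : K) v, Hm n k q → H l v → H (k + l) (q • v)

theorem hgrK : Hgr n (K := K) (V := K) (Hm n) where
  zero := Hm.zero
  sub := fun k v w h h' => h.sub h'
  uniq := fun s f h h0 => Hm.unique h h0
  smul := fun k l q v h h' => h.mul h'

theorem hgrV {ι : Type} : Hgr n (K := K) (V := ι → K) (HmV n) where
  zero := fun k i => Hm.zero k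
  sub := fun k v w h h' i => (h i).sub (h' i)
  uniq := fun s f h h0 k hk => by
    funext i
    refine Hm.unique (n := n) (f := fun k => f k i) (fun k hk => h k hk i) ?_ k hk
    have := congrFun h0 i
    rwa [Finset.sum_apply] at this
  smul := fun k l q v h h' i => h.mul (h' i)

theorem hgrM : Hgr n (K := K) (V := M2 K) (HmM n) where
  zero := fun k i j => Hm.zero k
  sub := fun k v w h h' i j => (h i j).sub (h' i j)
  uniq := fun s f h h0 k hk => by
    refine Matrix.ext fun i j => ?_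
    refine Hm.unique (n := n) (f := fun k => f k i j) (fun k hk => h k hk i j) ?_ k hk
    have := congrFun (congrFun h0 i) j
    rwa [Matrix.sum_apply] at this
  smul := fun k l q v h h' i j => h.mul (h' i j)

section gen

variable {V V' : Type} [AddCommGroup V] [Module K V] [AddCommGroup V'] [Module K V']
  {H : ℤ → V → Prop} {H' : ℤ → V' → Prop}

theorem Hgr.neg (hH : Hgr n (K := K) H) {k : ℤ} {v : V} (h : H k v) : H k (-v) := by
  have := hH.sub k 0 v (hH.zero k) h
  rwa [zero_sub] at this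

theorem Hgr.add (hH : Hgr n (K := K) H) {k : ℤ} {v w : V} (h : H k v) (h' : H k w) :
    H k (v + w) := by
  have := hH.sub k v (-w) h (hH.neg h')
  rwa [sub_neg_eq_add] at this

/-- uniqueness of the homogeneous decomposition -/
theorem Hgr.eq (hH : Hgr n (K := K) H) {s s' : Finset ℤ} {f f' : ℤ → V}
    (h : ∀ k ∈ s, H k (f k)) (h' : ∀ k ∈ s', H k (f' k)) (he : ∑ k ∈ s, f k = ∑ k ∈ s', f' k)
    (k : ℤ) : (if k ∈ s then f k else 0) = if k ∈ s' then f' k else 0 := by
  classical
  by_cases hk : k ∈ s ∪ s'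
  · have h1 := hH.uniq (s ∪ s') (fun k => (if k ∈ s then f k else 0) - if k ∈ s' then f' k else 0)
      (fun k _ => hH.sub k _ _ (by split_ifs with h0; exacts [h k h0, hH.zero k])
        (by split_ifs with h0; exacts [h' k h0, hH.zero k])) (by
      rw [Finset.sum_sub_distrib, Finset.sum_ite_mem, Finset.sum_ite_mem,
        Finset.union_inter_cancel_left, Finset.union_inter_cancel_right, he, sub_self]) k hk
    exact sub_eq_zero.1 h1
  · rw [Finset.mem_union, not_or] at hk
    rw [if_neg hk.1, if_neg hk.2]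

/-- homogeneous components with respect to a linear map of degree `d` -/
theorem Hgr.comp (hH' : Hgr n (K := K) H') {L : V →+ V'} {d : ℤ}
    (hL : ∀ m v, H m v → H' (m + d) (L v)) (h0 : ∀ k, H k 0) {s : Finset ℤ} {f : ℤ → V} (hf : ∀ k ∈ s, H k (f k))
    {k : ℤ} (hk : H' (k + d) (L (∑ m ∈ s, f m))) :
    L (if k ∈ s then f k else 0) = L (∑ m ∈ s, f m) := by
  classical
  have h1 := hH'.eq (s := s.map (addRightEmbedding d)) (s' := {k + d})
    (f := fun m => L (f (m - d))) (f' := fun _ => L (∑ m ∈ s, f m)) (fun m hm => by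
      rw [Finset.mem_map] at hm
      obtain ⟨l, hl, rfl⟩ := hm
      simp only [addRightEmbedding_apply, add_sub_cancel_right]
      exact hL l _ (hf l hl)) (fun m hm => by
      rw [Finset.mem_singleton] at hm
      rw [hm]; exact hk) (by
      rw [Finset.sum_map, Finset.sum_singleton, map_sum]
      refine Finset.sum_congr rfl fun m _ => ?_
      simp only [addRightEmbedding_apply, add_sub_cancel_right]) (k + d)
  rw [if_pos (Finset.mem_singleton_self _)] at h1
  rw [← h1]
  by_cases hks : k ∈ s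
  · rw [if_pos hks, if_pos (by rw [Finset.mem_map]; exact ⟨k, hks, rfl⟩)]
    simp only [add_sub_cancel_right]
  · rw [if_neg hks, if_neg, map_zero]
    rw [Finset.mem_map]
    rintro ⟨l, hl, hle⟩
    simp only [addRightEmbedding_apply, add_left_inj] at hle
    exact hks (hle ▸ hl)

variable [Module (S n) V] [IsScalarTower (S n) K V]

/-- graded submodules -/
def Gr (H : ℤ → V → Prop) (W : Submodule (S n) V) : Prop :=
  ∀ v ∈ W, ∃ (s : Finset ℤ) (f : ℤ → V), (∀ k ∈ s, f k ∈ W ∧ H k (f k)) ∧ v = ∑ k ∈ s, f k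

theorem Gr.proj (hH : Hgr n (K := K) H) {W : Submodule (S n) V} (hW : Gr H W) {s : Finset ℤ}
    {f : ℤ → V} (hf : ∀ k ∈ s, H k (f k)) (hv : ∑ k ∈ s, f k ∈ W) : ∀ k ∈ s, f k ∈ W := by
  intro k hk
  obtain ⟨s', f', hf', he⟩ := hW _ hv
  have h1 := hH.eq hf (fun k hk => (hf' k hk).2) he k
  rw [if_pos hk] at h1
  rw [h1]
  split_ifs with h
  · exact (hf' k h).1
  · exact W.zero_mem

theorem Gr.sel (hH : Hgr n (K := K) H) (hH' : Hgr n (K := K) H') {W : Submodule (S n) V} (hW : Gr H W)
    {L : V →+ V'} {d : ℤ} (hL : ∀ m v, H m v → H' (m + d) (L v)) {v : V} (hv : v ∈ W) {k : ℤ}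
    (hk : H' (k + d) (L v)) : ∃ v' ∈ W, H k v' ∧ L v' = L v := by
  classical
  obtain ⟨s, f, hf, rfl⟩ := hW v hv
  refine ⟨if k ∈ s then f k else 0, ?_, ?_, hH'.comp hL hH.zero (fun k hk => (hf k hk).2) hk⟩
  · split_ifs with h
    · exact (hf k h).1
    · exact W.zero_mem
  · split_ifs with h
    · exact (hf k h).2
    · exact hH.zero k

theorem hm_xp (I : Finset (Fin (n + 1))) (N : ℕ) :
    Hm n ((I.card * N : ℕ) : ℤ) (algebraMap (S n) K (xp I ^ N)) :=
  Hm.of_homZ (Or.inr ⟨_, rfl, (xp_homogeneous I).pow N⟩)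

theorem Gr.loc (hH : Hgr n (K := K) H) {W : Submodule (S n) V} (hW : Gr H W)
    (I : Finset (Fin (n + 1))) : Gr H (locI I W) := by
  classical
  rintro v ⟨N, hN⟩
  obtain ⟨s, f, hf, he⟩ := hW _ hN
  let q := algebraMap (S n) K (xp I ^ N)
  have hq0 : q ≠ 0 := am_ne (pow_ne_zero _ (xp_ne_zero _))
  let r : ℤ := ((I.card * N : ℕ) : ℤ)
  have hq : Hm n (-r) q⁻¹ := (hm_xp I N).inv
  refine ⟨s.map (addRightEmbedding (-r)), fun k => q⁻¹ • f (k + r), ?_, ?_⟩
  · intro k hk
    rw [Finset.mem_map] at hk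
    obtain ⟨l, hl, rfl⟩ := hk
    have e : addRightEmbedding (-r) l + r = l := by
      rw [addRightEmbedding_apply]; ring
    simp only [e]
    refine ⟨⟨N, ?_⟩, ?_⟩
    · rw [smul_eq_am (K := K)]
      show q • (q⁻¹ • f l) ∈ W
      rw [smul_inv_smul₀ hq0]
      exact (hf l hl).1
    · have := hH.smul _ _ _ _ hq (hf l hl).2
      rw [addRightEmbedding_apply, add_comm]
      exact this
  · rw [Finset.sum_map]
    have : ∀ l ∈ s, q⁻¹ • f (addRightEmbedding (-r) l + r) = q⁻¹ • f l := fun l _ => by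
      rw [addRightEmbedding_apply]; congr 2; ring
    rw [Finset.sum_congr rfl this, ← Finset.smul_sum, ← he, smul_eq_am (K := K)]
    show v = q⁻¹ • (q • v)
    rw [inv_smul_smul₀ hq0]

end gen

theorem hmV_mulVec {k l : ℤ} {X : M2 K} {v : Fin 2 → K} (hX : HmM n k X) (hv : HmV n l v) :
    HmV n (k + l) (X.mulVec v) := fun i => by
  rw [Matrix.mulVec, dotProduct, Fin.sum_univ_two]
  exact ((hX i 0).mul (hv 0)).add ((hX i 1).mul (hv 1))

theorem hmM_mul {k l : ℤ} {X Y : M2 K} (hX : HmM n k X) (hY : HmM n l Y) :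
    HmM n (k + l) (X * Y) := fun i j => by
  rw [Matrix.mul_apply, Fin.sum_univ_two]
  exact ((hX i 0).mul (hY 0 j)).add ((hX i 1).mul (hY 1 j))

theorem hm_trace {k : ℤ} {X : M2 K} (hX : HmM n k X) : Hm n k X.trace := by
  rw [Matrix.trace, Fin.sum_univ_two]
  exact (hX 0 0).add (hX 1 1)

theorem mulVec_e (X : M2 K) (j i : Fin 2) : X.mulVec (Pi.single j 1) i = X i j := by
  rw [mulVec_single_one]; rfl

/-- matrices whose columns are sections are sums of homogeneous ones -/
theorem Geo.matrix {M : Submodule (S n) (Fin 2 → K)} (hG : Geo M) {X : M2 K}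
    (hX : ∀ j, X.mulVec (Pi.single j 1) ∈ M) :
    ∃ (s : Finset ℤ) (f : ℤ → M2 K), (∀ k ∈ s, HmM n k (f k)) ∧ X = ∑ k ∈ s, f k := by
  classical
  choose s f hf he using fun j => hG.dec _ (hX j)
  refine ⟨s 0 ∪ s 1, fun k => Matrix.of fun i j => if k ∈ s j then f j k i else 0, ?_, ?_⟩
  · intro k _ i j
    show Hm n k (if k ∈ s j then f j k i else 0)
    split_ifs with h
    · exact (hf j k h).2 i
    · exact Hm.zero k
  · refine Matrix.ext fun i j => ?_
    rw [Matrix.sum_apply, ← mulVec_e X j i, he j, Finset.sum_apply]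
    have hsub : s j ⊆ s 0 ∪ s 1 := by
      fin_cases j
      · exact Finset.subset_union_left
      · exact Finset.subset_union_right
    rw [← Finset.sum_subset hsub]
    · refine Finset.sum_congr rfl fun k hk => ?_
      show f j k i = if k ∈ s j then f j k i else 0
      rw [if_pos hk]
    · intro k _ hk
      show (if k ∈ s j then f j k i else 0) = 0
      rw [if_neg hk]

theorem Geo.grM {M : Submodule (S n) (Fin 2 → K)} (hG : Geo M) : Gr (HmV n) M := hG.dec

/-- homogeneous components of endomorphisms -/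
theorem Geo.endo {M : Submodule (S n) (Fin 2 → K)} (hG : Geo M) {s : Finset ℤ} {f : ℤ → M2 K}
    (hf : ∀ k ∈ s, HmM n k (f k)) (h : ∀ v ∈ M, (∑ k ∈ s, f k).mulVec v ∈ M) :
    ∀ k ∈ s, ∀ v ∈ M, (f k).mulVec v ∈ M := by
  classical
  intro k hk v hv
  obtain ⟨t, g, hg, rfl⟩ := hG.dec v hv
  have key : ∀ l ∈ t, (f k).mulVec (g l) ∈ M := by
    intro l hl
    have h1 := h (g l) (hg l hl).1
    have h2 : (∑ k ∈ s, f k).mulVec (g l) =
        ∑ m ∈ s.map (addRightEmbedding l), (f (m - l)).mulVec (g l) := by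
      rw [Finset.sum_map, Matrix.sum_mulVec]
      refine Finset.sum_congr rfl fun m _ => ?_
      simp only [addRightEmbedding_apply, add_sub_cancel_right]
    rw [h2] at h1
    have h3 := hG.grM.proj hgrV (f := fun m => (f (m - l)).mulVec (g l)) (fun m hm => by
      rw [Finset.mem_map] at hm
      obtain ⟨m', hm', rfl⟩ := hm
      simp only [addRightEmbedding_apply, add_sub_cancel_right]
      exact hmV_mulVec (hf m' hm') (hg l hl).2) h1 (k + l) (by
      rw [Finset.mem_map]; exact ⟨k, hk, rfl⟩)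
    simpa using h3
  rw [Matrix.mulVec_sum]
  exact M.sum_mem fun l hl => key l hl

theorem Geo.grA {M : Submodule (S n) (Fin 2 → K)} (hG : Geo M) : Gr (HmM n) (A0 M) := by
  classical
  intro X hX
  obtain ⟨s, f, hf, he⟩ := hG.matrix fun j => hX.2 _ (hG.e j)
  refine ⟨s, f, fun k hk => ⟨⟨?_, ?_⟩, hf k hk⟩, he⟩
  · refine hgrK.uniq s (fun k => (f k).trace) (fun k hk => hm_trace (hf k hk)) ?_ k hk
    rw [← Matrix.trace_sum, ← he]
    exact hX.1
  · refine hG.endo hf ?_ k hk
    rw [← he]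
    exact hX.2

end Pool.Agent.K6.H64.VB
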