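import Pool.Agent.K6.H64.VB.Lift
import Pool.Agent.H960R2.VB.TaskC2

/-! Sections of a bundle of rank two (helper64). -/

set_option autoImplicit false
set_option linter.all false

open MvPolynomial H960VB

namespace Pool.Agent.K6.H64.VB

variable {n : ℕ}

/-- vectors of polynomials -/
abbrev Vec (E : Bundle2 n) : Type := Fin E.a → S n

/-- the coordinates of the exterior product -/
noncomputable def wedge {a : ℕ} (G G' : Fin a → S n) (i j : Fin a) : S n :=
  G i * G' j - G j * G' i

/-- the polynomial vectors with values in the bundle -/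
noncomputable def Mp (E : Bundle2 n) : Submodule (S n) (Vec E) :=
  LinearMap.ker (Matrix.mulVecLin E.B)

theorem mem_Mp {E : Bundle2 n} {G : Vec E} : G ∈ Mp E ↔ ∀ r, ∑ i, E.B r i * G i = 0 := by
  unfold Mp
  rw [LinearMap.mem_ker, Matrix.mulVecLin_apply]
  constructor
  · intro h r
    exact congrFun h r
  · intro h
    funext r
    exact h r

theorem evm_evv {E : Bundle2 n} (G : Vec E) (x : Fin (n + 1) → ℂ) (r : Fin E.c) :
    (evm E.B x).mulVec (evv G x) r = eval x (∑ i, E.B r i * G i) := by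
  rw [map_sum (eval x)]
  show ∑ i, evm E.B x r i * evv G x i = _
  refine Finset.sum_congr rfl fun i _ => ?_
  rw [map_mul]
  rfl

theorem mem_Mp_of_section {E : Bundle2 n} {d : ℤ} {G : Vec E} (h : E.IsSection d G) :
    G ∈ Mp E := by
  rw [mem_Mp]
  intro r
  refine TaskC2.ext_off_zero (by omega) fun x hx => ?_
  have h1 := h.2 x hx
  rw [Bundle2.fib, LinearMap.mem_ker, Matrix.mulVecLin_apply] at h1
  rw [← evm_evv, h1, map_zero]
  rfl

theorem section_of_mem_Mp {E : Bundle2 n} {d : ℤ} {G : Vec E} (h : G ∈ Mp E)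
    (hG : ∀ i, HomZ (G i) (E.β i + d)) : E.IsSection d G := by
  refine ⟨hG, fun x hx => ?_⟩
  rw [Bundle2.fib, LinearMap.mem_ker, Matrix.mulVecLin_apply]
  funext r
  rw [evm_evv, mem_Mp.1 h r, map_zero]
  rfl

/-- homogeneous components -/
theorem Mp_dec {E : Bundle2 n} {G : Vec E} (h : G ∈ Mp E) :
    ∃ (s : Finset ℤ) (f : ℤ → Vec E), (∀ k ∈ s, E.IsSection k (f k)) ∧ G = ∑ k ∈ s, f k := by
  classical
  let f : ℤ → Vec E := fun k i =>
    if 0 ≤ E.β i + k then homogeneousComponent (E.β i + k).toNat (G i) else 0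
  let s : Finset ℤ := Finset.univ.biUnion fun i : Fin E.a =>
    (Finset.range ((G i).totalDegree + 1)).image fun m : ℕ => (m : ℤ) - E.β i
  have hf : ∀ k i, HomZ (f k i) (E.β i + k) := by
    intro k i
    show HomZ (if 0 ≤ E.β i + k then homogeneousComponent (E.β i + k).toNat (G i) else 0) _
    split_ifs with h0
    · exact Or.inr ⟨(E.β i + k).toNat, Int.toNat_of_nonneg h0,
        homogeneousComponent_isHomogeneous _ _⟩
    · exact Or.inl rfl
  have hs : ∀ i, G i = ∑ k ∈ s, f k i := by
    intro i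
    have h1 : (Finset.range ((G i).totalDegree + 1)).image (fun m : ℕ => (m : ℤ) - E.β i) ⊆ s :=
      Finset.subset_biUnion_of_mem (fun i : Fin E.a =>
        (Finset.range ((G i).totalDegree + 1)).image fun m : ℕ => (m : ℤ) - E.β i) (Finset.mem_univ i)
    rw [← Finset.sum_subset h1]
    · rw [Finset.sum_image (fun a _ b _ hab => by
        have : (a : ℤ) - E.β i = b - E.β i := hab
        omega)]
      conv_lhs => rw [← sum_homogeneousComponent (G i)]
      refine Finset.sum_congr rfl fun m _ => ?_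
      show _ = if 0 ≤ E.β i + ((m : ℤ) - E.β i) then
        homogeneousComponent (E.β i + ((m : ℤ) - E.β i)).toNat (G i) else 0
      rw [show E.β i + ((m : ℤ) - E.β i) = m by ring, if_pos (by omega), Int.toNat_natCast]
    · intro k _ hk
      show (if 0 ≤ E.β i + k then homogeneousComponent (E.β i + k).toNat (G i) else 0) = 0
      split_ifs with h0
      · refine homogeneousComponent_eq_zero _ _ ?_
        by_contra hcon
        apply hk
        rw [Finset.mem_image]
        exact ⟨(E.β i + k).toNat, by rw [Finset.mem_range]; omega, by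
          rw [Int.toNat_of_nonneg h0]; ring⟩
      · rfl
  refine ⟨s, f, fun k hk => section_of_mem_Mp ?_ (hf k), ?_⟩
  · rw [mem_Mp]
    intro r
    have h1 := Hm.unique (n := n) (K := FractionRing (S n)) (s := s.map (addRightEmbedding (E.γ r)))
      (f := fun m => algebraMap (S n) (FractionRing (S n)) (∑ i, E.B r i * f (m - E.γ r) i))
      (fun m hm => Hm.of_homZ (homZ_sum _ fun i => by
        have := homZ_mul (E.hom r i) (hf (m - E.γ r) i)
        rwa [show E.γ r - E.β i + (E.β i + (m - E.γ r)) = m by ring] at this)) (by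
      rw [← map_sum, Finset.sum_map]
      have h2 : ∑ k ∈ s, ∑ i, E.B r i * f (addRightEmbedding (E.γ r) k - E.γ r) i =
          ∑ i, E.B r i * G i := by
        rw [Finset.sum_comm]
        refine Finset.sum_congr rfl fun i _ => ?_
        rw [hs i, Finset.mul_sum]
        refine Finset.sum_congr rfl fun k _ => ?_
        rw [addRightEmbedding_apply, add_sub_cancel_right]
      rw [h2, mem_Mp.1 h r, map_zero]) (k + E.γ r) (by
      rw [Finset.mem_map]; exact ⟨k, hk, rfl⟩)
    rw [add_sub_cancel_right] at h1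
    apply am_inj (K := FractionRing (S n))
    rw [h1, map_zero]
  · funext i
    rw [hs i, Finset.sum_apply]

theorem three_in_plane {a : ℕ} (V : Submodule ℂ (Fin a → ℂ)) (hV : Module.finrank ℂ V = 2)
    {u w z : Fin a → ℂ} (hu : u ∈ V) (hw : w ∈ V) (hz : z ∈ V) (i j l : Fin a) :
    (u i * w j - u j * w i) * z l =
      (z i * w j - z j * w i) * u l + (u i * z j - u j * z i) * w l := by
  have b := Module.finBasisOfFinrankEq ℂ V hV
  have key : ∀ v ∈ V, ∃ p q : ℂ, ∀ t, v t = p * (b 0 : Fin a → ℂ) t + q * (b 1 : Fin a → ℂ) t := by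
    intro v hv
    have h1 := b.sum_repr ⟨v, hv⟩
    rw [Fin.sum_univ_two] at h1
    refine ⟨b.repr ⟨v, hv⟩ 0, b.repr ⟨v, hv⟩ 1, fun t => ?_⟩
    have h2 := congrArg (fun y : V => (y : Fin a → ℂ) t) h1
    simp only [Submodule.coe_add, Submodule.coe_smul, Pi.add_apply, Pi.smul_apply,
      smul_eq_mul] at h2
    exact h2.symm
  obtain ⟨p1, q1, e1⟩ := key u hu
  obtain ⟨p2, q2, e2⟩ := key w hw
  obtain ⟨p3, q3, e3⟩ := key z hz
  simp only [e1, e2, e3]
  ring

theorem evv_mem_fib {E : Bundle2 n} {G : Vec E} (h : G ∈ Mp E) (x : Fin (n + 1) → ℂ) :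
    evv G x ∈ LinearMap.ker (Matrix.mulVecLin (evm E.B x)) := by
  rw [LinearMap.mem_ker, Matrix.mulVecLin_apply]
  funext r
  rw [evm_evv, mem_Mp.1 h r, map_zero]
  rfl

/-- Cramer's rule -/
theorem cramer {E : Bundle2 n} {G G' G'' : Vec E} (h : G ∈ Mp E) (h' : G' ∈ Mp E)
    (h'' : G'' ∈ Mp E) (i j l : Fin E.a) :
    wedge G G' i j * G'' l = wedge G'' G' i j * G l + wedge G G'' i j * G' l := by
  refine TaskC2.ext_off_zero (by omega) fun x hx => ?_
  have := three_in_plane _ (E.rank_two x hx) (evv_mem_fib h x) (evv_mem_fib h' x)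
    (evv_mem_fib h'' x) i j l
  simpa [wedge, evv] using this

/-- local bases given by homogeneous sections -/
theorem exists_local (hn : 1 ≤ n) (E : Bundle2 n) (x : Fin (n + 1) → ℂ) (hx : x ≠ 0) :
    ∃ (m m' : ℤ) (G G' : Vec E) (i j : Fin E.a), E.IsSection m G ∧ E.IsSection m' G' ∧
      eval x (wedge G G' i j) ≠ 0 := by
  obtain ⟨m, α, F, hFh, hF0, hFs⟩ := kernel_family E.β E.γ E.B E.hom E.rank_two
  obtain ⟨s, t, i, j, h⟩ := TaskC2.exists_wedge_ne (fun s => evv (F s) x) _ (E.rank_two x hx)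
    (hFs x hx)
  have hsec : ∀ s, E.IsSection (-α s) (F s) := by
    intro s
    refine ⟨fun i => by rw [← sub_eq_add_neg]; exact hFh s i, fun x hx => ?_⟩
    rw [Bundle2.fib, LinearMap.mem_ker, Matrix.mulVecLin_apply]
    exact hF0 x hx s
  refine ⟨-α s, -α t, F s, F t, i, j, hsec s, hsec t, ?_⟩
  simpa [wedge, evv] using h

theorem smul_section {E : Bundle2 n} {d : ℤ} {G : Vec E} (h : E.IsSection d G) {p : S n} {e : ℤ}
    (hp : HomZ p e) : E.IsSection (d + e) (p • G) :=
  section_of_mem_Mp ((Mp E).smul_mem _ (mem_Mp_of_section h)) fun i => by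
    have := homZ_mul hp (h.1 i)
    rwa [show e + (E.β i + d) = E.β i + (d + e) by ring] at this

theorem wedge_smul {a : ℕ} (p q : S n) (G G' : Fin a → S n) (i j : Fin a) :
    wedge (p • G) (q • G') i j = p * q * wedge G G' i j := by
  unfold wedge
  simp only [Pi.smul_apply, smul_eq_mul]
  ring

/-- two independent sections of the same twist -/
theorem exists_frame (hn : 1 ≤ n) (E : Bundle2 n) :
    ∃ (m : ℤ) (G G' : Vec E) (i j : Fin E.a), E.IsSection m G ∧ E.IsSection m G' ∧
      wedge G G' i j ≠ 0 := by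
  obtain ⟨m, m', G, G', i, j, h, h', hw⟩ := exists_local hn E (fun _ => 1) (by
    intro h
    have := congrFun h 0
    simp at this)
  have hw0 : wedge G G' i j ≠ 0 := am_eval_ne hw
  have hX : ∀ a : ℕ, HomZ ((X 0 : S n) ^ a) a := fun a => Or.inr ⟨a, rfl, by
    simpa using (isHomogeneous_X ℂ (0 : Fin (n + 1))).pow a⟩
  refine ⟨max m m', (X 0 : S n) ^ (max m m' - m).toNat • G, (X 0 : S n) ^ (max m m' - m').toNat • G',
    i, j, ?_, ?_, ?_⟩
  · have := smul_section h (hX (max m m' - m).toNat)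
    rwa [Int.toNat_of_nonneg (by omega), add_sub_cancel] at this
  · have := smul_section h' (hX (max m m' - m').toNat)
    rwa [Int.toNat_of_nonneg (by omega), add_sub_cancel] at this
  · rw [wedge_smul]
    exact mul_ne_zero (mul_ne_zero (pow_ne_zero _ (X_ne_zero _)) (pow_ne_zero _ (X_ne_zero _))) hw0

end Pool.Agent.K6.H64.VB
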