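import Pool.Agent.K6.H64.VB.Core

/-! The Koszul complex of a twisted endomorphism (helper64). -/

set_option autoImplicit false
set_option linter.all false

open MvPolynomial H960VB Matrix

namespace Pool.Agent.K6.H64.VB

variable {n : ℕ}

/-- `f` is in the ideal generated by `I` in the local ring of the point `x`. -/
def InLocal (x : Fin (n + 1) → ℂ) (I : Ideal (S n)) (f : S n) : Prop :=
  ∃ h : S n, eval x h ≠ 0 ∧ h * f ∈ I

/-- `a, b, c` is a regular sequence in the local ring of the point `x`. -/
def RegularAt (x : Fin (n + 1) → ℂ) (a b c : S n) : Prop :=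
  a ≠ 0 ∧ (∀ p, InLocal x (Ideal.span {a}) (b * p) → InLocal x (Ideal.span {a}) p) ∧
    ∀ p, InLocal x (Ideal.span {a, b}) (c * p) → InLocal x (Ideal.span {a, b}) p

/-- one of the three functions is not zero at `x`, or they form a regular sequence there -/
def Reg3 (x : Fin (n + 1) → ℂ) (a b c : S n) : Prop :=
  (eval x a ≠ 0 ∨ eval x b ≠ 0 ∨ eval x c ≠ 0) ∨ RegularAt x a b c

theorem koszul {x : Fin (n + 1) → ℂ} {a b c y1 y2 y3 : S n} (hr : Reg3 x a b c)
    (h : a * y1 + b * y2 + c * y3 = 0) : ∃ k w u v : S n, eval x k ≠ 0 ∧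
      k * y1 = -(w * b) - c * u ∧ k * y2 = w * a - c * v ∧ k * y3 = u * a + v * b := by
  rcases hr with (ha | hb | hc) | ⟨ha, hb, hc⟩
  · exact ⟨a, y2, y3, 0, ha, by linear_combination h, by ring, by ring⟩
  · exact ⟨b, -y1, 0, y3, hb, by ring, by linear_combination h, by ring⟩
  · exact ⟨c, 0, -y1, -y2, hc, by ring, by ring, by linear_combination h⟩
  · obtain ⟨h1, hh1, hy3⟩ := hc y3 ⟨1, by simp, by
      rw [one_mul]
      rw [Ideal.mem_span_pair]
      exact ⟨-y1, -y2, by linear_combination -h⟩⟩
    obtain ⟨u, v, huv⟩ := Ideal.mem_span_pair.1 hy3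
    obtain ⟨h2, hh2, hw⟩ := hb (h1 * y2 + c * v) ⟨1, by simp, by
      rw [one_mul, Ideal.mem_span_singleton']
      exact ⟨-(h1 * y1 + c * u), by linear_combination (-h1) * h - c * huv⟩⟩
    obtain ⟨w, hw⟩ := Ideal.mem_span_singleton'.1 hw
    refine ⟨h1 * h2, w, h2 * u, h2 * v, ?_, ?_, ?_, ?_⟩
    · rw [map_mul]; exact mul_ne_zero hh1 hh2
    · apply mul_left_cancel₀ ha
      linear_combination h1 * h2 * h + c * h2 * huv + b * hw
    · linear_combination -hw
    · linear_combination -h2 * huv

/-- the bracket -/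
def br {R : Type*} [Ring R] (A B : R) : R := A * B - B * A

variable {K : Type} [Field K] [Algebra (S n) K] [IsFractionRing (S n) K]

theorem br_smul (g : S n) (A B : M2 K) : br A (g • B) = g • br A B := by
  unfold br; rw [Matrix.mul_smul, smul_mul, smul_sub]

theorem br_add {R : Type*} [Ring R] (A B C : R) : br A (B + C) = br A B + br A C := by
  unfold br; rw [mul_add, add_mul]; abel

theorem br_sub {R : Type*} [Ring R] (A B C : R) : br A (B - C) = br A B - br A C := by
  unfold br; rw [mul_sub, sub_mul]; abel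

theorem tr_br (A B : M2 K) : (br A B).trace = 0 := by
  unfold br; rw [trace_sub, Matrix.trace_mul_comm, sub_self]

theorem tr_mul_br (A B : M2 K) : (A * br A B).trace = 0 := by
  unfold br
  rw [Matrix.mul_sub, trace_sub, ← Matrix.mul_assoc, ← Matrix.mul_assoc, Matrix.trace_mul_comm (A * B) A,
    ← Matrix.mul_assoc, sub_self]

theorem entry_of_trace {R : Type*} [CommRing R] {A : Matrix (Fin 2) (Fin 2) R} (h : A.trace = 0) :
    A 1 1 = - A 0 0 := by
  rw [Matrix.trace, Fin.sum_univ_two] at h
  exact eq_neg_of_add_eq_zero_right h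

/-- the square of the bracket with a trace free matrix -/
theorem br_br {A X : M2 K} (hA : A.trace = 0) (hX : X.trace = 0) :
    br A (br A X) = (2 * (A * A).trace) • X - (2 * (A * X).trace) • A := by
  have h1 := entry_of_trace hA
  have h2 := entry_of_trace hX
  unfold br
  ext i j
  fin_cases i <;> fin_cases j <;>
    simp [Matrix.mul_apply, Fin.sum_univ_two, Matrix.trace, h1, h2] <;> ring

/-- a matrix which commutes with a trace free matrix -/
theorem centralizer {F : Type} [Field F] (h2' : (2 : F) ≠ 0) {A X : M2 F} (hA : A.trace = 0)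
    (hX : X.trace = 0) (hA0 : A ≠ 0) (h : br A X = 0) : ∃ c : F, X = c • A := by
  have h1 := entry_of_trace hA
  have h2 := entry_of_trace hX
  have e1 := congrFun (congrFun h 0) 0
  have e2 := congrFun (congrFun h 0) 1
  have e3 := congrFun (congrFun h 1) 0
  simp [br, Matrix.mul_apply, Fin.sum_univ_two, h1, h2] at e1 e2 e3
  by_cases a0 : A 0 0 = 0
  · by_cases b0 : A 0 1 = 0
    · have c0 : A 1 0 ≠ 0 := by
        intro c0
        apply hA0
        ext i j
        fin_cases i <;> fin_cases j <;> simp [a0, b0, c0, h1]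
      refine ⟨X 1 0 / A 1 0, ?_⟩
      rw [a0] at e3
      rw [b0] at e1
      have x0 : X 0 0 = 0 := by
        have : A 1 0 * X 0 0 = 0 := by
          have : 2 * (A 1 0 * X 0 0) = 0 := by linear_combination e3
          exact (mul_eq_zero.1 this).resolve_left h2'
        exact (mul_eq_zero.1 this).resolve_left c0
      have x1 : X 0 1 = 0 := by
        have : X 0 1 * A 1 0 = 0 := by linear_combination -e1
        exact (mul_eq_zero.1 this).resolve_right c0
      ext i j
      fin_cases i <;> fin_cases j <;> simp [a0, b0, x0, x1, h1, h2]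
      field_simp
    · refine ⟨X 0 1 / A 0 1, ?_⟩
      rw [a0] at e2
      have x0 : X 0 0 = 0 := by
        have : 2 * (A 0 1 * X 0 0) = 0 := by linear_combination -e2
        exact (mul_eq_zero.1 ((mul_eq_zero.1 this).resolve_left h2')).resolve_left b0
      ext i j
      fin_cases i <;> fin_cases j <;> simp [a0, x0, h1, h2]
      · field_simp
      · field_simp
        linear_combination e1
  · refine ⟨X 0 0 / A 0 0, ?_⟩
    ext i j
    fin_cases i <;> fin_cases j <;> simp [h1, h2]
    · field_simp
    · field_simp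
      have : 2 * (A 0 0 * X 0 1 - X 0 0 * A 0 1) = 0 := by linear_combination e2
      linear_combination (mul_eq_zero.1 this).resolve_left h2'
    · field_simp
      have : 2 * (A 1 0 * X 0 0 - X 1 0 * A 0 0) = 0 := by linear_combination e3
      linear_combination -(mul_eq_zero.1 this).resolve_left h2'
    · field_simp

/-- the Koszul complex in a chart -/
theorem koszul_matrix {x : Fin (n + 1) → ℂ} {a b c : S n} (hr : Reg3 x a b c)
    {Y : Matrix (Fin 2) (Fin 2) (S n)} (hY : Y.trace = 0)
    (h : a * (2 * Y 0 0) + b * Y 0 1 + c * Y 1 0 = 0) :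
    ∃ (k : S n) (X : Matrix (Fin 2) (Fin 2) (S n)),
      eval x k ≠ 0 ∧ X.trace = 0 ∧ br !![a, c; b, -a] X = k • Y := by
  have h1 := entry_of_trace hY
  obtain ⟨k, w, u, v, hk, e1, e2, e3⟩ := koszul hr h
  refine ⟨2 * k, !![v, w; -u, -v], ?_, by simp [Matrix.trace, Fin.sum_univ_two], ?_⟩
  · rw [map_mul]
    refine mul_ne_zero ?_ hk
    rw [map_ofNat]
    norm_num
  · refine Matrix.ext fun i j => ?_
    have E : ∀ i j, br !![a, c; b, -a] !![v, w; -u, -v] i j = !![a, c; b, -a] i 0 * !![v, w; -u, -v] 0 j
        + !![a, c; b, -a] i 1 * !![v, w; -u, -v] 1 j - (!![v, w; -u, -v] i 0 * !![a, c; b, -a] 0 j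
        + !![v, w; -u, -v] i 1 * !![a, c; b, -a] 1 j) := by
      intro i j
      rw [br, Matrix.sub_apply, Matrix.mul_apply, Matrix.mul_apply, Fin.sum_univ_two,
        Fin.sum_univ_two]
    rw [E, Matrix.smul_apply, smul_eq_mul]
    fin_cases i <;> fin_cases j
    · simp
      linear_combination -e1
    · simp
      linear_combination (-2 : S n) * e2
    · simp
      linear_combination (-2 : S n) * e3
    · simp [h1]
      linear_combination e1

end Pool.Agent.K6.H64.VB
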