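import Pool.Agent.K6.H64.VB.Core3

/-! Lifts of derivations to a bundle (helper64). -/

set_option autoImplicit false
set_option linter.all false

open MvPolynomial H960VB Matrix

namespace Pool.Agent.K6.H64.VB

variable {n : ℕ} {K : Type} [Field K] [Algebra (S n) K] [IsFractionRing (S n) K]

/-- `θ` extends the derivation `N` of degree `r` -/
structure Ext (r : ℤ) (N : S n → S n) (θ : K → K) : Prop where
  add : ∀ a b, θ (a + b) = θ a + θ b
  mul : ∀ a b, θ (a * b) = θ a * b + a * θ b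
  am : ∀ p : S n, θ (algebraMap (S n) K p) = algebraMap (S n) K (N p)
  hm : ∀ q k, Hm n k q → Hm n (k + r) (θ q)

/-- the derivation, on vectors -/
def θv (θ : K → K) (v : Fin 2 → K) : Fin 2 → K := fun i => θ (v i)

/-- the derivation, on matrices -/
def θm (θ : K → K) (X : M2 K) : M2 K := Matrix.of fun i j => θ (X i j)

variable {r : ℤ} {N : S n → S n} {θ : K → K}

theorem Ext.zero (h : Ext r N θ) : θ 0 = 0 := by
  have := h.add 0 0
  rw [add_zero] at this
  exact left_eq_add.1 this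

theorem Ext.one (h : Ext r N θ) : θ 1 = 0 := by
  have := h.mul 1 1
  rw [mul_one, mul_one, one_mul] at this
  exact left_eq_add.1 this

theorem Ext.vadd (h : Ext r N θ) (v w : Fin 2 → K) : θv θ (v + w) = θv θ v + θv θ w := by
  funext i; exact h.add _ _

theorem Ext.vzero (h : Ext r N θ) : θv θ (0 : Fin 2 → K) = 0 := by
  funext i; exact h.zero

theorem Ext.vsum (h : Ext r N θ) {ι : Type} (s : Finset ι) (f : ι → Fin 2 → K) :
    θv θ (∑ k ∈ s, f k) = ∑ k ∈ s, θv θ (f k) := by
  classical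
  induction s using Finset.induction_on with
  | empty => rw [Finset.sum_empty, Finset.sum_empty, h.vzero]
  | insert a s ha ih => rw [Finset.sum_insert ha, Finset.sum_insert ha, h.vadd, ih]

theorem Ext.smul (h : Ext r N θ) (g : S n) (v : Fin 2 → K) :
    θv θ (g • v) = N g • v + g • θv θ v := by
  funext i
  show θ (g • v i) = N g • v i + g • θ (v i)
  rw [Algebra.smul_def, h.mul, h.am, Algebra.smul_def, Algebra.smul_def]

theorem Ext.mulVec (h : Ext r N θ) (X : M2 K) (v : Fin 2 → K) :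
    θv θ (X.mulVec v) = (θm θ X).mulVec v + X.mulVec (θv θ v) := by
  funext i
  show θ (X.mulVec v i) = (θm θ X).mulVec v i + X.mulVec (θv θ v) i
  simp only [Matrix.mulVec, dotProduct, Fin.sum_univ_two]
  show θ (X i 0 * v 0 + X i 1 * v 1) = θ (X i 0) * v 0 + θ (X i 1) * v 1 +
    (X i 0 * θ (v 0) + X i 1 * θ (v 1))
  rw [h.add, h.mul, h.mul]; ring

theorem Ext.e (h : Ext r N θ) (j : Fin 2) : θv θ (Pi.single j (1 : K)) = 0 := by
  funext i
  show θ ((Pi.single j (1 : K) : Fin 2 → K) i) = 0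
  by_cases hij : i = j
  · subst hij; rw [Pi.single_eq_same, h.one]
  · rw [Pi.single_eq_of_ne hij, h.zero]

/-- homogeneous components of local lifts -/
theorem Ext.proj (h : Ext r N θ) {M : Submodule (S n) (Fin 2 → K)} (hG : Geo M) {f : S n} {e : ℕ}
    (hf : f.IsHomogeneous e) {B : M2 K} (hB : ∀ v ∈ M, f • θv θ v + B.mulVec v ∈ M) :
    ∃ B' : M2 K, HmM n (e + r) B' ∧ ∀ v ∈ M, f • θv θ v + B'.mulVec v ∈ M := by
  classical
  obtain ⟨s, b, hb, hBs⟩ := hG.matrix (X := B) fun j => by
    have := hB _ (hG.e j)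
    rwa [h.e, smul_zero, zero_add] at this
  let b' : ℤ → M2 K := fun k => if k ∈ s then b k else 0
  have hb' : ∀ k, HmM n k (b' k) := by
    intro k
    show HmM n k (if k ∈ s then b k else 0)
    split_ifs with hk
    · exact hb k hk
    · exact hgrM.zero k
  have hBs' : B = ∑ k ∈ insert ((e : ℤ) + r) s, b' k := by
    rw [hBs, ← Finset.sum_subset (Finset.subset_insert ((e : ℤ) + r) s)]
    · exact Finset.sum_congr rfl fun k hk => (if_pos hk).symm
    · intro k _ hk; exact if_neg hk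
  refine ⟨b' (e + r), hb' (e + r), fun v hv => ?_⟩
  have key : ∀ (l : ℤ) (v : Fin 2 → K), v ∈ M → HmV n l v →
      f • θv θ v + (b' (e + r)).mulVec v ∈ M := by
    intro l v hv hvl
    let u : ℤ → Fin 2 → K := fun k => (if k = e + r then f • θv θ v else 0) + (b' k).mulVec v
    have hu : ∀ k, HmV n (k + l) (u k) := by
      intro k
      refine hgrV.add ?_ (hmV_mulVec (hb' k) hvl)
      split_ifs with hk
      · subst hk
        rw [smul_eq_am (K := K)]
        have := hgrV.smul _ _ _ _ (Hm.of_homZ (K := K) (Or.inr ⟨e, rfl, hf⟩))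
          (fun i => h.hm _ _ (hvl i) : HmV n (l + r) (θv θ v))
        rwa [show (e : ℤ) + (l + r) = e + r + l by ring] at this
      · exact hgrV.zero _
    have h1 := hB v hv
    have h2 : f • θv θ v + B.mulVec v =
        ∑ m ∈ (insert ((e : ℤ) + r) s).map (addRightEmbedding l), u (m - l) := by
      rw [Finset.sum_map]
      have : ∀ k ∈ insert ((e : ℤ) + r) s, u (addRightEmbedding l k - l) = u k := fun k _ => by
        rw [addRightEmbedding_apply, add_sub_cancel_right]
      rw [Finset.sum_congr rfl this]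
      show _ = ∑ k ∈ insert ((e : ℤ) + r) s,
        ((if k = e + r then f • θv θ v else 0) + (b' k).mulVec v)
      rw [Finset.sum_add_distrib, Finset.sum_ite_eq' (insert ((e : ℤ) + r) s) ((e : ℤ) + r),
        if_pos (Finset.mem_insert_self _ _), hBs', Matrix.sum_mulVec]
    rw [h2] at h1
    have h3 := hG.grM.proj hgrV (f := fun m => u (m - l)) (fun m hm => by
      rw [Finset.mem_map] at hm
      obtain ⟨m', hm', rfl⟩ := hm
      simp only [addRightEmbedding_apply, add_sub_cancel_right]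
      exact hu m') h1 (e + r + l) (by
      rw [Finset.mem_map]; exact ⟨e + r, Finset.mem_insert_self _ _, rfl⟩)
    simp only [add_sub_cancel_right] at h3
    simpa [u] using h3
  obtain ⟨t, g, hg, rfl⟩ := hG.dec v hv
  rw [h.vsum, Matrix.mulVec_sum, Finset.smul_sum, ← Finset.sum_add_distrib]
  exact M.sum_mem fun l hl => key l _ (hg l hl).1 (hg l hl).2

/-- local lifts -/
theorem Ext.loc (h : Ext r N θ) {M : Submodule (S n) (Fin 2 → K)} (hG : Geo M) (i : Fin (n + 1)) :
    ∃ (e : ℕ) (B : M2 K), ∀ v ∈ M, xp {i} ^ e • θv θ v + B.mulVec v ∈ M := by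
  let 𝔞 : Ideal (S n) := {
    carrier := {f | ∃ B : M2 K, ∀ v ∈ M, f • θv θ v + B.mulVec v ∈ M}
    zero_mem' := ⟨0, fun v hv => by rw [zero_smul, zero_mulVec, add_zero]; exact M.zero_mem⟩
    add_mem' := by
      rintro a b ⟨X, hX⟩ ⟨X', hX'⟩
      refine ⟨X + X', fun v hv => ?_⟩
      have := M.add_mem (hX v hv) (hX' v hv)
      rw [add_smul, add_mulVec]
      convert this using 1
      abel
    smul_mem' := by
      rintro c a ⟨X, hX⟩
      refine ⟨c • X, fun v hv => ?_⟩
      have := M.smul_mem c (hX v hv)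
      rwa [smul_add, ← mul_smul, ← smul_mulVec] at this }
  refine xp_pow_mem (𝔞 := 𝔞) ?_ (Finset.singleton_nonempty i)
  intro x hx
  obtain ⟨P, g, hP⟩ := hG.chart x hx
  have hu : IsUnit P.det := isUnit_iff_ne_zero.2 hP.1
  refine ⟨g * g, ⟨-((g * g) • (θm θ P * P⁻¹)), fun v hv => ?_⟩, by
    rw [map_mul]; exact mul_ne_zero hP.2.1 hP.2.1⟩
  obtain ⟨p, hp⟩ := hP.2.2.2 v hv
  have e1 := h.smul g v
  rw [hp, h.mulVec] at e1
  have e2 : θv θ (pv K p) = pv K (fun i => N (p i)) := by
    funext j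
    exact h.am (p j)
  have e3 : pv K p = g • (P⁻¹.mulVec v) := by
    rw [← mulVec_smul, hp, mulVec_mulVec, nonsing_inv_mul _ hu, one_mulVec]
  have e4 : (g * g) • θv θ v + (-((g * g) • (θm θ P * P⁻¹))).mulVec v =
      g • P.mulVec (pv K fun i => N (p i)) - N g • (g • v) := by
    have e5 : g • θv θ v = (θm θ P).mulVec (pv K p) + P.mulVec (θv θ (pv K p)) - N g • v := by
      rw [e1]; abel
    rw [mul_smul, e5, e2, neg_mulVec, smul_mulVec, e3, mulVec_smul, ← mulVec_mulVec, smul_sub,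
      smul_add, mul_smul, smul_comm (N g) g v]
    abel
  rw [e4]
  exact M.sub_mem (M.smul_mem _ (hP.2.2.1 _)) (M.smul_mem _ (M.smul_mem _ hv))

theorem trace_mem_O (hn : 1 ≤ n) {M : Submodule (S n) (Fin 2 → K)} (hG : Geo M) {X : M2 K}
    (hX : ∀ v ∈ M, X.mulVec v ∈ M) : X.trace ∈ O (n := n) K := by
  refine mem_O_of_locI hn fun i => ?_
  let 𝔟 : Ideal (S n) := {
    carrier := {f | f • X.trace ∈ O (n := n) K}
    zero_mem' := by
      show (0 : S n) • X.trace ∈ O (n := n) K
      rw [zero_smul]; exact Submodule.zero_mem _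
    add_mem' := by
      intro a b ha hb
      show (a + b) • X.trace ∈ O (n := n) K
      rw [add_smul]; exact Submodule.add_mem _ ha hb
    smul_mem' := by
      intro r a ha
      show (r • a) • X.trace ∈ O (n := n) K
      rw [smul_eq_mul, mul_smul]; exact Submodule.smul_mem _ _ ha }
  refine xp_pow_mem (𝔞 := 𝔟) ?_ (Finset.singleton_nonempty i)
  intro x hx
  obtain ⟨P, g, hP⟩ := hG.chart x hx
  obtain ⟨X', hX'⟩ := chart_end hP hX
  refine ⟨g, ?_, hP.2.1⟩
  have := congrArg Matrix.trace (chart_eq hP hX')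
  rw [trace_smul, tr_conj hP.1, pm_trace] at this
  exact ⟨X'.trace, this.symm⟩

/-- local lifts whose differences are trace free -/
theorem Ext.data (h : Ext r N θ) (hn : 2 ≤ n) {M : Submodule (S n) (Fin 2 → K)} (hG : Geo M) :
    ∃ C' : Fin (n + 1) → M2 K, (∀ i, HmM n r (C' i)) ∧
      (∀ i j, C' j - C' i ∈ locI {i, j} (A0 M)) ∧
      ∀ i, ∀ v ∈ M, θv θ v + (C' i).mulVec v ∈ locI {i} M := by
  classical
  choose e B0 hB0 using h.loc hG
  have hB1 := fun i => h.proj hG ((xp_homogeneous {i}).pow (e i)) (hB0 i)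
  choose B hBh hB using hB1
  let q : Fin (n + 1) → K := fun i => algebraMap (S n) K (xp {i} ^ e i)
  have hq0 : ∀ i, q i ≠ 0 := fun i => am_ne (pow_ne_zero _ (xp_ne_zero _))
  let C : Fin (n + 1) → M2 K := fun i => (q i)⁻¹ • B i
  have hCh : ∀ i, HmM n r (C i) := by
    intro i
    have := hgrM.smul _ _ _ _ (hm_xp (K := K) {i} (e i)).inv (hBh i)
    rwa [neg_add_cancel_left] at this
  have hC : ∀ i, ∀ v ∈ M, xp {i} ^ e i • (θv θ v + (C i).mulVec v) ∈ M := by
    intro i v hv
    have e1 : xp {i} ^ e i • (θv θ v + (C i).mulVec v) = xp {i} ^ e i • θv θ v + (B i).mulVec v := by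
      rw [smul_add]
      congr 1
      show xp {i} ^ e i • ((q i)⁻¹ • B i).mulVec v = _
      rw [smul_mulVec, smul_eq_am (K := K)]
      exact smul_inv_smul₀ (hq0 i) _
    rw [e1]; exact hB i v hv
  -- differences of the local lifts
  have hdiff : ∀ i j, ∃ m : ℕ, ∀ v ∈ M, (xp {i, j} ^ m • (C j - C i)).mulVec v ∈ M := by
    intro i j
    obtain ⟨a, ha⟩ := pow_dvd_pow_of_dvd (xp_dvd (n := n) (I := {i}) (J := {i, j}) (by simp)) (e i)
    obtain ⟨b, hb⟩ := pow_dvd_pow_of_dvd (xp_dvd (n := n) (I := {j}) (J := {i, j}) (by simp)) (e j)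
    refine ⟨e i + e j, fun v hv => ?_⟩
    have e1 : (xp {i, j} ^ (e i + e j) • (C j - C i)).mulVec v =
        (xp {i, j} ^ e i * b) • (xp {j} ^ e j • (θv θ v + (C j).mulVec v)) -
        (xp {i, j} ^ e j * a) • (xp {i} ^ e i • (θv θ v + (C i).mulVec v)) := by
      rw [← mul_smul, ← mul_smul, mul_assoc, mul_assoc, mul_comm b, mul_comm a, ← hb, ← ha,
        pow_add, mul_comm (xp {i, j} ^ e j), ← smul_sub, smul_mulVec, sub_mulVec]
      congr 1
      abel
    rw [e1]
    exact M.sub_mem (M.smul_mem _ (hC j v hv)) (M.smul_mem _ (hC i v hv))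
  have htr : ∀ i j, (C j - C i).trace ∈ locI {i, j} (O (n := n) K) := by
    intro i j
    obtain ⟨m, hm⟩ := hdiff i j
    refine ⟨m, ?_⟩
    have := trace_mem_O (by omega) hG hm
    rwa [trace_smul] at this
  obtain ⟨s, hs, hs', hsh⟩ := h1S (K := K) hn (t := fun i j => (C j - C i).trace) htr
    (fun i j k => by simp only [trace_sub]; ring)
  have hsh' := hsh r fun i j => hm_trace (hgrM.sub _ _ _ (hCh j) (hCh i))
  let u : Fin (n + 1) → K := fun i => algebraMap (S n) K (MvPolynomial.C (1 / 2)) * s i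
  have hhalf : algebraMap (S n) K (MvPolynomial.C (1 / 2)) * 2 = 1 := by
    rw [show (2 : K) = algebraMap (S n) K (MvPolynomial.C 2) by
      rw [show (MvPolynomial.C 2 : S n) = 2 from map_ofNat _ _, map_ofNat],
      ← map_mul, ← MvPolynomial.C_mul]
    norm_num
  have hu : ∀ i, u i ∈ locI {i} (O (n := n) K) := by
    intro i
    have : u i = (MvPolynomial.C (1 / 2) : S n) • s i := (Algebra.smul_def _ _).symm
    rw [this]
    exact Submodule.smul_mem _ _ (hs i)
  have huh : ∀ i, Hm n r (u i) := by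
    intro i
    have h1 : Hm n 0 (algebraMap (S n) K (MvPolynomial.C (1 / 2) : S n)) :=
      Hm.of_homZ (Or.inr ⟨0, rfl, isHomogeneous_C _ _⟩)
    have := h1.mul (hsh' i)
    rwa [zero_add] at this
  let C' : Fin (n + 1) → M2 K := fun i => C i - u i • (1 : M2 K)
  have hrs : ∀ (m : ℕ) (I : Finset (Fin (n + 1))) (c : K) (v : Fin 2 → K), v ∈ M →
      xp I ^ m • c ∈ O (n := n) K → (xp I ^ m • (c • (1 : M2 K))).mulVec v ∈ M := by
    intro m I c v hv hc
    obtain ⟨p, hp⟩ := mem_O.1 hc
    rw [← smul_assoc, ← hp, smul_mulVec, one_mulVec, algebraMap_smul]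
    exact M.smul_mem _ hv
  have hone : HmM n 0 (1 : M2 K) := by
    intro i j
    rw [Matrix.one_apply]
    split_ifs
    · have : (1 : K) = algebraMap (S n) K 1 := (map_one _).symm
      rw [this]
      exact Hm.of_homZ (Or.inr ⟨0, rfl, isHomogeneous_one _ _⟩)
    · exact Hm.zero 0
  refine ⟨C', fun i => ?_, fun i j => ?_, fun i v hv => ?_⟩
  · have := hgrM.smul _ _ _ _ (huh i) hone
    rw [add_zero] at this
    exact hgrM.sub _ _ _ (hCh i) this
  · obtain ⟨m, hm⟩ := hdiff i j
    have hrj : u j - u i ∈ locI {i, j} (O (n := n) K) := Submodule.sub_mem _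
      (locI_mono (by simp) _ (hu j)) (locI_mono (by simp) _ (hu i))
    obtain ⟨m', hm'⟩ := hrj
    have e1 : C' j - C' i = (C j - C i) - (u j - u i) • (1 : M2 K) := by
      show C j - u j • (1 : M2 K) - (C i - u i • (1 : M2 K)) = _
      rw [sub_smul]; abel
    rw [e1]
    refine ⟨m + m', ?_, fun v hv => ?_⟩
    · rw [trace_smul, trace_sub, trace_smul, Matrix.trace_one]
      have e2 : (C j - C i).trace = s j - s i := hs' i j
      have e3 : (C j - C i).trace - (u j - u i) • ((Fintype.card (Fin 2) : ℕ) : K) = 0 := by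
        rw [e2, Fintype.card_fin, smul_eq_mul]
        push_cast
        show s j - s i - (algebraMap (S n) K (MvPolynomial.C (1 / 2)) * s j -
          algebraMap (S n) K (MvPolynomial.C (1 / 2)) * s i) * 2 = 0
        linear_combination (s i - s j) * hhalf
      rw [e3, smul_zero]
    · rw [smul_sub, sub_mulVec]
      refine M.sub_mem ?_ (hrs _ _ _ _ hv (locI_up hm' (Nat.le_add_left _ _)))
      rw [pow_add, mul_comm, mul_smul, smul_mulVec]
      exact M.smul_mem _ (hm v hv)
  · have e1 : θv θ v + (C' i).mulVec v =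
        (θv θ v + (C i).mulVec v) - (u i • (1 : M2 K)).mulVec v := by
      show θv θ v + (C i - u i • (1 : M2 K)).mulVec v = _
      rw [sub_mulVec]; abel
    rw [e1]
    refine Submodule.sub_mem _ ⟨e i, hC i v hv⟩ ?_
    obtain ⟨m, hm⟩ := hu i
    refine ⟨m, ?_⟩
    rw [← smul_mulVec]
    exact hrs _ _ _ _ hv hm

/-- if the differences of the local lifts are a coboundary, then there is a global lift -/
theorem Ext.glue (h : Ext r N θ) {M : Submodule (S n) (Fin 2 → K)} (hG : Geo M)
    {C : Fin (n + 1) → M2 K} (hC : ∀ i, ∀ v ∈ M, θv θ v + (C i).mulVec v ∈ locI {i} M)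
    (hc : Cob (A0 M) fun i j => C j - C i) :
    ∃ D : M2 K, HmM n r D ∧ ∀ v ∈ M, θv θ v + D.mulVec v ∈ M := by
  obtain ⟨W, hW, hW'⟩ := hc
  let D : M2 K := C 0 - W 0
  have hD : ∀ i, D = C i - W i := by
    intro i
    have := hW' 0 i
    show C 0 - W 0 = C i - W i
    have e1 : C i - C 0 = W i - W 0 := this
    rw [sub_eq_sub_iff_add_eq_add] at e1 ⊢
    rw [add_comm (C 0), ← e1]
  have hDM : ∀ v ∈ M, (1 : S n) • θv θ v + D.mulVec v ∈ M := by
    intro v hv
    rw [one_smul]
    refine hG.sat _ fun i => ?_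
    have e1 : θv θ v + D.mulVec v =
        (θv θ v + (C i).mulVec v) - (W i).mulVec v := by
      rw [hD i, sub_mulVec]; abel
    rw [e1]
    refine Submodule.sub_mem _ (hC i v hv) ?_
    obtain ⟨m, hm⟩ := hW i
    refine ⟨m, ?_⟩
    rw [← smul_mulVec]
    exact hm.2 v hv
  obtain ⟨D', hD', hDM'⟩ := h.proj hG (isHomogeneous_one _ _) hDM
  refine ⟨D', by simpa using hD', fun v hv => by have := hDM' v hv; rwa [one_smul] at this⟩

end Pool.Agent.K6.H64.VB
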