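import Pool.Agent.K6.H64.VB.Endo
import Pool.Agent.K6.H64.VB.Fam
import Pool.Agent.W615.X10

/-! The two inequalities (helper64). -/

set_option autoImplicit false
set_option linter.all false

open MvPolynomial H960VB Matrix

namespace Pool.Agent.K6.H64.VB

variable {n : ℕ}

theorem homZ_pderiv (s : Fin (n + 1)) (p : S n) (k : ℤ) (h : HomZ p k) :
    HomZ (pderiv s p) (k + -1) := by
  rcases h with rfl | ⟨e, he, hp⟩
  · left; rw [map_zero]
  · cases e with
    | zero =>
      left
      rw [MvPolynomial.totalDegree_eq_zero_iff_eq_C.1 (Nat.le_zero.1 hp.totalDegree_le), pderiv_C]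
    | succ e =>
      exact Or.inr ⟨e, by push_cast at he; omega, by simpa using hp.pderiv (i := s)⟩

theorem homZ_X_pderiv (s t : Fin (n + 1)) (p : S n) (k : ℤ) (h : HomZ p k) :
    HomZ (((X t : S n) • pderiv s : Derivation ℂ (S n) (S n)) p) (k + 0) := by
  have := homZ_mul (Or.inr ⟨1, rfl, isHomogeneous_X ℂ t⟩ : HomZ (X t : S n) ((1 : ℕ) : ℤ))
    (homZ_pderiv s p k h)
  have e : ((1 : ℕ) : ℤ) + (k + -1) = k + 0 := by push_cast; ring
  rw [e] at this
  exact this

/-- the lift of a linear vector field -/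
theorem liftsTo_of {E : Bundle2 n} {N : Matrix (Fin (n + 1)) (Fin (n + 1)) ℂ}
    {T : Vec E → Vec E} (h1 : ∀ m G, E.IsSection m G → E.IsSection m (T G))
    (h2 : ∀ G G', G ∈ Mp E → G' ∈ Mp E → T (G + G') = T G + T G')
    (h3 : ∀ (p : S n) G, G ∈ Mp E →
      T (p • G) = (∑ s, pderiv s p * (∑ t, C (N s t) * X t)) • G + p • T G) :
    Pool.Agent.W615.LiftsTo E N :=
  ⟨Pool.Agent.W615.mkOp T h1
    (fun d G G' h h' => h2 G G' (mem_Mp_of_section h) (mem_Mp_of_section h'))
    (fun d e p G h _ => h3 p G (mem_Mp_of_section h))⟩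

theorem finrank_span_pair {V : Type} [AddCommGroup V] [Module ℂ V] (A B : V) :
    Module.finrank ℂ (Submodule.span ℂ ({A, B} : Set V)) ≤ 2 := by
  classical
  have h1 := finrank_span_finset_le_card (R := ℂ) ({A, B} : Finset V)
  have h2 : ({A, B} : Finset V).card ≤ 2 := Finset.card_le_two
  rw [Finset.coe_pair] at h1
  exact le_trans h1 h2

theorem finrank_le_two {V W : Type} [AddCommGroup V] [Module ℂ V] [AddCommGroup W]
    [Module ℂ W] [FiniteDimensional ℂ W] (L : V →ₗ[ℂ] W)
    (hL : Function.Injective L) (A B : W) (h : ∀ v, ∃ a b : ℂ, L v = a • A + b • B) :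
    Module.finrank ℂ V ≤ 2 := by
  let g : V →ₗ[ℂ] Submodule.span ℂ ({A, B} : Set W) := LinearMap.codRestrict _ L fun v => by
    obtain ⟨a, b, e⟩ := h v
    rw [e]
    exact Submodule.add_mem _ (Submodule.smul_mem _ _ (Submodule.subset_span (by simp)))
      (Submodule.smul_mem _ _ (Submodule.subset_span (by simp)))
  have hg : Function.Injective g := fun x y hxy =>
    hL (congrArg (fun z : Submodule.span ℂ ({A, B} : Set W) => (z : W)) hxy)
  exact le_trans (LinearMap.finrank_le_finrank_of_injective hg) (finrank_span_pair A B)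

variable {E : Bundle2 n} {d : ℤ} {Φ : Vec E → Vec E}

theorem exists_frm (hn : 1 ≤ n) (E : Bundle2 n) : Nonempty (Frm E) := by
  obtain ⟨m, G, G', i, j, h, h', hw⟩ := exists_frame hn E
  have hs : ∀ s : Fin 2, E.IsSection m ((![G, G'] : Fin 2 → Vec E) s) := by
    intro s
    fin_cases s
    · exact h
    · exact h'
  exact ⟨{ m := m, G := ![G, G'], i := i, j := j, sec := hs, ne := hw }⟩

/-- the first inequality -/
theorem main1 (hn : 4 ≤ n) (hE : ¬ E.Splits) (hd : 0 < d) (h : TwE E d Φ) (hc : Cod3 E Φ)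
    (c : ℕ → ℕ) (hH : ∀ j : ℕ, H1Le' E Φ (d - j * d) (c j)) :
    ∃ m, (n + 1) ^ 2 ≤ 2 + ∑ j ∈ Finset.range m, c j := by
  classical
  obtain ⟨F⟩ := exists_frm (by omega) E
  let K := FractionRing (S n)
  have htw := h.tw F (K := K) (by omega) hd hc
  have hG := F.geo (K := K) (by omega)
  choose θ hθ using fun a : Fin (n + 1) × Fin (n + 1) =>
    exists_ext K ((X a.2 : S n) • pderiv a.1 : Derivation ℂ (S n) (S n)) (homZ_X_pderiv a.1 a.2)
  obtain ⟨Y, hY, hYl⟩ := Ext.fam hθ (by omega) hG
  obtain ⟨m, W, hW, hWc⟩ := htw.chain (by omega) hY c (fun j => by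
    have := h.h1K F (K := K) (by omega) htw.tr hc (hH j)
    rwa [zero_add])
  obtain ⟨P, P', w, -, hS⟩ := Pool.Agent.W615.structure_main hn hE
  have hlift : ∀ u ∈ W, Pool.Agent.W615.LiftsTo E (Matrix.of fun s t => u (s, t)) := by
    intro u hu
    obtain ⟨θ', D, hθ', hD, hDM⟩ := hYl u (hWc u hu)
    obtain ⟨T, h1, h2, h3⟩ := hθ'.sections F hD hDM
    refine liftsTo_of (T := T) (fun m G hG => by simpa using h1 m G hG) h2 fun p G hG => ?_
    rw [h3 p G hG]
    congr 2
    rw [Fintype.sum_prod_type]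
    refine Finset.sum_congr rfl fun s _ => ?_
    rw [Finset.mul_sum]
    refine Finset.sum_congr rfl fun t _ => ?_
    show C (u (s, t)) * (X t * pderiv s p) = pderiv s p * (C (u (s, t)) * X t)
    ring
  have hW2 : Module.finrank ℂ W ≤ 2 := by
    let L : W →ₗ[ℂ] Matrix (Fin (n + 1)) (Fin (n + 1)) ℂ := {
      toFun := fun u => Matrix.of fun s t => (u : Fin (n + 1) × Fin (n + 1) → ℂ) (s, t)
      map_add' := fun u u' => rfl
      map_smul' := fun a u => rfl }
    refine finrank_le_two L (fun u u' huu => ?_) _ 1 fun u => hS _ (hlift u u.2)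
    apply Subtype.ext
    funext ⟨s, t⟩
    exact congrFun (congrFun huu s) t
  have hU : Module.finrank ℂ (Fin (n + 1) × Fin (n + 1) → ℂ) = (n + 1) ^ 2 := by
    rw [Module.finrank_fintype_fun_eq_card, Fintype.card_prod, Fintype.card_fin, sq]
  rw [hU] at hW
  exact ⟨m, by omega⟩

/-- the second inequality -/
theorem main2 (hn : 4 ≤ n) (hE : ¬ E.Splits) (hd : 0 < d) (h : TwE E d Φ) (hc : Cod3 E Φ)
    (c : ℕ → ℕ) (hH : ∀ j : ℕ, H1Le' E Φ (d - 1 - j * d) (c j)) :
    ∃ m, n + 1 ≤ ∑ j ∈ Finset.range m, c j := by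
  classical
  obtain ⟨F⟩ := exists_frm (by omega) E
  let K := FractionRing (S n)
  have htw := h.tw F (K := K) (by omega) hd hc
  have hG := F.geo (K := K) (by omega)
  choose θ hθ using fun a : Fin (n + 1) =>
    exists_ext K (pderiv a : Derivation ℂ (S n) (S n)) (homZ_pderiv a)
  obtain ⟨Y, hY, hYl⟩ := Ext.fam hθ (by omega) hG
  obtain ⟨m, W, hW, hWc⟩ := htw.chain (by omega) hY c (fun j => by
    have := h.h1K F (K := K) (by omega) htw.tr hc (hH j)
    rwa [show (-1 : ℤ) + d = d - 1 by ring])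
  obtain ⟨P, P', w, -, hS⟩ := Pool.Agent.W615.structure_main hn hE
  have hW0 : W = ⊥ := by
    rw [eq_bot_iff]
    intro u hu
    rw [Submodule.mem_bot]
    by_contra hu0
    obtain ⟨s₀, hs₀⟩ := Function.ne_iff.1 hu0
    obtain ⟨θ', D, hθ', hD, hDM⟩ := hYl u (hWc u hu)
    obtain ⟨T, h1, h2, h3⟩ := hθ'.sections F hD hDM
    -- the vector fields `l ∂_u` lift, for all linear forms `l`
    have hlift : ∀ v : Fin (n + 1) → ℂ,
        Pool.Agent.W615.LiftsTo E (Matrix.of fun s t => u s * v t) := by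
      intro v
      let l : S n := ∑ t, C (v t) * X t
      have hl : HomZ l ((1 : ℕ) : ℤ) := by
        refine homZ_sum _ fun t => ?_
        have := homZ_mul (Or.inr ⟨0, rfl, isHomogeneous_C _ (v t)⟩ : HomZ (C (v t) : S n) ((0 : ℕ) : ℤ))
          (Or.inr ⟨1, rfl, isHomogeneous_X ℂ t⟩ : HomZ (X t : S n) ((1 : ℕ) : ℤ))
        simpa using this
      refine liftsTo_of (T := fun G => l • T G) (fun m G hG => ?_) (fun G G' hG hG' => ?_)
        fun p G hG => ?_
      · have := smul_section (h1 m G hG) hl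
        simpa using this
      · rw [h2 G G' hG hG', smul_add]
      · rw [h3 p G hG, smul_add, smul_smul, smul_comm l p]
        congr 2
        rw [Finset.mul_sum]
        refine Finset.sum_congr rfl fun s _ => ?_
        show (∑ t, C (v t) * X t) * (C (u s) * pderiv s p) =
          pderiv s p * ∑ t, C (u s * v t) * X t
        rw [Finset.sum_mul, Finset.mul_sum]
        refine Finset.sum_congr rfl fun t _ => ?_
        rw [MvPolynomial.C_mul]
        ring
    let L : (Fin (n + 1) → ℂ) →ₗ[ℂ] Matrix (Fin (n + 1)) (Fin (n + 1)) ℂ := {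
      toFun := fun v => Matrix.of fun s t => u s * v t
      map_add' := fun v v' => by
        refine Matrix.ext fun s t => ?_
        show u s * (v t + v' t) = u s * v t + u s * v' t
        ring
      map_smul' := fun a v => by
        refine Matrix.ext fun s t => ?_
        show u s * (a * v t) = a * (u s * v t)
        ring }
    have := finrank_le_two L (fun v v' hvv => ?_) _ 1 fun v => hS _ (hlift v)
    · rw [Module.finrank_fintype_fun_eq_card, Fintype.card_fin] at this
      omega
    · funext t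
      have h5 : u s₀ * v t = u s₀ * v' t := congrFun (congrFun hvv s₀) t
      exact mul_left_cancel₀ hs₀ h5
  rw [hW0, finrank_bot, zero_add, Module.finrank_fintype_fun_eq_card, Fintype.card_fin] at hW
  exact ⟨m, hW⟩

end Pool.Agent.K6.H64.VB
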